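import Pool.Agent.N193.PS.Dec
import Pool.Agent.N193.PS.Law
import Pool.Agent.R459.Eq3

set_option autoImplicit false

/-!
The characteristic function of `c₀ + κ ⌊f n⌋` decays at all frequencies with many places far from the integers.
-/

namespace Pool.Agent.N193.PS

open Finset Filter Topology
open Pool.Agent.H469R2.NK (e norm_e e_add conj_e)
open Pool.Agent.H807R2.Dav (ee norm_ee ee_add)
open Pool.Agent.R459.Eq (Decays)
open Pool.Agent.TH872.Mir (Far farCount)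

variable {c : ℝ} {φ : ℕ → ℝ → ℝ}

/-- The sums over the values, with the exact dependence on the frequency. -/
theorem SV.valsum' (h : SV c φ) : ∃ r : ℕ, 1 ≤ r ∧ ∃ σ : ℝ, 0 < σ ∧ σ ≤ 1 / 4 ∧ ∃ C : ℝ, 0 < C ∧ ∀ᶠ x : ℕ in atTop, ∀ α : ℝ,
    0 < |α - round α| →
    ‖∑ n ∈ Icc 1 x, ee (α * (val φ n : ℕ))‖ ≤
      C * (x * (|α - round α| * φ 0 x) ^ (-(1 / (r : ℝ))) + (x : ℝ) ^ (1 - σ)) := by
  obtain ⟨r, hr, σ, hσ, hσ', C, hC, hA⟩ := h.floor'
  obtain ⟨n₀, hn₀⟩ := h.val_eq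
  refine ⟨r, hr, σ, hσ, hσ', C + 1, by linarith, ?_⟩
  have hev := (tendsto_natCast_atTop_atTop (R := ℝ)).eventually
    ((const_ev (2 * n₀) (1 - σ) (by linarith)).and ((eventually_ge_atTop (1 : ℝ)).and h.fpos))
  filter_upwards [hA, hev] with x hx hy α hα
  obtain ⟨f1, f2, f3⟩ := hy
  have hx0 : (0 : ℝ) < x := by linarith
  obtain ⟨q, hq⟩ : ∃ q : ℤ, q = round α := ⟨_, rfl⟩
  have hδ := abs_sub_round α
  rw [← hq] at hδ hα ⊢
  have h1 := hx |α - q| hα hδ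
  have h2 : ‖∑ n ∈ Icc 1 x, ee (α * (val φ n : ℕ))‖ = ‖∑ n ∈ Icc 1 x, e (|α - q| * (val φ n : ℕ))‖ := by
    have h3 : ∀ n, ee (α * (val φ n : ℕ)) = e ((α - q) * (val φ n : ℕ)) := by
      intro n
      rw [ee_eq_e]
      have : α * (val φ n : ℕ) = (α - q) * (val φ n : ℕ) + ((q * (val φ n : ℕ) : ℤ) : ℝ) := by push_cast; ring
      rw [this, e_add, e_int', mul_one]
    simp only [h3]
    rcases abs_choice (α - q) with h4 | h4
    · rw [h4]
    · rw [h4]
      exact (norm_neg_sum (Icc 1 x) (fun n => ((val φ n : ℕ) : ℝ)) (α - q)).symm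
  rw [h2]
  set δ := |α - q| with hδd
  have h3 : ‖∑ n ∈ Icc 1 x, e (δ * (val φ n : ℕ)) - ∑ n ∈ Icc 1 x, e (δ * ⌊φ 0 n⌋)‖ ≤ 2 * n₀ := by
    rw [← sum_sub_distrib]
    refine (norm_sum_le _ _).trans ?_
    calc ∑ n ∈ Icc 1 x, ‖e (δ * (val φ n : ℕ)) - e (δ * ⌊φ 0 n⌋)‖ ≤ ∑ n ∈ Icc 1 x, (if n < n₀ then (2 : ℝ) else 0) := by
          refine sum_le_sum fun n _ => ?_
          split_ifs with h4
          · refine (norm_sub_le _ _).trans ?_
            rw [norm_e, norm_e]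
            norm_num
          · rw [hn₀ n (by omega), sub_self, norm_zero]
      _ ≤ 2 * n₀ := by
          rw [← sum_filter, sum_const, nsmul_eq_mul, mul_comm]
          apply mul_le_mul_of_nonneg_left _ (by norm_num)
          have h5 : (Icc 1 x).filter (fun n => n < n₀) ⊆ range n₀ := by
            intro n hn
            rw [mem_filter] at hn
            exact mem_range.2 hn.2
          have := card_le_card h5
          rw [card_range] at this
          exact_mod_cast this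
  have h4 := norm_le_insert' (∑ n ∈ Icc 1 x, e (δ * (val φ n : ℕ))) (∑ n ∈ Icc 1 x, e (δ * ⌊φ 0 n⌋))
  have h5 : 0 ≤ x * (δ * φ 0 x) ^ (-(1 / (r : ℝ))) := by positivity
  nlinarith

/-- a frequency with many far places is not too close to the integers -/
lemma far_dist (k M : ℕ) (hM : 1 ≤ M) (α : ℝ) (h : M ≤ farCount 2 1 k α) : M ≤ k ∧ (2 : ℝ) ^ M ≤ 8 * (|α - round α| * 2 ^ k) := by
  classical
  obtain ⟨S, hS⟩ : ∃ S : Finset ℕ, S = (range k).filter (fun j => Far (1 / ((2 : ℕ) : ℝ) ^ 2) (((1 : ℕ) : ℝ) * (((2 : ℕ) : ℝ) ^ j * α))) :=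
    ⟨_, rfl⟩
  have hcard : M ≤ S.card := by
    rw [hS]
    unfold farCount at h
    convert h
  have hne : S.Nonempty := card_pos.1 (by omega)
  obtain ⟨j, hj⟩ : ∃ j, j = S.min' hne := ⟨_, rfl⟩
  have hjS : j ∈ S := by rw [hj]; exact min'_mem _ _
  have hsub : S ⊆ Ico j k := by
    intro i hi
    rw [mem_Ico]
    refine ⟨by rw [hj]; exact min'_le _ _ hi, ?_⟩
    rw [hS, mem_filter, mem_range] at hi
    exact hi.1
  have hc := card_le_card hsub
  rw [Nat.card_Ico] at hc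
  rw [hS, mem_filter, mem_range] at hjS
  obtain ⟨hjk, hfar⟩ := hjS
  refine ⟨by omega, ?_⟩
  have h1 := hfar (2 ^ j * round α)
  have h2 : |((1 : ℕ) : ℝ) * (((2 : ℕ) : ℝ) ^ j * α) - ((2 ^ j * round α : ℤ) : ℝ)| = 2 ^ j * |α - round α| := by
    have : ((1 : ℕ) : ℝ) * (((2 : ℕ) : ℝ) ^ j * α) - ((2 ^ j * round α : ℤ) : ℝ) = 2 ^ j * (α - round α) := by
      push_cast
      ring
    rw [this, abs_mul, abs_of_pos (by positivity)]
  rw [h2] at h1
  have h3 : (1 : ℝ) / 4 ≤ 2 ^ j * |α - round α| := by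
    refine le_trans (le_of_eq ?_) h1
    norm_num
  have h4 : (2 : ℝ) ^ (M + j) ≤ 2 ^ k := pow_le_pow_right₀ (by norm_num) (by omega)
  have h5 : 0 ≤ |α - round α| := abs_nonneg _
  rw [pow_add] at h4
  have h6 : (0 : ℝ) < 2 ^ M := by positivity
  have h7 : (0 : ℝ) < 2 ^ j := by positivity
  calc (2 : ℝ) ^ M = 2 ^ M * (4 * (1 / 4)) := by ring
    _ ≤ 2 ^ M * (4 * (2 ^ j * |α - round α|)) := by
        apply mul_le_mul_of_nonneg_left _ h6.le
        linarith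
    _ = 4 * (|α - round α| * (2 ^ M * 2 ^ j)) := by ring
    _ ≤ 4 * (|α - round α| * 2 ^ k) := by
        apply mul_le_mul_of_nonneg_left _ (by norm_num)
        exact mul_le_mul_of_nonneg_left h4 h5
    _ ≤ _ := by
        have : 0 ≤ |α - round α| * (2 : ℝ) ^ k := by positivity
        linarith

/-- the decay of the characteristic function -/
theorem SV.decays (h : SV c φ) : ∃ A X₀ : ℕ, ∀ x : ℕ, X₀ ≤ x → ∀ k : ℕ, (2 : ℝ) ^ k ≤ φ 0 x → ∀ c₀ κ : ℤ,
    Decays 2 1 A k (1 / 2) κ (Icc 1 x) (fun _ => 1 / (x : ℝ)) (fun n => c₀ + κ * (val φ n : ℕ)) := by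
  obtain ⟨r, hr, σ, hσ, hσ', C, hC, hA⟩ := h.valsum'
  obtain ⟨m, hm⟩ := exists_nat_ge (c + 2)
  obtain ⟨s, hs⟩ := exists_nat_ge (1 / σ)
  obtain ⟨B, hB⟩ := pow_unbounded_of_one_lt (64 * (C + 1)) (by norm_num : (1 : ℝ) < 2)
  have hcpos := h.pos
  have hr0 : (0 : ℝ) < r := by exact_mod_cast hr
  have hm0 : 1 ≤ m := by
    have : (1 : ℝ) ≤ m := by linarith
    exact_mod_cast this
  have hs0' : (0 : ℝ) < s := lt_of_lt_of_le (by positivity) hs
  have hs0 : 1 ≤ s := by exact_mod_cast hs0'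
  obtain ⟨A, hAd⟩ : ∃ A, A = r * m * s * (2 * B) := ⟨_, rfl⟩
  have hev := (tendsto_natCast_atTop_atTop (R := ℝ)).eventually (h.poly_up.and (eventually_ge_atTop (1 : ℝ)))
  obtain ⟨X₀, hX₀⟩ := eventually_atTop.mp (hA.and hev)
  refine ⟨A, X₀, fun x hx k hk c₀ κ => ?_⟩
  obtain ⟨g1, g2, g3⟩ := hX₀ x hx
  have hx0 : (0 : ℝ) < x := by linarith
  have hxn : 1 ≤ x := by exact_mod_cast g3
  have hsum1 : ∑ _n ∈ Icc 1 x, (1 / (x : ℝ)) = 1 := by
    rw [sum_const, Nat.card_Icc, Nat.add_sub_cancel, nsmul_eq_mul, mul_one_div, div_self hx0.ne']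
  refine ⟨fun _ _ => by positivity, hsum1, fun θ N hfar hAN => ?_⟩
  obtain ⟨α, hα⟩ : ∃ α : ℝ, α = κ * θ := ⟨_, rfl⟩
  rw [← hα] at hfar
  have hnorm : ‖∑ n ∈ Icc 1 x, ((1 / (x : ℝ) : ℝ) : ℂ) * ee (((c₀ + κ * (val φ n : ℕ) : ℤ) : ℝ) * θ)‖ =
      1 / (x : ℝ) * ‖∑ n ∈ Icc 1 x, ee (α * (val φ n : ℕ))‖ := by
    have h1 : ∀ n ∈ Icc 1 x, ((1 / (x : ℝ) : ℝ) : ℂ) * ee (((c₀ + κ * (val φ n : ℕ) : ℤ) : ℝ) * θ) =
        (((1 / (x : ℝ) : ℝ) : ℂ) * ee (c₀ * θ)) * ee (α * (val φ n : ℕ)) := by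
      intro n _
      rw [mul_assoc, ← ee_add]
      congr 2
      rw [hα]
      push_cast
      ring
    rw [sum_congr rfl h1, ← mul_sum, norm_mul, norm_mul, norm_ee, mul_one, Complex.norm_real, Real.norm_of_nonneg (by positivity)]
  rw [hnorm]
  rcases Nat.eq_zero_or_pos N with hN0 | hN0
  · rw [hN0, pow_zero]
    have h1 : ‖∑ n ∈ Icc 1 x, ee (α * (val φ n : ℕ))‖ ≤ x := by
      refine (norm_sum_le _ _).trans ?_
      simp only [norm_ee, sum_const, Nat.card_Icc, Nat.add_sub_cancel, nsmul_eq_mul, mul_one]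
      exact le_refl _
    calc 1 / (x : ℝ) * ‖∑ n ∈ Icc 1 x, ee (α * (val φ n : ℕ))‖ ≤ 1 / (x : ℝ) * x :=
          mul_le_mul_of_nonneg_left h1 (by positivity)
      _ = 1 := by field_simp
  have hB1 : 1 ≤ B := by
    by_contra hcon
    have : B = 0 := by omega
    rw [this, pow_zero] at hB
    linarith
  have hA1 : 1 ≤ A := by
    rw [hAd]
    exact Nat.mul_pos (Nat.mul_pos (Nat.mul_pos hr hm0) hs0) (by omega)
  obtain ⟨hMk, hdist⟩ := far_dist k (A * (N + 1)) (Nat.mul_pos hA1 (by omega)) α hfar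
  have hδ0 : 0 < |α - round α| := by
    rcases (abs_nonneg (α - round α)).lt_or_eq with h1 | h1
    · exact h1
    · rw [← h1, zero_mul, mul_zero] at hdist
      have : (0 : ℝ) < 2 ^ (A * (N + 1)) := by positivity
      linarith
  have hmain := g1 α hδ0
  -- the first part
  have hBN : 64 * (C + 1) ≤ (2 : ℝ) ^ (B * N) := by
    refine hB.le.trans ?_
    exact pow_le_pow_right₀ (by norm_num) (Nat.le_mul_of_pos_right _ hN0)
  have hBN1 : (2 : ℝ) ^ N ≤ (2 : ℝ) ^ (B * N) := pow_le_pow_right₀ (by norm_num) (Nat.le_mul_of_pos_left _ hB1)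
  have hT : (2 : ℝ) ^ (A * (N + 1)) / 8 ≤ |α - round α| * φ 0 x := by
    have h1 : |α - round α| * 2 ^ k ≤ |α - round α| * φ 0 x := mul_le_mul_of_nonneg_left hk hδ0.le
    linarith
  have hA2 : r * (2 * B * N) ≤ A * (N + 1) := by
    have h1 : r * (2 * B) ≤ A := by
      rw [hAd]
      calc r * (2 * B) = r * 1 * 1 * (2 * B) := by ring
        _ ≤ r * m * s * (2 * B) := by gcongr
    calc r * (2 * B * N) = r * (2 * B) * N := by ring
      _ ≤ A * N := Nat.mul_le_mul_right _ h1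
      _ ≤ A * (N + 1) := Nat.mul_le_mul_left _ (by omega)
  have hp1 : (|α - round α| * φ 0 x) ^ (-(1 / (r : ℝ))) ≤ 8 / (2 : ℝ) ^ (2 * B * N) := by
    have h1 : (((2 : ℝ) ^ (2 * B * N)) / 8) ^ r ≤ |α - round α| * φ 0 x := by
      refine le_trans ?_ hT
      rw [div_pow, ← pow_mul]
      apply div_le_div₀ (by positivity)
      · apply pow_le_pow_right₀ (by norm_num)
        rw [mul_comm]
        exact hA2
      · norm_num
      · exact le_self_pow₀ (by norm_num) (by omega)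
    have h2 : (0 : ℝ) < (2 : ℝ) ^ (2 * B * N) / 8 := by positivity
    calc (|α - round α| * φ 0 x) ^ (-(1 / (r : ℝ))) ≤ ((((2 : ℝ) ^ (2 * B * N)) / 8) ^ r) ^ (-(1 / (r : ℝ))) := by
          apply Real.rpow_le_rpow_of_nonpos (by positivity) h1
          have : 0 < 1 / (r : ℝ) := by positivity
          linarith
      _ = ((2 : ℝ) ^ (2 * B * N) / 8) ^ (-1 : ℝ) := by
          rw [← Real.rpow_natCast _ r, ← Real.rpow_mul h2.le]
          congr 1
          field_simp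
      _ = 8 / (2 : ℝ) ^ (2 * B * N) := by
          rw [Real.rpow_neg_one, inv_div]
  -- the second part
  have hp2 : (x : ℝ) ^ (-σ) ≤ 1 / (2 : ℝ) ^ (2 * B * N) := by
    have h1 : ((2 : ℝ) ^ (2 * B * N)) ^ (s * m) ≤ (x : ℝ) ^ m := by
      calc ((2 : ℝ) ^ (2 * B * N)) ^ (s * m) = 2 ^ (2 * B * N * (s * m)) := by rw [← pow_mul]
        _ ≤ 2 ^ k := by
            apply pow_le_pow_right₀ (by norm_num)
            refine le_trans ?_ hAN
            calc 2 * B * N * (s * m) = 1 * m * s * (2 * B) * N := by ring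
              _ ≤ r * m * s * (2 * B) * N := by gcongr
              _ = A * N := by rw [hAd]
        _ ≤ φ 0 x := hk
        _ ≤ (x : ℝ) ^ (c + 2) := g2
        _ ≤ (x : ℝ) ^ (m : ℝ) := Real.rpow_le_rpow_of_exponent_le g3 hm
        _ = (x : ℝ) ^ m := Real.rpow_natCast _ _
    rw [pow_mul] at h1
    have h2 : ((2 : ℝ) ^ (2 * B * N)) ^ s ≤ x := le_of_pow_le_pow_left₀ (by omega) hx0.le h1
    have h3 : (2 : ℝ) ^ (2 * B * N) ≤ (x : ℝ) ^ σ := by
      calc (2 : ℝ) ^ (2 * B * N) = (((2 : ℝ) ^ (2 * B * N)) ^ s) ^ (1 / (s : ℝ)) := by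
            rw [← Real.rpow_natCast _ s, ← Real.rpow_mul (by positivity), mul_one_div_cancel hs0'.ne', Real.rpow_one]
        _ ≤ (x : ℝ) ^ (1 / (s : ℝ)) := Real.rpow_le_rpow (by positivity) h2 (by positivity)
        _ ≤ (x : ℝ) ^ σ := by
            apply Real.rpow_le_rpow_of_exponent_le g3
            rw [div_le_iff₀ hs0']
            rw [div_le_iff₀ hσ] at hs
            linarith
    rw [Real.rpow_neg hx0.le, ← one_div]
    exact one_div_le_one_div_of_le (by positivity) h3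
  have hxs : (x : ℝ) ^ (1 - σ) = x * (x : ℝ) ^ (-σ) := by
    rw [sub_eq_add_neg, Real.rpow_add hx0, Real.rpow_one]
  calc 1 / (x : ℝ) * ‖∑ n ∈ Icc 1 x, ee (α * (val φ n : ℕ))‖
      ≤ 1 / (x : ℝ) * (C * (x * (|α - round α| * φ 0 x) ^ (-(1 / (r : ℝ))) + (x : ℝ) ^ (1 - σ))) :=
        mul_le_mul_of_nonneg_left hmain (by positivity)
    _ = C * ((|α - round α| * φ 0 x) ^ (-(1 / (r : ℝ))) + (x : ℝ) ^ (-σ)) := by
        rw [hxs]
        field_simp
    _ ≤ C * (8 / (2 : ℝ) ^ (2 * B * N) + 1 / (2 : ℝ) ^ (2 * B * N)) :=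
        mul_le_mul_of_nonneg_left (add_le_add hp1 hp2) hC.le
    _ = 9 * C / ((2 : ℝ) ^ (B * N) * (2 : ℝ) ^ (B * N)) := by
        rw [← pow_add, show B * N + B * N = 2 * B * N by ring]
        ring
    _ ≤ (1 / 2) ^ N := by
        rw [div_le_iff₀ (by positivity), one_div, inv_pow, inv_mul_eq_div, le_div_iff₀ (by positivity)]
        have h1 : (0 : ℝ) < 2 ^ N := by positivity
        have h2 : (0 : ℝ) < 2 ^ (B * N) := by positivity
        calc 9 * C * 2 ^ N ≤ (2 : ℝ) ^ (B * N) * 2 ^ N := by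
              apply mul_le_mul_of_nonneg_right _ h1.le
              linarith
          _ ≤ (2 : ℝ) ^ (B * N) * 2 ^ (B * N) := mul_le_mul_of_nonneg_left hBN1 h2.le

end Pool.Agent.N193.PS
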