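import Pool.Agent.N193.PS.Floor

set_option autoImplicit false

/-!
Exponential sums with smoothly varying phases and over integer parts, without logarithms.
-/

namespace Pool.Agent.N193.PS

open Finset Filter Topology
open Pool.Agent.H469R2.NK (e norm_e e_add Cq Cq_pos)

variable {c : ℝ} {φ : ℕ → ℝ → ℝ}

lemma dyadic' (g : ℕ → ℂ) (hg : ∀ n, ‖g n‖ ≤ 1) (x z : ℕ) (hx : 1 ≤ x) (W₁ W₂ : ℝ) (hW₁ : 0 ≤ W₁) (hW₂ : 0 ≤ W₂)
    (hblk : ∀ y, z < y → y ≤ x → ‖∑ n ∈ range (y - y / 2), g (y / 2 + 1 + n)‖ ≤ W₁ * √((y : ℝ) / x) + W₂) :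
    ∀ y ≤ x, ‖∑ n ∈ Icc 1 y, g n‖ ≤ z + 4 * W₁ * √((y : ℝ) / x) + (Nat.log 2 y + 1 : ℕ) * W₂ := by
  have hx0 : (0 : ℝ) < x := by exact_mod_cast hx
  intro y
  induction y using Nat.strong_induction_on with
  | _ y ih =>
    intro hyx
    have hsq0 : 0 ≤ √((y : ℝ) / x) := Real.sqrt_nonneg _
    rcases Nat.lt_or_ge z y with h1 | h1
    · have hsplit : ∑ n ∈ Icc 1 y, g n = ∑ n ∈ Icc 1 (y / 2), g n + ∑ n ∈ range (y - y / 2), g (y / 2 + 1 + n) := by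
        have hIcc : ∀ m, Icc 1 m = Ico 1 (m + 1) := fun m => by
          ext n
          rw [mem_Icc, mem_Ico]
          omega
        rw [hIcc, hIcc, ← sum_Ico_consecutive g (by omega : 1 ≤ y / 2 + 1) (by omega : y / 2 + 1 ≤ y + 1)]
        congr 1
        rw [sum_Ico_eq_sum_range]
        congr 2
        omega
      rw [hsplit]
      refine (norm_add_le _ _).trans ?_
      have h2 := hblk y h1 hyx
      rcases Nat.lt_or_ge y 2 with h3 | h3
      · have h4 : y / 2 = 0 := by omega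
        rw [h4]
        rw [h4] at h2
        simp only [show Icc 1 0 = (∅ : Finset ℕ) by rfl, sum_empty, norm_zero, zero_add]
        have h5 : (0 : ℝ) ≤ z := Nat.cast_nonneg _
        have h6 : W₂ ≤ ((Nat.log 2 y + 1 : ℕ) : ℝ) * W₂ := by
          have : (1 : ℝ) ≤ ((Nat.log 2 y + 1 : ℕ) : ℝ) := by exact_mod_cast (by omega : 1 ≤ Nat.log 2 y + 1)
          nlinarith
        simp only [zero_add] at h2
        have h7 : 0 ≤ W₁ * √((y : ℝ) / x) := mul_nonneg hW₁ hsq0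
        linarith
      · have h4 := ih (y / 2) (by omega) (by omega)
        have h5 : Nat.log 2 y = Nat.log 2 (y / 2) + 1 := by
          rw [Nat.log_div_base, Nat.sub_add_cancel]
          exact Nat.log_pos (by norm_num) h3
        rw [h5]
        have h6 : √(((y / 2 : ℕ) : ℝ) / x) ≤ 3 / 4 * √((y : ℝ) / x) := by
          have h7 : ((y / 2 : ℕ) : ℝ) ≤ y / 2 := Nat.cast_div_le
          have h8 : (((y / 2 : ℕ) : ℝ) / x) ≤ (3 / 4) ^ 2 * ((y : ℝ) / x) := by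
            rw [← mul_div_assoc]
            apply div_le_div_of_nonneg_right _ hx0.le
            have : (0 : ℝ) ≤ y := Nat.cast_nonneg _
            nlinarith
          refine (Real.sqrt_le_sqrt h8).trans ?_
          rw [Real.sqrt_mul (by positivity), Real.sqrt_sq (by norm_num)]
        have h9 : W₁ * √(((y / 2 : ℕ) : ℝ) / x) ≤ W₁ * (3 / 4 * √((y : ℝ) / x)) := mul_le_mul_of_nonneg_left h6 hW₁
        push_cast at h4 h9 ⊢
        linarith
    · have h2 : ‖∑ n ∈ Icc 1 y, g n‖ ≤ y := by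
        refine (norm_sum_le _ _).trans ?_
        calc ∑ n ∈ Icc 1 y, ‖g n‖ ≤ ∑ _n ∈ Icc 1 y, (1 : ℝ) := sum_le_sum fun n _ => hg n
          _ = y := by simp
      have h3 : (y : ℝ) ≤ z := by exact_mod_cast h1
      have h4 : 0 ≤ ((Nat.log 2 y + 1 : ℕ) : ℝ) * W₂ := by positivity
      have h7 : 0 ≤ W₁ * √((y : ℝ) / x) := mul_nonneg hW₁ hsq0
      linarith

/-- the bound for the complete sum, without logarithms -/
theorem SV.full' (h : SV c φ) : ∃ r : ℕ, 1 ≤ r ∧ ∃ σ : ℝ, 0 < σ ∧ σ ≤ 1 / 4 ∧ ∃ C : ℝ, 0 < C ∧ ∀ᶠ x : ℕ in atTop,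
    ∀ θ : ℝ, 0 < θ → θ ≤ (x : ℝ) ^ ((1 : ℝ) / 8) →
    ‖∑ n ∈ Icc 1 x, e (θ * φ 0 n)‖ ≤ C * (x * (θ * φ 0 x) ^ (-(1 / (r : ℝ))) + (x : ℝ) ^ (1 - σ)) := by
  obtain ⟨b, C₁, hb, hC₁, hkl⟩ := h.kl
  obtain ⟨t₁, ht1, hup⟩ := h.up 1 one_pos
  obtain ⟨K, hK⟩ := exists_nat_ge (c + 3)
  obtain ⟨σ₀, hσ₀, hps⟩ := h.psave_all b K
  obtain ⟨r, hr⟩ := exists_nat_ge (2 * (c + 1))
  have hcpos := h.pos
  have hr1 : 1 ≤ r := by
    have : (1 : ℝ) ≤ r := by linarith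
    exact_mod_cast this
  have hr0 : (1 : ℝ) ≤ r := by exact_mod_cast hr1
  obtain ⟨σ, hσ⟩ : ∃ σ, σ = min σ₀ (1 / 2) := ⟨_, rfl⟩
  have hσ0 : 0 < σ := by rw [hσ]; exact lt_min hσ₀ (by norm_num)
  have hσh : σ ≤ 1 / 2 := by rw [hσ]; exact min_le_right _ _
  have hσσ : σ ≤ σ₀ := by rw [hσ]; exact min_le_left _ _
  refine ⟨r, hr1, σ / 2, by linarith, by linarith, 4 * (C₁ + 1) + 2, by positivity, ?_⟩
  obtain ⟨N1, hN1⟩ := eventually_atTop.mp hkl
  obtain ⟨N2, hN2⟩ := eventually_atTop.mp hps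
  obtain ⟨N3, hN3⟩ := eventually_atTop.mp ((tendsto_natCast_atTop_atTop (R := ℝ)).eventually h.poly_up)
  obtain ⟨N4, hN4⟩ := exists_nat_ge t₁
  obtain ⟨N5, hN5⟩ := eventually_atTop.mp ((tendsto_natCast_atTop_atTop (R := ℝ)).eventually
    (log_pow_ev 1 (3 * (C₁ + 2)) (σ / 2) (by positivity) (by linarith)))
  obtain ⟨M, hM⟩ : ∃ M, M = N1 + N2 + N3 + N4 + 2 := ⟨_, rfl⟩
  filter_upwards [eventually_ge_atTop (M ^ 2 + 3 + N5)] with x hx θ hθ hθx
  have hxr : ((M : ℝ)) ^ 2 + 3 ≤ x := by exact_mod_cast (by omega : M ^ 2 + 3 ≤ x)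
  have hx0 : (0 : ℝ) < x := by nlinarith [sq_nonneg (M : ℝ)]
  have hx1 : (1 : ℝ) ≤ x := by nlinarith [sq_nonneg (M : ℝ)]
  have hxn : 1 ≤ x := by exact_mod_cast hx1
  obtain ⟨z, hz⟩ : ∃ z, z = ⌊(x : ℝ) ^ ((1 : ℝ) / 2)⌋₊ := ⟨_, rfl⟩
  have hzle : (z : ℝ) ≤ (x : ℝ) ^ ((1 : ℝ) / 2) := by
    rw [hz]; exact Nat.floor_le (by positivity)
  have hMz : M ≤ z := by
    rw [hz]
    apply Nat.le_floor
    rw [← Real.sqrt_eq_rpow]
    apply Real.le_sqrt_of_sq_le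
    linarith
  have hfx : 0 < φ 0 x := (hup x x (by
    have : ((N4 : ℕ) : ℝ) ≤ x := by
      have q : N4 ≤ x := by nlinarith [Nat.zero_le M]
      exact_mod_cast q
    linarith) le_rfl).1
  set T : ℝ := θ * φ 0 x with hT
  have hT0 : 0 < T := mul_pos hθ hfx
  have hTr0 : 0 < T ^ (-(1 / (r : ℝ))) := Real.rpow_pos_of_pos hT0 _
  set W₁ : ℝ := (C₁ + 1) * (x * T ^ (-(1 / (r : ℝ)))) with hW₁
  set W₂ : ℝ := (C₁ + 1) + (x : ℝ) ^ (1 - σ) with hW₂
  have hxσ0 : 0 < (x : ℝ) ^ (1 - σ) := by positivity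
  have hW₁0 : 0 ≤ W₁ := by positivity
  have hW₂0 : 0 ≤ W₂ := by positivity
  have hblk : ∀ y, z < y → y ≤ x → ‖∑ n ∈ range (y - y / 2), e (θ * φ 0 ((y / 2 + 1 + n : ℕ) : ℝ))‖ ≤
      W₁ * √((y : ℝ) / x) + W₂ := by
    intro y hzy hyx
    have hyM : M ≤ y := by omega
    have hy1 : 1 ≤ y := by omega
    have hyr : (1 : ℝ) ≤ y := by exact_mod_cast hy1
    have hy0 : (0 : ℝ) < y := by linarith
    have hyxr : (y : ℝ) ≤ x := by exact_mod_cast hyx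
    have ht1y : t₁ ≤ y := by
      have : (N4 : ℝ) ≤ y := by exact_mod_cast (by omega : N4 ≤ y)
      linarith
    obtain ⟨hfy, hcomp⟩ := hup y x ht1y hyxr
    have hTy0 : 0 < θ * φ 0 y := mul_pos hθ hfy
    have hcast : ∀ n : ℕ, ((y / 2 + 1 + n : ℕ) : ℝ) = ((y / 2 + 1 : ℕ) : ℝ) + (n : ℝ) := fun n => by push_cast; ring
    simp only [hcast]
    have hu : (y : ℝ) / 2 ≤ ((y / 2 + 1 : ℕ) : ℝ) := by
      have : y ≤ 2 * (y / 2 + 1) := by omega
      have h2 : (y : ℝ) ≤ 2 * ((y / 2 + 1 : ℕ) : ℝ) := by exact_mod_cast this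
      linarith
    have hx12 : (x : ℝ) ^ ((1 : ℝ) / 2) ≤ y := by
      have h2 : (x : ℝ) ^ ((1 : ℝ) / 2) < z + 1 := by rw [hz]; exact Nat.lt_floor_add_one _
      have h3 : ((z : ℝ)) + 1 ≤ y := by exact_mod_cast hzy
      linarith
    have hsq0 : 0 ≤ √((y : ℝ) / x) := Real.sqrt_nonneg _
    have hW1s : 0 ≤ W₁ * √((y : ℝ) / x) := mul_nonneg hW₁0 hsq0
    rcases le_total (y : ℝ) (b * (θ * φ 0 y)) with hc | hc
    · have h1 := hN2 y (by omega) θ hθ hc (by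
        have h2 := hN3 y (by omega)
        have h3 : θ ≤ (y : ℝ) ^ ((1 : ℝ) / 4) := by
          refine hθx.trans ?_
          calc (x : ℝ) ^ ((1 : ℝ) / 8) = ((x : ℝ) ^ ((1 : ℝ) / 2)) ^ ((1 : ℝ) / 4) := by
                rw [← Real.rpow_mul hx0.le]
                norm_num
            _ ≤ (y : ℝ) ^ ((1 : ℝ) / 4) := Real.rpow_le_rpow (by positivity) hx12 (by norm_num)
        calc θ * φ 0 y ≤ (y : ℝ) ^ ((1 : ℝ) / 4) * (y : ℝ) ^ (c + 2) := mul_le_mul h3 h2 hfy.le (by positivity)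
          _ = (y : ℝ) ^ (1 / 4 + (c + 2)) := by rw [← Real.rpow_add hy0]
          _ ≤ (y : ℝ) ^ (K : ℝ) := Real.rpow_le_rpow_of_exponent_le hyr (by linarith)
          _ = (y : ℝ) ^ K := Real.rpow_natCast _ _) (y / 2 + 1) (y - y / 2) hu (by omega) (by omega)
      refine h1.trans ?_
      have h2 : (y : ℝ) ^ (1 - σ₀) ≤ (x : ℝ) ^ (1 - σ) := by
        calc (y : ℝ) ^ (1 - σ₀) ≤ (y : ℝ) ^ (1 - σ) := Real.rpow_le_rpow_of_exponent_le hyr (by linarith)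
          _ ≤ (x : ℝ) ^ (1 - σ) := Real.rpow_le_rpow hy0.le hyxr (by linarith)
      linarith
    · have h1 := hN1 y (by omega) θ hθ hc (y / 2 + 1) (y - y / 2) hu (by omega) (by omega)
      have h2 : ‖∑ n ∈ range (y - y / 2), e (θ * φ 0 (((y / 2 + 1 : ℕ) : ℝ) + (n : ℝ)))‖ ≤ y := by
        refine (norm_sum_le _ _).trans ?_
        simp only [norm_e, sum_const, card_range, nsmul_eq_mul, mul_one]
        exact_mod_cast (by omega : y - y / 2 ≤ y)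
      -- comparison of the total phases
      have h3 : y * (θ * φ 0 y) ^ (-(1 / (r : ℝ))) ≤ x * T ^ (-(1 / (r : ℝ))) * √((y : ℝ) / x) := by
        have hxy1 : 1 ≤ (x : ℝ) / y := by
          rw [le_div_iff₀ hy0]
          linarith
        have h4 : T ≤ (θ * φ 0 y) * ((x : ℝ) / y) ^ ((r : ℝ) / 2) := by
          have h5 : φ 0 x ≤ φ 0 y * ((x : ℝ) / y) ^ ((r : ℝ) / 2) := by
            refine hcomp.trans ?_
            apply mul_le_mul_of_nonneg_left _ hfy.le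
            exact Real.rpow_le_rpow_of_exponent_le hxy1 (by linarith)
          rw [hT]
          calc θ * φ 0 x ≤ θ * (φ 0 y * ((x : ℝ) / y) ^ ((r : ℝ) / 2)) := mul_le_mul_of_nonneg_left h5 hθ.le
            _ = _ := by ring
        have h6 : T ^ (1 / (r : ℝ)) ≤ (θ * φ 0 y) ^ (1 / (r : ℝ)) * √((x : ℝ) / y) := by
          calc T ^ (1 / (r : ℝ)) ≤ ((θ * φ 0 y) * ((x : ℝ) / y) ^ ((r : ℝ) / 2)) ^ (1 / (r : ℝ)) :=
                Real.rpow_le_rpow hT0.le h4 (by positivity)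
            _ = (θ * φ 0 y) ^ (1 / (r : ℝ)) * √((x : ℝ) / y) := by
                rw [Real.mul_rpow hTy0.le (by positivity), ← Real.rpow_mul (by positivity), Real.sqrt_eq_rpow]
                congr 2
                field_simp
        have h7 : √((x : ℝ) / y) * √((y : ℝ) / x) = 1 := by
          rw [← Real.sqrt_mul (by positivity), div_mul_div_cancel₀ hy0.ne', div_self hx0.ne', Real.sqrt_one]
        have h8 : (y : ℝ) = x * √((y : ℝ) / x) * √((y : ℝ) / x) := by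
          rw [mul_assoc, Real.mul_self_sqrt (by positivity)]
          field_simp
        have hp1 := Real.rpow_pos_of_pos hTy0 (1 / (r : ℝ))
        have hp2 := Real.rpow_pos_of_pos hT0 (1 / (r : ℝ))
        rw [Real.rpow_neg hTy0.le, Real.rpow_neg hT0.le, ← div_eq_mul_inv, mul_assoc, mul_comm _ (√((y : ℝ) / x)),
          ← mul_assoc, ← div_eq_mul_inv, div_le_div_iff₀ hp1 hp2]
        calc (y : ℝ) * T ^ (1 / (r : ℝ)) ≤ y * ((θ * φ 0 y) ^ (1 / (r : ℝ)) * √((x : ℝ) / y)) :=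
              mul_le_mul_of_nonneg_left h6 hy0.le
          _ = x * √((y : ℝ) / x) * √((y : ℝ) / x) * ((θ * φ 0 y) ^ (1 / (r : ℝ)) * √((x : ℝ) / y)) := by rw [← h8]
          _ = x * √((y : ℝ) / x) * (θ * φ 0 y) ^ (1 / (r : ℝ)) * (√((x : ℝ) / y) * √((y : ℝ) / x)) := by ring
          _ = _ := by rw [h7, mul_one]
      have h7 : ‖∑ n ∈ range (y - y / 2), e (θ * φ 0 (((y / 2 + 1 : ℕ) : ℝ) + (n : ℝ)))‖ ≤
          (C₁ + 1) * (x * T ^ (-(1 / (r : ℝ))) * √((y : ℝ) / x)) + (C₁ + 1) := by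
        have q : 0 ≤ x * T ^ (-(1 / (r : ℝ))) * √((y : ℝ) / x) := by positivity
        rcases le_total (θ * φ 0 y) 1 with h8 | h8
        · have h9 : 1 ≤ (θ * φ 0 y) ^ (-(1 / (r : ℝ))) := by
            apply Real.one_le_rpow_of_pos_of_le_one_of_nonpos hTy0 h8
            have : 0 < 1 / (r : ℝ) := by positivity
            linarith
          calc _ ≤ (y : ℝ) := h2
            _ ≤ y * (θ * φ 0 y) ^ (-(1 / (r : ℝ))) := le_mul_of_one_le_right hy0.le h9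
            _ ≤ x * T ^ (-(1 / (r : ℝ))) * √((y : ℝ) / x) := h3
            _ ≤ (C₁ + 1) * (x * T ^ (-(1 / (r : ℝ))) * √((y : ℝ) / x)) := le_mul_of_one_le_left q (by linarith)
            _ ≤ _ := by linarith
        · have h9 := min_rpow (θ * φ 0 y) r hr1 h8
          refine h1.trans ?_
          have h10 : (y : ℝ) / (θ * φ 0 y) ≤ x * T ^ (-(1 / (r : ℝ))) * √((y : ℝ) / x) := by
            refine le_trans ?_ h3
            rw [div_eq_mul_one_div]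
            exact mul_le_mul_of_nonneg_left h9 hy0.le
          have h11 : C₁ * (y / (θ * φ 0 y)) ≤ C₁ * (x * T ^ (-(1 / (r : ℝ))) * √((y : ℝ) / x)) :=
            mul_le_mul_of_nonneg_left h10 hC₁.le
          calc C₁ * (1 + y / (θ * φ 0 y)) = C₁ + C₁ * (y / (θ * φ 0 y)) := by ring
            _ ≤ C₁ + C₁ * (x * T ^ (-(1 / (r : ℝ))) * √((y : ℝ) / x)) := by linarith
            _ ≤ _ := by linarith
      rw [hW₁, hW₂]
      have e1 : (C₁ + 1) * (x * T ^ (-(1 / (r : ℝ)))) * √((y : ℝ) / x) =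
        (C₁ + 1) * (x * T ^ (-(1 / (r : ℝ))) * √((y : ℝ) / x)) := by ring
      rw [e1]
      linarith
  have hmain := dyadic' (fun n => e (θ * φ 0 n)) (fun n => (norm_e _).le) x z hxn W₁ W₂ hW₁0 hW₂0 hblk x le_rfl
  refine hmain.trans ?_
  rw [div_self hx0.ne', Real.sqrt_one, mul_one]
  -- collecting
  have hlogx : 0 ≤ Real.log x := Real.log_nonneg hx1
  have hlog : ((Nat.log 2 x + 1 : ℕ) : ℝ) ≤ 3 * (1 + Real.log x) := by
    have h1 : (Nat.log 2 x : ℝ) ≤ Real.log x / Real.log 2 := by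
      have := Real.natLog_le_logb x 2
      rw [Real.logb] at this
      exact_mod_cast this
    have h2 : Real.log x / Real.log 2 ≤ 3 * Real.log x := by
      rw [div_le_iff₀ (Real.log_pos (by norm_num))]
      have : (1 : ℝ) ≤ 3 * Real.log 2 := by linarith [Real.log_two_gt_d9]
      nlinarith
    push_cast
    linarith
  have h5 := hN5 x (by omega)
  rw [pow_one] at h5
  have h1σ : 1 ≤ (x : ℝ) ^ (1 - σ) := Real.one_le_rpow hx1 (by linarith)
  have hW2b : W₂ ≤ (C₁ + 2) * (x : ℝ) ^ (1 - σ) := by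
    rw [hW₂]
    nlinarith
  have hxs : (x : ℝ) ^ (σ / 2) * (x : ℝ) ^ (1 - σ) = (x : ℝ) ^ (1 - σ / 2) := by
    rw [← Real.rpow_add hx0]
    congr 1
    ring
  have hzz : (z : ℝ) ≤ (x : ℝ) ^ (1 - σ / 2) := by
    refine hzle.trans ?_
    exact Real.rpow_le_rpow_of_exponent_le hx1 (by linarith)
  have hlast : ((Nat.log 2 x + 1 : ℕ) : ℝ) * W₂ ≤ (x : ℝ) ^ (1 - σ / 2) := by
    calc ((Nat.log 2 x + 1 : ℕ) : ℝ) * W₂ ≤ (3 * (1 + Real.log x)) * ((C₁ + 2) * (x : ℝ) ^ (1 - σ)) :=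
          mul_le_mul hlog hW2b hW₂0 (by positivity)
      _ = (3 * (C₁ + 2) * (1 + Real.log x)) * (x : ℝ) ^ (1 - σ) := by ring
      _ ≤ (x : ℝ) ^ (σ / 2) * (x : ℝ) ^ (1 - σ) := mul_le_mul_of_nonneg_right h5 hxσ0.le
      _ = _ := hxs
  have hq0 : 0 ≤ x * T ^ (-(1 / (r : ℝ))) := by positivity
  have hx20 : 0 ≤ (x : ℝ) ^ (1 - σ / 2) := by positivity
  rw [hW₁]
  nlinarith [mul_nonneg hC₁.le hx20, mul_nonneg hC₁.le hq0]

lemma e_sub_le (a b : ℝ) : ‖e a - e b‖ ≤ 7 * |a - b| := by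
  have h1 : e a - e b = e b * (e (a - b) - 1) := by
    rw [mul_sub, mul_one, ← e_add]
    congr 2
    ring
  rw [h1, norm_mul, norm_e, one_mul]
  have h2 := Real.norm_exp_I_mul_ofReal_sub_one_le (x := 2 * Real.pi * (a - b))
  have h3 : e (a - b) = Complex.exp (Complex.I * ((2 * Real.pi * (a - b) : ℝ) : ℂ)) := by
    unfold e
    rw [mul_comm]
  rw [h3]
  refine h2.trans ?_
  rw [Real.norm_eq_abs, abs_mul, abs_of_pos (by positivity)]
  apply mul_le_mul_of_nonneg_right _ (abs_nonneg _)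
  linarith [Real.pi_lt_d2]

/-- The sums over the integer parts, with the exact dependence on the frequency. -/
theorem SV.floor' (h : SV c φ) : ∃ r : ℕ, 1 ≤ r ∧ ∃ σ : ℝ, 0 < σ ∧ σ ≤ 1 / 4 ∧ ∃ C : ℝ, 0 < C ∧ ∀ᶠ x : ℕ in atTop,
    ∀ θ : ℝ, 0 < θ → θ ≤ 1 / 2 →
    ‖∑ n ∈ Icc 1 x, e (θ * ⌊φ 0 n⌋)‖ ≤ C * (x * (θ * φ 0 x) ^ (-(1 / (r : ℝ))) + (x : ℝ) ^ (1 - σ)) := by
  obtain ⟨r, hr, σ₀, hσ₀, hσ₀', C₀, hC₀, hfull⟩ := h.full'
  have hcpos := h.pos
  have hr0 : (0 : ℝ) < r := by exact_mod_cast hr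
  obtain ⟨η, hη⟩ : ∃ η, η = min (c / 4) (1 / 8) := ⟨_, rfl⟩
  have hη0 : 0 < η := by rw [hη]; exact lt_min (by linarith) (by norm_num)
  have hη1 : η ≤ c / 4 := by rw [hη]; exact min_le_left _ _
  have hη2 : η ≤ 1 / 8 := by rw [hη]; exact min_le_right _ _
  obtain ⟨δ, hδ⟩ : ∃ δ, δ = min (c / (2 * r)) σ₀ / 8 := ⟨_, rfl⟩
  have hδ0 : 0 < δ := by
    rw [hδ]
    have : 0 < min (c / (2 * r)) σ₀ := lt_min (by positivity) hσ₀
    linarith
  have hδ1 : 8 * δ ≤ c / (2 * r) := by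
    rw [hδ]
    have := min_le_left (c / (2 * r)) σ₀
    linarith
  have hδ2 : 8 * δ ≤ σ₀ := by
    rw [hδ]
    have := min_le_right (c / (2 * r)) σ₀
    linarith
  refine ⟨r, hr, min δ η, lt_min hδ0 hη0, (min_le_right _ _).trans (by linarith), C₀ + 7 + (2064 * C₀ + 10), by positivity, ?_⟩
  have hev := (tendsto_natCast_atTop_atTop (R := ℝ)).eventually
    ((h.poly_low (c / 4) (by linarith)).and ((const_ev 1025 (1 / 32) (by norm_num)).and (eventually_ge_atTop (1 : ℝ))))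
  filter_upwards [hfull, hev] with x hx hy θ hθ hθ2
  obtain ⟨f1, f2, f3⟩ := hy
  have hx0 : (0 : ℝ) < x := by linarith
  have hxpow : ∀ a b : ℝ, a ≤ b → (x : ℝ) ^ a ≤ (x : ℝ) ^ b := fun a b hab => Real.rpow_le_rpow_of_exponent_le f3 hab
  have hfx : 0 < φ 0 x := lt_of_lt_of_le (by positivity) f1
  obtain ⟨T, hT⟩ : ∃ T, T = θ * φ 0 x := ⟨_, rfl⟩
  have hT0 : 0 < T := by rw [hT]; exact mul_pos hθ hfx
  have hTr : 0 < T ^ (-(1 / (r : ℝ))) := Real.rpow_pos_of_pos hT0 _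
  rw [← hT]
  have hmin1 : (x : ℝ) ^ (1 - δ) ≤ (x : ℝ) ^ (1 - min δ η) := hxpow _ _ (by linarith [min_le_left δ η])
  have hmin2 : (x : ℝ) ^ (1 - η) ≤ (x : ℝ) ^ (1 - min δ η) := hxpow _ _ (by linarith [min_le_right δ η])
  have hxm0 : 0 < (x : ℝ) ^ (1 - min δ η) := by positivity
  have hxT0 : 0 ≤ x * T ^ (-(1 / (r : ℝ))) := by positivity
  have hone : (1 : ℝ) ≤ (x : ℝ) ^ ((1 : ℝ) / 8) := Real.one_le_rpow f3 (by norm_num)
  rcases le_total θ ((x : ℝ) ^ (-η)) with hc | hc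
  · -- small frequencies
    have h1 := hx θ hθ (by linarith)
    rw [← hT] at h1
    have h2 : ‖∑ n ∈ Icc 1 x, e (θ * ⌊φ 0 n⌋) - ∑ n ∈ Icc 1 x, e (θ * φ 0 n)‖ ≤ 7 * (x : ℝ) ^ (1 - η) := by
      rw [← sum_sub_distrib]
      refine (norm_sum_le _ _).trans ?_
      calc ∑ n ∈ Icc 1 x, ‖e (θ * ⌊φ 0 n⌋) - e (θ * φ 0 n)‖ ≤ ∑ _n ∈ Icc 1 x, (7 * (x : ℝ) ^ (-η)) := by
            apply sum_le_sum
            intro n _
            refine (e_sub_le _ _).trans ?_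
            apply mul_le_mul_of_nonneg_left _ (by norm_num)
            rw [← mul_sub, abs_mul, abs_of_pos hθ]
            have h3 : |((⌊φ 0 n⌋ : ℤ) : ℝ) - φ 0 n| ≤ 1 := by
              rw [abs_le]
              constructor
              · linarith [Int.lt_floor_add_one (φ 0 n)]
              · linarith [Int.floor_le (φ 0 n)]
            calc θ * |((⌊φ 0 n⌋ : ℤ) : ℝ) - φ 0 n| ≤ θ * 1 := mul_le_mul_of_nonneg_left h3 hθ.le
              _ ≤ _ := by linarith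
        _ = 7 * (x : ℝ) ^ (1 - η) := by
            rw [sum_const, Nat.card_Icc, Nat.add_sub_cancel, nsmul_eq_mul, sub_eq_add_neg, Real.rpow_add hx0, Real.rpow_one]
            ring
    have h3 : ‖∑ n ∈ Icc 1 x, e (θ * ⌊φ 0 n⌋)‖ ≤
        ‖∑ n ∈ Icc 1 x, e (θ * ⌊φ 0 n⌋) - ∑ n ∈ Icc 1 x, e (θ * φ 0 n)‖ + ‖∑ n ∈ Icc 1 x, e (θ * φ 0 n)‖ := by
      have := norm_add_le (∑ n ∈ Icc 1 x, e (θ * ⌊φ 0 n⌋) - ∑ n ∈ Icc 1 x, e (θ * φ 0 n)) (∑ n ∈ Icc 1 x, e (θ * φ 0 n))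
      rwa [sub_add_cancel] at this
    have h4 : (x : ℝ) ^ (1 - σ₀) ≤ (x : ℝ) ^ (1 - min δ η) := hxpow _ _ (by linarith [min_le_left δ η])
    have h5 := mul_le_mul_of_nonneg_left h4 hC₀.le
    nlinarith [mul_nonneg hC₀.le hxm0.le, mul_nonneg hC₀.le hxT0]
  · -- large frequencies
    have hTlow : (x : ℝ) ^ (c / 2) ≤ T := by
      rw [hT]
      calc (x : ℝ) ^ (c / 2) ≤ (x : ℝ) ^ (-η + (c - c / 4)) := hxpow _ _ (by linarith)
        _ = (x : ℝ) ^ (-η) * (x : ℝ) ^ (c - c / 4) := Real.rpow_add hx0 _ _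
        _ ≤ θ * φ 0 x := mul_le_mul hc f1 (by positivity) hθ.le
    obtain ⟨Q, hQ⟩ : ∃ Q : ℕ, Q = ⌈(x : ℝ) ^ δ⌉₊ := ⟨_, rfl⟩
    have hxδ1 : 1 ≤ (x : ℝ) ^ δ := Real.one_le_rpow f3 hδ0.le
    have hQ1 : (x : ℝ) ^ δ ≤ Q := by rw [hQ]; exact Nat.le_ceil _
    have hQ2 : (Q : ℝ) ≤ 2 * (x : ℝ) ^ δ := by
      have : (Q : ℝ) < (x : ℝ) ^ δ + 1 := by rw [hQ]; exact Nat.ceil_lt_add_one (by positivity)
      linarith
    have hQ0 : (0 : ℝ) < Q := by linarith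
    have hQ3 : 1 ≤ Q := by exact_mod_cast hQ0
    have hQc : (Q : ℝ) ^ 3 ≤ 8 * (x : ℝ) ^ (3 * δ) := by
      calc (Q : ℝ) ^ 3 ≤ (2 * (x : ℝ) ^ δ) ^ 3 := pow_le_pow_left₀ hQ0.le hQ2 3
        _ = 8 * ((x : ℝ) ^ δ) ^ 3 := by ring
        _ = 8 * (x : ℝ) ^ (3 * δ) := by
            rw [← Real.rpow_natCast, ← Real.rpow_mul hx0.le]
            congr 2
            push_cast
            ring
    obtain ⟨E, hE⟩ : ∃ E : ℝ, E = C₀ * (x * T ^ (-(1 / (r : ℝ))) + (x : ℝ) ^ (1 - σ₀)) := ⟨_, rfl⟩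
    have hE0 : 0 ≤ E := by rw [hE]; positivity
    have hEb : E ≤ 2 * C₀ * (x : ℝ) ^ (1 - 8 * δ) := by
      have g1 : T ^ (-(1 / (r : ℝ))) ≤ (x : ℝ) ^ (-(8 * δ)) := by
        calc T ^ (-(1 / (r : ℝ))) ≤ ((x : ℝ) ^ (c / 2)) ^ (-(1 / (r : ℝ))) := by
              apply Real.rpow_le_rpow_of_nonpos (by positivity) hTlow
              have : 0 < 1 / (r : ℝ) := by positivity
              linarith
          _ = (x : ℝ) ^ (-(c / (2 * r))) := by
              rw [← Real.rpow_mul hx0.le]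
              congr 1
              field_simp
          _ ≤ _ := hxpow _ _ (by linarith)
      have g2 : x * T ^ (-(1 / (r : ℝ))) ≤ (x : ℝ) ^ (1 - 8 * δ) := by
        calc x * T ^ (-(1 / (r : ℝ))) ≤ x * (x : ℝ) ^ (-(8 * δ)) := mul_le_mul_of_nonneg_left g1 hx0.le
          _ = _ := by rw [sub_eq_add_neg, Real.rpow_add hx0, Real.rpow_one]
      have g3 : (x : ℝ) ^ (1 - σ₀) ≤ (x : ℝ) ^ (1 - 8 * δ) := hxpow _ _ (by linarith)
      rw [hE]
      calc C₀ * (x * T ^ (-(1 / (r : ℝ))) + (x : ℝ) ^ (1 - σ₀)) ≤ C₀ * ((x : ℝ) ^ (1 - 8 * δ) + (x : ℝ) ^ (1 - 8 * δ)) :=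
            mul_le_mul_of_nonneg_left (add_le_add g2 g3) hC₀.le
        _ = _ := by ring
    have hfreq : ∀ t : ℝ, θ ≤ |t| → |t| ≤ (x : ℝ) ^ ((1 : ℝ) / 8) → ‖∑ n ∈ Icc 1 x, e (t * φ 0 n)‖ ≤ E := by
      intro t h1 h2
      have h3 : ‖∑ n ∈ Icc 1 x, e (t * φ 0 n)‖ = ‖∑ n ∈ Icc 1 x, e (|t| * φ 0 n)‖ := by
        rcases abs_choice t with h4 | h4
        · rw [h4]
        · rw [h4, norm_neg_sum]
      rw [h3]
      refine (hx |t| (by linarith) h2).trans ?_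
      rw [hE]
      apply mul_le_mul_of_nonneg_left _ hC₀.le
      have h4 : (|t| * φ 0 x) ^ (-(1 / (r : ℝ))) ≤ T ^ (-(1 / (r : ℝ))) := by
        apply Real.rpow_le_rpow_of_nonpos hT0
        · rw [hT]
          exact mul_le_mul_of_nonneg_right h1 hfx.le
        · have : 0 < 1 / (r : ℝ) := by positivity
          linarith
      have := mul_le_mul_of_nonneg_left h4 hx0.le
      linarith
    have hMx : ∀ m : ℤ, |m| < (128 * Q ^ 3 : ℕ) → |(m : ℝ)| + 1 ≤ (x : ℝ) ^ ((1 : ℝ) / 8) := by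
      intro m hm
      have h1 : |(m : ℝ)| < 128 * (Q : ℝ) ^ 3 := by exact_mod_cast hm
      have h2 : (x : ℝ) ^ (3 * δ) ≤ (x : ℝ) ^ ((3 : ℝ) / 32) := hxpow _ _ (by linarith)
      have h3 : 1 ≤ (x : ℝ) ^ ((3 : ℝ) / 32) := Real.one_le_rpow f3 (by norm_num)
      have h4 : 1025 * (x : ℝ) ^ ((3 : ℝ) / 32) ≤ (x : ℝ) ^ ((1 : ℝ) / 8) := by
        calc 1025 * (x : ℝ) ^ ((3 : ℝ) / 32) ≤ (x : ℝ) ^ ((1 : ℝ) / 32) * (x : ℝ) ^ ((3 : ℝ) / 32) :=
              mul_le_mul_of_nonneg_right f2 (by positivity)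
          _ = _ := by
              rw [← Real.rpow_add hx0]
              norm_num
      linarith
    have hmain := floor_sum (Icc 1 x) (fun n => φ 0 n) Q hQ3 θ (by rw [abs_of_pos hθ]; linarith) E hE0
      (fun m hm => by
        have h1 := hMx m hm
        have h2 : |θ + m| ≤ |(m : ℝ)| + 1 := by
          refine (abs_add_le _ _).trans ?_
          rw [abs_of_pos hθ]
          linarith
        refine hfreq (θ + m) ?_ (h2.trans h1)
        rcases le_or_gt 0 m with h3 | h3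
        · have h4 : (0 : ℝ) ≤ m := by exact_mod_cast h3
          rw [abs_of_nonneg (by linarith)]
          linarith
        · have h4 : (m : ℝ) ≤ -1 := by exact_mod_cast (by omega : m ≤ -1)
          rw [abs_of_nonpos (by linarith)]
          linarith)
      (fun m hm0 hm => by
        have h5 : |m| < ((128 * Q ^ 3 : ℕ) : ℤ) := by
          refine lt_of_lt_of_le hm ?_
          have : Q ≤ 128 * Q ^ 3 := by
            calc Q = 1 * Q ^ 1 := by ring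
              _ ≤ 128 * Q ^ 3 := Nat.mul_le_mul (by norm_num) (Nat.pow_le_pow_right hQ3 (by norm_num))
          exact_mod_cast this
        have h1 := hMx m h5
        refine hfreq m ?_ (by linarith)
        have h6 : (1 : ℝ) ≤ |(m : ℝ)| := by
          have : 1 ≤ |m| := Int.one_le_abs hm0
          exact_mod_cast this
        linarith)
    refine hmain.trans ?_
    rw [Nat.card_Icc, Nat.add_sub_cancel]
    have hp2 : 10 * ((x : ℝ) / Q) ≤ 10 * (x : ℝ) ^ (1 - δ) := by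
      apply mul_le_mul_of_nonneg_left _ (by norm_num)
      rw [Real.rpow_sub hx0, Real.rpow_one]
      exact div_le_div_of_nonneg_left hx0.le (by positivity) hQ1
    have hx3δ : 1 ≤ (x : ℝ) ^ (3 * δ) := Real.one_le_rpow f3 (by linarith)
    have hp1 : (128 * (Q : ℝ) ^ 3 + 8) * E ≤ 2064 * C₀ * (x : ℝ) ^ (1 - δ) := by
      calc (128 * (Q : ℝ) ^ 3 + 8) * E ≤ (1032 * (x : ℝ) ^ (3 * δ)) * (2 * C₀ * (x : ℝ) ^ (1 - 8 * δ)) := by
            apply mul_le_mul _ hEb hE0 (by positivity)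
            linarith
        _ = 2064 * C₀ * ((x : ℝ) ^ (3 * δ) * (x : ℝ) ^ (1 - 8 * δ)) := by ring
        _ = 2064 * C₀ * (x : ℝ) ^ (1 - 5 * δ) := by
            rw [← Real.rpow_add hx0]
            congr 2
            ring
        _ ≤ _ := by
            apply mul_le_mul_of_nonneg_left _ (by positivity)
            exact hxpow _ _ (by linarith)
    have h5 := mul_le_mul_of_nonneg_left hmin1 (by positivity : (0 : ℝ) ≤ 2064 * C₀ + 10)
    nlinarith [mul_nonneg hC₀.le hxm0.le, mul_nonneg hC₀.le hxT0]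

end Pool.Agent.N193.PS
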