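import Pool.Agent.N193.PS.Conv

set_option autoImplicit false

/-!
The values `⌊f n⌋` as residues: averages with absolute values over the moduli.
-/

namespace Pool.Agent.N193.PS

open Finset Filter Topology
open Pool.Agent.W93.AU (Law)
open Pool.Agent.N625.DY (Err val_bd')

variable {c : ℝ} {φ : ℕ → ℝ → ℝ}

lemma neg_big (N : ℕ) (hN : 1 ≤ N) (K : ℕ) (hK : N ≤ 2 ^ K) (ε : ℝ) (hε1 : ε < 1) :
    ((⌊(N : ℝ) ^ (1 - ε)⌋₊ : ℕ) : ℝ) ≤ ((2 ^ K : ℕ) : ℝ) ^ (1 - ε) := by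
  have hN0 : (0 : ℝ) < N := by exact_mod_cast hN
  refine (Nat.floor_le (by positivity)).trans ?_
  apply Real.rpow_le_rpow hN0.le (by exact_mod_cast hK) (by linarith)

/-- averages with absolute values over the moduli -/
theorem SV.eh (h : SV c φ) (κ : ℤ) (hκ : κ ≠ 0) (B T U A : ℕ) (ε : ℝ) (hε : 0 < ε) (hε1 : ε < 1) :
    ∃ N₀ : ℕ, ∀ N : ℕ, N₀ ≤ N → ∀ x : ℕ, (∀ n ∈ Icc 1 x, φ 0 n ≤ N) → (N : ℝ) ≤ Real.log N ^ A * φ 0 x →
    ∀ c₀ : ℤ, |c₀| ≤ B * N → ∀ w : ℕ → ℝ, (∀ n, |w n| ≤ Real.log N ^ T) → ∀ X : ℕ → ℕ, (∀ q, X q ≤ B * N) →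
    ∑ q ∈ Icc 1 ⌊(N : ℝ) ^ (1 - ε)⌋₊,
      |∑ n ∈ (Icc 1 x).filter (fun n => 0 < c₀ + κ * (val φ n : ℕ) ∧ (c₀ + κ * (val φ n : ℕ)).toNat.Coprime q),
        w n * Err (X q) q (c₀ + κ * (val φ n : ℕ)).toNat| ≤ x * (N / Real.log N ^ U) := by
  have hF : 1 ≤ κ.natAbs := Int.natAbs_pos.2 hκ
  obtain ⟨e, he⟩ : ∃ e, e = B + κ.natAbs := ⟨_, rfl⟩
  obtain ⟨V, hV⟩ := Pool.Agent.TH872.An.av_law 2 κ.natAbs le_rfl hF ε hε T (U + 2)
  obtain ⟨D, K1, hD⟩ := h.law' (A + 1) κ (e + 1) V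
  obtain ⟨K₀, hK₀⟩ := hV D
  refine ⟨2 ^ (K₀ + K1 + 2 ^ (e + 1)) + 4, fun N hN x hup hlow c₀ hc₀ w hw X hX => ?_⟩
  rcases Nat.eq_zero_or_pos x with rfl | hx
  · simp
  have hpw : 0 < 2 ^ (K₀ + K1 + 2 ^ (e + 1)) := by positivity
  have hpe : 0 < 2 ^ (e + 1) := by positivity
  have hN4 : 4 ≤ N := by omega
  obtain ⟨k, hk⟩ : ∃ k, k = dg N := ⟨_, rfl⟩
  have hNk : N < 2 ^ k := by rw [hk]; exact lt_dg N
  have hkbig : K₀ + K1 + 2 ^ (e + 1) ≤ k := by rw [hk]; exact dg_large _ N (by omega)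
  obtain ⟨hval, hsize⟩ := conv φ A N x hN4 hup hlow
  rw [← hk] at hval hsize
  have hx0 : (0 : ℝ) < x := by exact_mod_cast hx
  have hlogk : Real.log N ≤ k := by rw [hk]; exact log_le_dg N (by omega)
  have hlog0 : 0 ≤ Real.log N := Real.log_natCast_nonneg N
  obtain ⟨K, hK⟩ : ∃ K, K = k + (e + 1) := ⟨_, rfl⟩
  have hK1 : K - 1 = k + e := by omega
  have hkK : (k : ℝ) ≤ K := by exact_mod_cast (by omega : k ≤ K)
  have hlaw := lawN 2 κ.natAbs D V K (2 ^ k) x hx hval c₀ κ (hD K (by omega) k (e + 1) hK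
    (Nat.le_mul_of_pos_right _ (by omega)) _ ⟨x, hx, hval, hsize, fun v => rfl⟩ c₀)
  have hc₀' : |c₀| ≤ B * (2 : ℤ) ^ k := by
    refine hc₀.trans (mul_le_mul_of_nonneg_left ?_ (Nat.cast_nonneg _))
    exact_mod_cast hNk.le
  have key := hK₀ K (by omega) ℕ (Icc 1 x) (fun _ => 1 / (x : ℝ)) (fun n => c₀ + κ * (val φ n : ℕ)) hlaw (by
      intro n hn
      have h1 := val_bd' (b := 2) le_rfl B κ k c₀ hc₀' (val φ n) (hval n hn)
      rw [← he, abs_le] at h1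
      have h2 : (2 : ℤ) ^ (k + e) < (((2 : ℕ) ^ K : ℕ) : ℤ) := by
        push_cast
        exact pow_lt_pow_right₀ (by norm_num) (by omega)
      rw [hK1]
      push_cast
      push_cast at h1 h2
      exact ⟨by linarith [h1.1], h1.2⟩)
    w (fun n => (hw n).trans (pow_le_pow_left₀ hlog0 (hlogk.trans hkK) T)) X (by
      intro q
      refine (hX q).trans ?_
      rw [hK1, pow_add, mul_comm]
      apply Nat.mul_le_mul hNk.le
      calc B ≤ e := by omega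
        _ ≤ 2 ^ e := (Nat.lt_pow_self (by norm_num)).le)
    ⌊(N : ℝ) ^ (1 - ε)⌋₊ (neg_big N (by omega) K (hNk.le.trans (Nat.pow_le_pow_right (by norm_num) (by omega))) ε hε1)
  have h3 : ∀ q, |∑ n ∈ (Icc 1 x).filter (fun n => 0 < c₀ + κ * (val φ n : ℕ) ∧ (c₀ + κ * (val φ n : ℕ)).toNat.Coprime q),
        1 / (x : ℝ) * (w n * Err (X q) q (c₀ + κ * (val φ n : ℕ)).toNat)| =
      |∑ n ∈ (Icc 1 x).filter (fun n => 0 < c₀ + κ * (val φ n : ℕ) ∧ (c₀ + κ * (val φ n : ℕ)).toNat.Coprime q),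
        w n * Err (X q) q (c₀ + κ * (val φ n : ℕ)).toNat| / x := by
    intro q
    rw [← mul_sum, abs_mul, abs_of_pos (by positivity), one_div, inv_mul_eq_div]
  have key2 : ∑ q ∈ Icc 1 ⌊(N : ℝ) ^ (1 - ε)⌋₊,
      |∑ n ∈ (Icc 1 x).filter (fun n => 0 < c₀ + κ * (val φ n : ℕ) ∧ (c₀ + κ * (val φ n : ℕ)).toNat.Coprime q),
        1 / (x : ℝ) * (w n * Err (X q) q (c₀ + κ * (val φ n : ℕ)).toNat)| ≤ (((2 : ℕ) ^ K : ℕ) : ℝ) / (K : ℝ) ^ (U + 2) := by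
    refine le_trans (le_of_eq ?_) key
    apply sum_congr rfl
    intro q _
    congr 1
  simp only [h3] at key2
  rw [← sum_div, div_le_iff₀ hx0, mul_comm] at key2
  refine key2.trans (mul_le_mul_of_nonneg_left ?_ hx0.le)
  -- the sizes
  have h4 : (((2 : ℕ) ^ K : ℕ) : ℝ) / (K : ℝ) ^ (U + 2) ≤ ((2 ^ k : ℕ) : ℝ) / (k : ℝ) ^ (U + 1) := by
    have hk1 : (1 : ℝ) ≤ k := by
      have : 1 ≤ k := by
        have : 0 < 2 ^ (e + 1) := by positivity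
        omega
      exact_mod_cast this
    have hK0 : (0 : ℝ) < K := by linarith
    rw [div_le_div_iff₀ (by positivity) (by positivity)]
    have e1 : (2 : ℝ) ^ (e + 1) ≤ K := by
      have : 2 ^ (e + 1) ≤ K := by omega
      exact_mod_cast this
    rw [hK, pow_add, ← hK]
    push_cast
    calc (2 : ℝ) ^ k * 2 ^ (e + 1) * (k : ℝ) ^ (U + 1) ≤ 2 ^ k * K * (K : ℝ) ^ (U + 1) := by
          apply mul_le_mul _ (pow_le_pow_left₀ (by linarith) hkK _) (by positivity) (by positivity)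
          exact mul_le_mul_of_nonneg_left e1 (by positivity)
      _ = 2 ^ k * (K : ℝ) ^ (U + 2) := by rw [pow_succ _ (U + 1)]; ring
  refine h4.trans ?_
  rw [hk]
  exact scale N U hN4

end Pool.Agent.N193.PS
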