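import Pool.Agent.N193.PS.Dec2
import Pool.Agent.TH823.Fam.Fam2

set_option autoImplicit false

/-!
The additive energy of the values of smoothly varying functions of a non-integral index.
-/

namespace Pool.Agent.N193.PS

open Finset Filter Topology
open Pool.Agent.H469R2.NK (e norm_e e_add conj_e)
open Pool.Agent.H807R2.Dav (ee norm_ee ee_add)
open Pool.Agent.H373R2.T7 (energy energy_le)

variable {c : ℝ} {φ : ℕ → ℝ → ℝ}

lemma sum_inv_sq (n : ℕ) (hn : 1 ≤ n) : ∑ t ∈ Icc 1 n, 1 / (t : ℝ) ^ 2 ≤ 2 - 1 / (n : ℝ) := by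
  induction n, hn using Nat.le_induction with
  | base => norm_num
  | succ n hn ih =>
    rw [sum_Icc_succ_top (by omega)]
    have hn0 : (0 : ℝ) < n := by exact_mod_cast hn
    have h1 : 1 / ((n + 1 : ℕ) : ℝ) ^ 2 ≤ 1 / (n : ℝ) - 1 / ((n + 1 : ℕ) : ℝ) := by
      push_cast
      rw [div_sub_div _ _ (by positivity) (by positivity), div_le_div_iff₀ (by positivity) (by positivity)]
      nlinarith
    linarith

/-- the energy of some order is nearly minimal -/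
theorem SV.energy_low (h : SV c φ) : ∃ p : ℕ, 1 ≤ p ∧ ∃ C : ℝ, 0 < C ∧ ∃ X₀ : ℕ, ∀ x : ℕ, X₀ ≤ x →
    (energy p x (fun n => ⌊φ 0 n⌋) : ℝ) * φ 0 x ≤ C * (x : ℝ) ^ (2 * p) := by
  obtain ⟨r, hr, σ, hσ, hσ', C, hC, hA⟩ := h.floor'
  obtain ⟨k₀, hk₀⟩ := exists_nat_ge ((c + 3) / σ)
  obtain ⟨k, hk⟩ : ∃ k, k = k₀ + 1 := ⟨_, rfl⟩
  have hk1 : 1 ≤ k := by omega
  have hr0 : (0 : ℝ) < r := by exact_mod_cast hr
  have hcpos := h.pos
  obtain ⟨p, hp⟩ : ∃ p, p = r * k := ⟨_, rfl⟩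
  have hp1 : 1 ≤ p := by rw [hp]; exact Nat.one_le_iff_ne_zero.2 (by positivity)
  have hpσ : c + 3 ≤ σ * (2 * p : ℕ) := by
    rw [div_le_iff₀ hσ] at hk₀
    have h1 : (k₀ : ℝ) ≤ (2 * p : ℕ) := by
      have : k₀ ≤ 2 * p := by rw [hp, hk]; nlinarith
      exact_mod_cast this
    nlinarith
  have hev := (tendsto_natCast_atTop_atTop (R := ℝ)).eventually (h.poly_up.and (eventually_ge_atTop (2 : ℝ)))
  have hlow := (tendsto_natCast_atTop_atTop (R := ℝ)).eventually ((h.poly_low (c / 2) (by linarith)))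
  obtain ⟨X₀, hX₀⟩ := eventually_atTop.mp (hA.and (hev.and hlow))
  refine ⟨p, hp1, 1 + (2 * C) ^ (2 * p) * (4 * 4 ^ k + 1), by positivity, X₀, fun x hx => ?_⟩
  obtain ⟨a1, ⟨a2, a3⟩, a4⟩ := hX₀ x hx
  have hx0 : (0 : ℝ) < x := by linarith
  have hφ1 : 1 ≤ φ 0 x := by
    refine le_trans ?_ a4
    exact Real.one_le_rpow (by linarith) (by linarith)
  obtain ⟨M, hM⟩ : ∃ M, M = ⌈φ 0 x⌉₊ := ⟨_, rfl⟩
  have hM1 : φ 0 x ≤ M := by rw [hM]; exact Nat.le_ceil _
  have hM2 : (M : ℝ) ≤ 2 * φ 0 x := by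
    have := Nat.ceil_lt_add_one (show 0 ≤ φ 0 x by linarith)
    rw [← hM] at this
    linarith
  have hMpos : 1 ≤ M := by
    have : (1 : ℝ) ≤ M := hφ1.trans hM1
    exact_mod_cast this
  have hM0 : (0 : ℝ) < M := by exact_mod_cast hMpos
  -- the value at zero
  have hzero : ∀ α : ℝ, ‖∑ n ∈ Icc 1 x, ee (α * ((⌊φ 0 n⌋ : ℤ) : ℝ))‖ ≤ x := by
    intro α
    refine (norm_sum_le _ _).trans ?_
    simp [norm_ee]
  -- the values outside zero
  have hδ : ∀ t ∈ Icc 1 (M - 1), ‖∑ n ∈ Icc 1 x, ee ((t : ℝ) * (((⌊φ 0 n⌋ : ℤ) : ℝ) / M))‖ ^ (2 * p) ≤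
      (2 * C) ^ (2 * p) * ((x : ℝ) ^ (2 * p) * (4 ^ k * (1 / (t : ℝ) ^ 2 + 1 / ((M - t : ℕ) : ℝ) ^ 2)) + x ^ (2 * p) / x ^ (c + 3)) := by
    intro t ht
    rw [mem_Icc] at ht
    obtain ⟨ht1, ht2⟩ := ht
    obtain ⟨u, hu⟩ : ∃ u, u = min t (M - t) := ⟨_, rfl⟩
    have hu1 : 1 ≤ u := by rw [hu]; exact le_min ht1 (by omega)
    have hu2 : 2 * u ≤ M := by rw [hu]; rcases le_total t (M - t) with h5 | h5 <;> [rw [min_eq_left h5]; rw [min_eq_right h5]] <;> omega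
    have hu0 : (0 : ℝ) < u := by exact_mod_cast hu1
    have hθ0 : 0 < (u : ℝ) / M := by positivity
    have hθ1 : (u : ℝ) / M ≤ 1 / 2 := by
      rw [div_le_div_iff₀ hM0 (by norm_num)]
      have : ((2 * u : ℕ) : ℝ) ≤ M := by exact_mod_cast hu2
      push_cast at this
      linarith
    have h1 := a1 ((u : ℝ) / M) hθ0 hθ1
    -- the sum at t equals the sum at ± u
    have h2 : ‖∑ n ∈ Icc 1 x, ee ((t : ℝ) * (((⌊φ 0 n⌋ : ℤ) : ℝ) / M))‖ = ‖∑ n ∈ Icc 1 x, e ((u : ℝ) / M * ⌊φ 0 n⌋)‖ := by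
      rcases le_total t (M - t) with h5 | h5
      · have hut : u = t := by rw [hu, min_eq_left h5]
        rw [hut]
        congr 1
        refine sum_congr rfl fun n _ => ?_
        rw [ee_eq_e]
        congr 1
        ring
      · have hut : u = M - t := by rw [hu, min_eq_right h5]
        have h6 : ∀ n : ℕ, ee ((t : ℝ) * (((⌊φ 0 n⌋ : ℤ) : ℝ) / M)) = e (-((u : ℝ) / M) * ⌊φ 0 n⌋) := by
          intro n
          rw [ee_eq_e]
          have h7 : (u : ℝ) = M - t := by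
            rw [hut, Nat.cast_sub (by omega)]
          have : (t : ℝ) * (((⌊φ 0 n⌋ : ℤ) : ℝ) / M) = -((u : ℝ) / M) * ⌊φ 0 n⌋ + ((⌊φ 0 n⌋ : ℤ) : ℝ) := by
            rw [h7]
            field_simp
            ring
          rw [this, e_add, e_int', mul_one]
        simp only [h6]
        have := norm_neg_sum (Icc 1 x) (fun n => ((⌊φ 0 n⌋ : ℤ) : ℝ)) (-((u : ℝ) / M))
        simpa using this.symm
    rw [h2]
    have hfac : (u : ℝ) / 2 ≤ (u : ℝ) / M * φ 0 x := by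
      rw [div_mul_eq_mul_div, div_le_div_iff₀ (by norm_num) hM0]
      nlinarith
    have h3 : ((u : ℝ) / M * φ 0 x) ^ (-(1 / (r : ℝ))) ≤ ((u : ℝ) / 2) ^ (-(1 / (r : ℝ))) :=
      Real.rpow_le_rpow_of_nonpos (by positivity) hfac (by
        have : 0 ≤ 1 / (r : ℝ) := by positivity
        linarith)
    have h4 : ‖∑ n ∈ Icc 1 x, e ((u : ℝ) / M * ⌊φ 0 n⌋)‖ ≤ 2 * C * max (x * ((u : ℝ) / 2) ^ (-(1 / (r : ℝ)))) ((x : ℝ) ^ (1 - σ)) := by
      refine h1.trans ?_
      have h5 := mul_le_mul_of_nonneg_left h3 hx0.le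
      have h6 := le_max_left (x * ((u : ℝ) / 2) ^ (-(1 / (r : ℝ)))) ((x : ℝ) ^ (1 - σ))
      have h7 := le_max_right (x * ((u : ℝ) / 2) ^ (-(1 / (r : ℝ)))) ((x : ℝ) ^ (1 - σ))
      calc C * (x * ((u : ℝ) / M * φ 0 x) ^ (-(1 / (r : ℝ))) + (x : ℝ) ^ (1 - σ)) ≤
          C * (2 * max (x * ((u : ℝ) / 2) ^ (-(1 / (r : ℝ)))) ((x : ℝ) ^ (1 - σ))) :=
            mul_le_mul_of_nonneg_left (by linarith) hC.le
        _ = _ := by ring
    have h5 : ‖∑ n ∈ Icc 1 x, e ((u : ℝ) / M * ⌊φ 0 n⌋)‖ ^ (2 * p) ≤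
        (2 * C) ^ (2 * p) * ((x * ((u : ℝ) / 2) ^ (-(1 / (r : ℝ)))) ^ (2 * p) + ((x : ℝ) ^ (1 - σ)) ^ (2 * p)) := by
      refine (pow_le_pow_left₀ (norm_nonneg _) h4 _).trans ?_
      rw [mul_pow]
      apply mul_le_mul_of_nonneg_left _ (by positivity)
      rcases le_total (x * ((u : ℝ) / 2) ^ (-(1 / (r : ℝ)))) ((x : ℝ) ^ (1 - σ)) with h6 | h6
      · rw [max_eq_right h6]
        have : 0 ≤ (x * ((u : ℝ) / 2) ^ (-(1 / (r : ℝ)))) ^ (2 * p) := by positivity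
        linarith
      · rw [max_eq_left h6]
        have : 0 ≤ ((x : ℝ) ^ (1 - σ)) ^ (2 * p) := by positivity
        linarith
    refine h5.trans (mul_le_mul_of_nonneg_left ?_ (by positivity))
    apply add_le_add
    · rw [mul_pow]
      apply mul_le_mul_of_nonneg_left _ (by positivity)
      have h6 : (((u : ℝ) / 2) ^ (-(1 / (r : ℝ)))) ^ (2 * p) = (2 / (u : ℝ)) ^ (2 * k) := by
        rw [← Real.rpow_natCast, ← Real.rpow_mul (by positivity), hp]
        have h7 : -(1 / (r : ℝ)) * ((2 * (r * k) : ℕ) : ℝ) = -((2 * k : ℕ) : ℝ) := by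
          push_cast
          field_simp
        rw [h7, Real.rpow_neg (by positivity), Real.rpow_natCast, ← inv_pow, inv_div]
      rw [h6, div_pow, pow_mul, show (2 : ℝ) ^ 2 = 4 by norm_num, div_eq_mul_one_div]
      apply mul_le_mul_of_nonneg_left _ (by positivity)
      have h8 : 1 / (u : ℝ) ^ (2 * k) ≤ 1 / (u : ℝ) ^ 2 := by
        apply one_div_le_one_div_of_le (by positivity)
        exact pow_le_pow_right₀ (by exact_mod_cast hu1) (by omega)
      refine h8.trans ?_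
      rcases le_total t (M - t) with h5 | h5
      · have hut : u = t := by rw [hu, min_eq_left h5]
        rw [hut]
        have : (0 : ℝ) ≤ 1 / ((M - t : ℕ) : ℝ) ^ 2 := by positivity
        linarith
      · have hut : u = M - t := by rw [hu, min_eq_right h5]
        rw [hut]
        have : (0 : ℝ) ≤ 1 / (t : ℝ) ^ 2 := by positivity
        linarith
    · rw [← Real.rpow_natCast, ← Real.rpow_mul hx0.le, le_div_iff₀ (by positivity), ← Real.rpow_add hx0,
        ← Real.rpow_natCast]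
      apply Real.rpow_le_rpow_of_exponent_le (by linarith)
      have : (1 - σ) * ((2 * p : ℕ) : ℝ) + (c + 3) = ((2 * p : ℕ) : ℝ) - (σ * (2 * p : ℕ) - (c + 3)) := by ring
      rw [this]
      linarith
  -- summation
  have hE := energy_le p x (fun n => ⌊φ 0 n⌋) M hMpos
  have hsplit : ∑ t ∈ range M, ‖∑ m ∈ Icc 1 x, ee ((t : ℝ) * (((fun n : ℕ => ⌊φ 0 n⌋) m : ℝ) / M))‖ ^ (2 * p) ≤
      (x : ℝ) ^ (2 * p) + (2 * C) ^ (2 * p) * ((x : ℝ) ^ (2 * p) * (4 ^ k * 4) + x ^ (2 * p)) := by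
    have h1 : range M = insert 0 (Icc 1 (M - 1)) := by
      ext t
      rw [mem_range, mem_insert, mem_Icc]
      omega
    rw [h1, sum_insert (by simp)]
    apply add_le_add
    · have h2 := hzero 0
      have h3 : ‖∑ m ∈ Icc 1 x, ee (((0 : ℕ) : ℝ) * (((fun n : ℕ => ⌊φ 0 n⌋) m : ℝ) / M))‖ =
          ‖∑ n ∈ Icc 1 x, ee (0 * ((⌊φ 0 n⌋ : ℤ) : ℝ))‖ := by
        congr 1
        refine sum_congr rfl fun n _ => ?_
        simp
      rw [h3]
      exact pow_le_pow_left₀ (norm_nonneg _) h2 _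
    · refine (sum_le_sum hδ).trans ?_
      rw [← mul_sum, sum_add_distrib]
      apply mul_le_mul_of_nonneg_left _ (by positivity)
      apply add_le_add
      · rw [← mul_sum]
        apply mul_le_mul_of_nonneg_left _ (by positivity)
        rw [← mul_sum]
        apply mul_le_mul_of_nonneg_left _ (by positivity)
        rw [sum_add_distrib]
        have h2 : ∑ t ∈ Icc 1 (M - 1), 1 / (t : ℝ) ^ 2 ≤ 2 := by
          rcases Nat.eq_zero_or_pos (M - 1) with h3 | h3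
          · rw [h3]; simp
          · have := sum_inv_sq (M - 1) h3
            have h4 : (0 : ℝ) ≤ 1 / ((M - 1 : ℕ) : ℝ) := by positivity
            linarith
        have h3 : ∑ t ∈ Icc 1 (M - 1), 1 / ((M - t : ℕ) : ℝ) ^ 2 = ∑ t ∈ Icc 1 (M - 1), 1 / (t : ℝ) ^ 2 := by
          apply sum_nbij' (fun t => M - t) (fun t => M - t)
          · intro t ht; rw [mem_Icc] at ht ⊢; omega
          · intro t ht; rw [mem_Icc] at ht ⊢; omega
          · intro t ht; rw [mem_Icc] at ht; omega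
          · intro t ht; rw [mem_Icc] at ht; omega
          · intro t _; rfl
        rw [h3]
        linarith
      · rw [sum_const, Nat.card_Icc, nsmul_eq_mul]
        have h2 : ((M - 1 + 1 - 1 : ℕ) : ℝ) ≤ 2 * (x : ℝ) ^ (c + 2) := by
          have : ((M - 1 + 1 - 1 : ℕ) : ℝ) ≤ M := by exact_mod_cast (by omega)
          linarith
        have h3 : 2 * (x : ℝ) ^ (c + 2) ≤ (x : ℝ) ^ (c + 3) := by
          rw [show c + 3 = 1 + (c + 2) by ring, Real.rpow_add hx0 1 (c + 2), Real.rpow_one]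
          exact mul_le_mul_of_nonneg_right a3 (by positivity)
        have h4 : 0 < (x : ℝ) ^ (c + 3) := by positivity
        have h5 : (0 : ℝ) ≤ (x : ℝ) ^ (2 * p) := by positivity
        rw [mul_div_assoc', div_le_iff₀ h4]
        nlinarith [mul_le_mul_of_nonneg_right (h2.trans h3) h5]
  have hE0 : (0 : ℝ) ≤ (energy p x (fun n => ⌊φ 0 n⌋) : ℝ) := Nat.cast_nonneg _
  calc (energy p x (fun n => ⌊φ 0 n⌋) : ℝ) * φ 0 x ≤ (energy p x (fun n => ⌊φ 0 n⌋) : ℝ) * M := mul_le_mul_of_nonneg_left hM1 hE0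
    _ = M * (energy p x (fun n => ⌊φ 0 n⌋) : ℝ) := by ring
    _ ≤ _ := hE.trans hsplit
    _ = _ := by ring

/-- the energy does not change under dilations -/
lemma energy_mul (p x : ℕ) (s : ℕ → ℤ) (κ : ℤ) (hκ : κ ≠ 0) : energy p x (fun m => κ * s m) = energy p x s := by
  unfold energy
  congr 1
  apply filter_congr
  intro q _
  rw [← mul_sum, ← mul_sum]
  constructor
  · intro h
    exact mul_left_cancel₀ hκ h
  · intro h
    rw [h]

end Pool.Agent.N193.PS
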