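import Pool.Agent.N193.PS.Dec2
import Pool.Agent.R501.SP3

set_option autoImplicit false

/-!
Few large Fourier coefficients of the values, with a power saving.
-/

namespace Pool.Agent.N193.PS

open Finset Filter Topology
open Pool.Agent.H807R2.Dav (ee norm_ee ee_add)
open Pool.Agent.Results.MP_122e00_nt.SparseRandomShifts (FewLarge)

variable {c : ℝ} {φ : ℕ → ℝ → ℝ}

/-- separated points near fractions -/
lemma sep_count (κ : ℤ) (hκ : κ ≠ 0) (N : ℕ) (hN : 1 ≤ N) (δ : ℝ) (hδ : 0 ≤ δ) (S : Finset ℝ)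
    (h1 : ∀ a ∈ S, 0 ≤ a ∧ a < 1 ∧ |(κ : ℝ) * a - round ((κ : ℝ) * a)| ≤ δ)
    (h2 : ∀ a ∈ S, ∀ b ∈ S, a ≠ b → 1 / (N : ℝ) ≤ |a - b|) :
    (S.card : ℝ) ≤ (2 * |(κ : ℝ)| + 3) * (2 * (N * δ) + 3) := by
  classical
  have hN0 : (0 : ℝ) < N := by exact_mod_cast hN
  have hκr : (κ : ℝ) ≠ 0 := by exact_mod_cast hκ
  have hκ1 : 1 ≤ |(κ : ℝ)| := by
    rw [← Int.cast_abs]
    exact_mod_cast Int.one_le_abs hκ
  have hNδ : 0 ≤ (N : ℝ) * δ := by positivity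
  obtain ⟨R, hR⟩ : ∃ R : ℕ, R = ⌊(N : ℝ) * δ⌋₊ + 1 := ⟨_, rfl⟩
  have hRle : (R : ℝ) ≤ N * δ + 1 := by
    rw [hR]
    push_cast
    linarith [Nat.floor_le hNδ]
  have hR' : (N : ℝ) * δ + 1 < R + 1 := by
    rw [hR]
    push_cast
    linarith [Nat.lt_floor_add_one ((N : ℝ) * δ)]
  have hcard : S.card ≤ ((Icc (-(κ.natAbs + 1 : ℤ)) (κ.natAbs + 1 : ℤ)) ×ˢ (Icc (-(R : ℤ)) (R : ℤ))).card := by
    apply card_le_card_of_injOn (fun a => (round ((κ : ℝ) * a), ⌊(N : ℝ) * a⌋ - ⌊(N : ℝ) * (round ((κ : ℝ) * a) / κ)⌋))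
    · intro a ha
      obtain ⟨g1, g2, g3⟩ := h1 a (mem_coe.1 ha)
      rw [mem_coe, mem_product, mem_Icc, mem_Icc]
      have hκa : |(κ : ℝ) * a| ≤ |(κ : ℝ)| := by
        rw [abs_mul, abs_of_nonneg g1]
        exact mul_le_of_le_one_right (abs_nonneg _) g2.le
      have hrd := abs_sub_round ((κ : ℝ) * a)
      have hq : |((round ((κ : ℝ) * a) : ℤ) : ℝ)| ≤ |(κ : ℝ)| + 1 := by
        have h5 := abs_sub_abs_le_abs_sub ((round ((κ : ℝ) * a) : ℤ) : ℝ) ((κ : ℝ) * a)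
        rw [abs_sub_comm] at h5
        linarith
      have hq' : |round ((κ : ℝ) * a)| ≤ (κ.natAbs : ℤ) + 1 := by
        have h6 : ((|round ((κ : ℝ) * a)| : ℤ) : ℝ) ≤ (((κ.natAbs : ℤ) + 1 : ℤ) : ℝ) := by
          rw [Int.cast_abs]
          push_cast
          exact hq
        exact_mod_cast h6
      refine ⟨abs_le.1 hq', ?_⟩
      have h7 : |(N : ℝ) * a - (N : ℝ) * (round ((κ : ℝ) * a) / κ)| ≤ N * δ := by
        have e : (N : ℝ) * a - (N : ℝ) * (round ((κ : ℝ) * a) / κ) = N * (((κ : ℝ) * a - round ((κ : ℝ) * a)) / κ) := by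
          field_simp
        rw [e, abs_mul, abs_of_pos hN0, abs_div]
        apply mul_le_mul_of_nonneg_left _ hN0.le
        rw [div_le_iff₀ (by linarith)]
        nlinarith
      have h8 : |((⌊(N : ℝ) * a⌋ - ⌊(N : ℝ) * (round ((κ : ℝ) * a) / κ)⌋ : ℤ) : ℝ)| < R + 1 := by
        push_cast
        have f1 := Int.floor_le ((N : ℝ) * a)
        have f2 := Int.lt_floor_add_one ((N : ℝ) * a)
        have f3 := Int.floor_le ((N : ℝ) * (round ((κ : ℝ) * a) / κ))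
        have f4 := Int.lt_floor_add_one ((N : ℝ) * (round ((κ : ℝ) * a) / κ))
        have f5 := abs_le.1 h7
        rw [abs_lt]
        constructor <;> linarith [f5.1, f5.2]
      have h9 : |⌊(N : ℝ) * a⌋ - ⌊(N : ℝ) * (round ((κ : ℝ) * a) / κ)⌋| < (R : ℤ) + 1 := by
        rw [← Int.cast_abs] at h8
        exact_mod_cast h8
      exact abs_le.1 (show |⌊(N : ℝ) * a⌋ - ⌊(N : ℝ) * (round ((κ : ℝ) * a) / κ)⌋| ≤ (R : ℤ) by omega)
    · intro a ha b hb hab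
      simp only [Prod.mk.injEq] at hab
      obtain ⟨e1, e2⟩ := hab
      rw [e1] at e2
      have e3 : ⌊(N : ℝ) * a⌋ = ⌊(N : ℝ) * b⌋ := by linarith
      by_contra hne
      have h3 := h2 a (mem_coe.1 ha) b (mem_coe.1 hb) hne
      rw [div_le_iff₀ hN0] at h3
      have h4 := Int.abs_sub_lt_one_of_floor_eq_floor e3
      have h5 : |(N : ℝ) * a - N * b| = |a - b| * N := by
        rw [← mul_sub, abs_mul, abs_of_pos hN0, mul_comm]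
      rw [h5] at h4
      linarith
  have h3 : ((((Icc (-(κ.natAbs + 1 : ℤ)) (κ.natAbs + 1 : ℤ)) ×ˢ (Icc (-(R : ℤ)) (R : ℤ))).card : ℕ) : ℝ) =
      (2 * |(κ : ℝ)| + 3) * (2 * R + 1) := by
    rw [card_product, Int.card_Icc, Int.card_Icc]
    have e1 : ((κ.natAbs : ℤ) + 1 + 1 - (-((κ.natAbs : ℤ) + 1))).toNat = 2 * κ.natAbs + 3 := by omega
    have e2 : ((R : ℤ) + 1 - (-(R : ℤ))).toNat = 2 * R + 1 := by omega
    rw [e1, e2]
    push_cast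
    rw [Nat.cast_natAbs]
    push_cast
    ring
  calc (S.card : ℝ) ≤ _ := Nat.cast_le.2 hcard
    _ = (2 * |(κ : ℝ)| + 3) * (2 * R + 1) := h3
    _ ≤ _ := by
      apply mul_le_mul_of_nonneg_left _ (by positivity)
      linarith

lemma rpow_large (C ε : ℝ) (hε : 0 < ε) : ∃ N₀ : ℕ, ∀ N : ℕ, N₀ ≤ N → C ≤ (N : ℝ) ^ ε := by
  have h1 := ((tendsto_rpow_atTop hε).comp tendsto_natCast_atTop_atTop).eventually_ge_atTop C
  obtain ⟨N₀, h2⟩ := eventually_atTop.1 h1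
  exact ⟨N₀, h2⟩

/-- few large Fourier coefficients -/
theorem SV.few (h : SV c φ) (κ₁ : ℝ) (hκ₁ : 0 < κ₁) : ∃ θ : ℝ, 0 < θ ∧ θ ≤ 1 ∧ ∀ κ : ℤ, κ ≠ 0 → ∃ N₀ : ℕ, ∀ N : ℕ, N₀ ≤ N →
    ∀ x : ℕ, (N : ℝ) ^ (1 - θ) ≤ φ 0 x → 1 ≤ x ∧ ∀ cc : ℤ,
    FewLarge (fun _ : {n // n ∈ Icc 1 x} => 1 / (x : ℝ)) (fun n => cc + κ * (val φ n.1 : ℕ)) N
      ((N : ℝ) ^ (-θ)) ((N : ℝ) ^ κ₁) := by
  classical
  obtain ⟨r, hr, σ, hσ, hσ', C, hC, hA⟩ := h.valsum'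
  obtain ⟨X₀, hX₀⟩ := eventually_atTop.mp hA
  obtain ⟨t₁, ht1, hup⟩ := h.up 1 one_pos
  have hcpos := h.pos
  have hr0 : (1 : ℝ) ≤ r := by exact_mod_cast hr
  obtain ⟨θ, hθ⟩ : ∃ θ : ℝ, θ = min (min (1 / 2) (σ / (8 * (c + 1)))) (κ₁ / (r + 2)) := ⟨_, rfl⟩
  have hθ0 : 0 < θ := by rw [hθ]; positivity
  have hθ1 : θ ≤ 1 / 2 := by rw [hθ]; exact (min_le_left _ _).trans (min_le_left _ _)
  have hθ2 : θ ≤ σ / (8 * (c + 1)) := by rw [hθ]; exact (min_le_left _ _).trans (min_le_right _ _)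
  have hθ3 : θ ≤ κ₁ / (r + 2) := by rw [hθ]; exact min_le_right _ _
  refine ⟨θ, hθ0, by linarith, fun κ hκ => ?_⟩
  -- the thresholds
  obtain ⟨T, hT⟩ : ∃ T : ℕ, T = X₀ + ⌈t₁⌉₊ + 1 := ⟨_, rfl⟩
  obtain ⟨A₁, hA₁⟩ : ∃ A₁ : ℝ, A₁ = 1 + ∑ y ∈ range T, |φ 0 y| := ⟨_, rfl⟩
  have hφT := (hup (⌈t₁⌉₊ : ℕ) (⌈t₁⌉₊ : ℕ) (Nat.le_ceil t₁) le_rfl).1
  obtain ⟨A₂, hA₂⟩ : ∃ A₂ : ℝ, A₂ = 1 + φ 0 ((⌈t₁⌉₊ : ℕ) : ℝ) := ⟨_, rfl⟩
  have hA₂1 : 1 ≤ A₂ := by rw [hA₂]; linarith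
  obtain ⟨N₁, hN₁⟩ := rpow_large A₁ (1 / 2) (by norm_num)
  obtain ⟨N₂, hN₂⟩ := rpow_large A₂ (1 / 4) (by norm_num)
  obtain ⟨N₃, hN₃⟩ := rpow_large (2 * C) θ hθ0
  obtain ⟨N₄, hN₄⟩ := rpow_large ((2 * |(κ : ℝ)| + 3) * (2 * (2 * C) ^ r + 3)) θ hθ0
  refine ⟨N₁ + N₂ + N₃ + N₄ + 1, fun N hN x hx => ?_⟩
  have hN1 : (1 : ℝ) ≤ N := by exact_mod_cast (by omega : 1 ≤ N)
  have hN0 : (0 : ℝ) < N := by linarith
  have hxT : T ≤ x := by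
    by_contra hcon
    push Not at hcon
    have h1 : |φ 0 x| ≤ ∑ y ∈ range T, |φ 0 y| :=
      single_le_sum (f := fun y : ℕ => |φ 0 y|) (fun _ _ => abs_nonneg _) (mem_range.2 hcon)
    have h2 := hN₁ N (by omega)
    have h3 : (N : ℝ) ^ (1 / 2 : ℝ) ≤ (N : ℝ) ^ (1 - θ) := Real.rpow_le_rpow_of_exponent_le hN1 (by linarith)
    have h4 := le_abs_self (φ 0 x)
    rw [hA₁] at h2
    linarith
  have hx1 : 1 ≤ x := by omega
  refine ⟨hx1, fun cc S hS hsep => ?_⟩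
  have hx0 : (0 : ℝ) < x := by exact_mod_cast hx1
  have hx1r : (1 : ℝ) ≤ x := by exact_mod_cast hx1
  have hφ0 : 0 < φ 0 x := lt_of_lt_of_le (by positivity) hx
  -- x is a power of N
  have hxN : (N : ℝ) ^ (1 / (4 * (c + 1))) ≤ x := by
    have h1 : φ 0 x ≤ φ 0 ((⌈t₁⌉₊ : ℕ) : ℝ) * ((x : ℝ) / ((⌈t₁⌉₊ : ℕ) : ℝ)) ^ (c + 1) :=
      (hup (⌈t₁⌉₊ : ℕ) x (Nat.le_ceil t₁) (by exact_mod_cast (by omega : ⌈t₁⌉₊ ≤ x))).2
    have h2 : (1 : ℝ) ≤ ((⌈t₁⌉₊ : ℕ) : ℝ) := ht1.trans (Nat.le_ceil t₁)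
    have h3 : ((x : ℝ) / ((⌈t₁⌉₊ : ℕ) : ℝ)) ^ (c + 1) ≤ (x : ℝ) ^ (c + 1) := by
      apply Real.rpow_le_rpow (by positivity) _ (by linarith)
      exact div_le_self hx0.le h2
    have h4 : (N : ℝ) ^ (1 / 2 : ℝ) ≤ (N : ℝ) ^ (1 / 4 : ℝ) * (x : ℝ) ^ (c + 1) := by
      calc (N : ℝ) ^ (1 / 2 : ℝ) ≤ (N : ℝ) ^ (1 - θ) := Real.rpow_le_rpow_of_exponent_le hN1 (by linarith)
        _ ≤ φ 0 x := hx
        _ ≤ _ := h1
        _ ≤ A₂ * (x : ℝ) ^ (c + 1) := by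
            apply mul_le_mul (by rw [hA₂]; linarith) h3 (by positivity) (by linarith)
        _ ≤ _ := mul_le_mul_of_nonneg_right (hN₂ N (by omega)) (by positivity)
    have h5 : (N : ℝ) ^ (1 / 4 : ℝ) ≤ (x : ℝ) ^ (c + 1) := by
      have e : (N : ℝ) ^ (1 / 2 : ℝ) = (N : ℝ) ^ (1 / 4 : ℝ) * (N : ℝ) ^ (1 / 4 : ℝ) := by
        rw [← Real.rpow_add hN0]
        norm_num
      rw [e] at h4
      exact le_of_mul_le_mul_left h4 (by positivity)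
    have h6 := Real.rpow_le_rpow (by positivity) h5 (show (0 : ℝ) ≤ 1 / (c + 1) by positivity)
    rw [← Real.rpow_mul hN0.le, ← Real.rpow_mul hx0.le] at h6
    have e1 : (c + 1) * (1 / (c + 1)) = 1 := by field_simp
    have e2 : (1 / 4 : ℝ) * (1 / (c + 1)) = 1 / (4 * (c + 1)) := by field_simp
    rw [e1, e2, Real.rpow_one] at h6
    exact h6
  have hxσ : (x : ℝ) ^ (-σ) ≤ (N : ℝ) ^ (-(2 * θ)) := by
    have h1 : (N : ℝ) ^ (2 * θ) ≤ (x : ℝ) ^ σ := by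
      calc (N : ℝ) ^ (2 * θ) ≤ (N : ℝ) ^ (1 / (4 * (c + 1)) * σ) := by
            apply Real.rpow_le_rpow_of_exponent_le hN1
            have : σ / (8 * (c + 1)) = 1 / (4 * (c + 1)) * σ / 2 := by field_simp; norm_num
            linarith
        _ = ((N : ℝ) ^ (1 / (4 * (c + 1)))) ^ σ := Real.rpow_mul hN0.le _ _
        _ ≤ _ := Real.rpow_le_rpow (by positivity) hxN hσ.le
    rw [Real.rpow_neg hx0.le, Real.rpow_neg hN0.le]
    exact inv_anti₀ (by positivity) h1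
  -- the points are near fractions
  obtain ⟨δ, hδ⟩ : ∃ δ : ℝ, δ = (2 * C) ^ r * (N : ℝ) ^ ((r + 1) * θ) / N := ⟨_, rfl⟩
  have hδ0 : 0 ≤ δ := by rw [hδ]; positivity
  have hnear : ∀ a ∈ S, 0 ≤ a ∧ a < 1 ∧ |(κ : ℝ) * a - round ((κ : ℝ) * a)| ≤ δ := by
    intro a ha
    obtain ⟨g1, g2, h3⟩ := hS a ha
    refine ⟨g1, g2, ?_⟩
    obtain ⟨u, hu⟩ : ∃ u, u = |(κ : ℝ) * a - round ((κ : ℝ) * a)| := ⟨_, rfl⟩
    rw [← hu]
    rcases (abs_nonneg ((κ : ℝ) * a - round ((κ : ℝ) * a))).eq_or_lt with h0 | h0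
    · rw [hu, ← h0]
      exact hδ0
    have hmain := hX₀ x (by omega) ((κ : ℝ) * a) h0
    rw [← hu] at hmain h0
    have hchar : ‖Pool.Agent.Results.MP_122e00_nt.SparseRandomShifts.φ (fun _ : {n // n ∈ Icc 1 x} => 1 / (x : ℝ))
        (fun n => cc + κ * (val φ n.1 : ℕ)) a‖ = 1 / x * ‖∑ n ∈ Icc 1 x, ee (((κ : ℝ) * a) * (val φ n : ℕ))‖ := by
      have e1 : Pool.Agent.Results.MP_122e00_nt.SparseRandomShifts.φ (fun _ : {n // n ∈ Icc 1 x} => 1 / (x : ℝ))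
          (fun n => cc + κ * (val φ n.1 : ℕ)) a =
          ∑ n ∈ Icc 1 x, ((1 / (x : ℝ) : ℝ) : ℂ) * ee (((cc + κ * (val φ n : ℕ) : ℤ) : ℝ) * a) := by
        rw [← Finset.sum_coe_sort (Icc 1 x) (fun n : ℕ => ((1 / (x : ℝ) : ℝ) : ℂ) * ee (((cc + κ * (val φ n : ℕ) : ℤ) : ℝ) * a))]
        rfl
      have e2 : ∑ n ∈ Icc 1 x, ((1 / (x : ℝ) : ℝ) : ℂ) * ee (((cc + κ * (val φ n : ℕ) : ℤ) : ℝ) * a) =
          ((1 / (x : ℝ) : ℝ) : ℂ) * ee ((cc : ℝ) * a) * ∑ n ∈ Icc 1 x, ee (((κ : ℝ) * a) * (val φ n : ℕ)) := by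
        rw [mul_sum]
        apply sum_congr rfl
        intro n _
        have : (((cc + κ * (val φ n : ℕ) : ℤ) : ℝ) * a) = (cc : ℝ) * a + ((κ : ℝ) * a) * (val φ n : ℕ) := by
          push_cast
          ring
        rw [this, ee_add]
        ring
      rw [e1, e2, norm_mul, norm_mul, norm_ee, mul_one, Complex.norm_real, Real.norm_of_nonneg (by positivity)]
    rw [hchar] at h3
    have h4 : (N : ℝ) ^ (-θ) < C * ((u * φ 0 x) ^ (-(1 / (r : ℝ))) + (x : ℝ) ^ (-σ)) := by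
      refine lt_of_lt_of_le h3 ?_
      calc 1 / (x : ℝ) * ‖∑ n ∈ Icc 1 x, ee (((κ : ℝ) * a) * (val φ n : ℕ))‖
          ≤ 1 / (x : ℝ) * (C * (x * (u * φ 0 x) ^ (-(1 / (r : ℝ))) + (x : ℝ) ^ (1 - σ))) :=
            mul_le_mul_of_nonneg_left hmain (by positivity)
        _ = _ := by
            have e : (x : ℝ) ^ (1 - σ) = x * (x : ℝ) ^ (-σ) := by
              rw [show (1 : ℝ) - σ = 1 + -σ by ring, Real.rpow_add hx0, Real.rpow_one]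
            rw [e]
            field_simp
    have h5 : C * (x : ℝ) ^ (-σ) ≤ (N : ℝ) ^ (-θ) / 2 := by
      have h6 : (N : ℝ) ^ (-(2 * θ)) * (2 * C) ≤ (N : ℝ) ^ (-θ) := by
        calc (N : ℝ) ^ (-(2 * θ)) * (2 * C) ≤ (N : ℝ) ^ (-(2 * θ)) * (N : ℝ) ^ θ :=
              mul_le_mul_of_nonneg_left (hN₃ N (by omega)) (by positivity)
          _ = _ := by
              rw [← Real.rpow_add hN0]
              congr 1
              ring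
      have h7 := mul_le_mul_of_nonneg_left hxσ hC.le
      linarith
    have h8 : (N : ℝ) ^ (-θ) / 2 < C * (u * φ 0 x) ^ (-(1 / (r : ℝ))) := by linarith
    have huφ : 0 < u * φ 0 x := mul_pos h0 hφ0
    have h9 : (u * φ 0 x) ^ (1 / (r : ℝ)) < 2 * C * (N : ℝ) ^ θ := by
      rw [Real.rpow_neg huφ.le, Real.rpow_neg hN0.le] at h8
      have p1 : 0 < (u * φ 0 x) ^ (1 / (r : ℝ)) := by positivity
      have p2 : 0 < (N : ℝ) ^ θ := by positivity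
      rw [div_lt_iff₀ (by norm_num), inv_lt_iff_one_lt_mul₀ p2] at h8
      have h10 : C * ((u * φ 0 x) ^ (1 / (r : ℝ)))⁻¹ * 2 * (N : ℝ) ^ θ = (2 * C * (N : ℝ) ^ θ) / (u * φ 0 x) ^ (1 / (r : ℝ)) := by
        field_simp
      rw [h10, lt_div_iff₀ p1, one_mul] at h8
      exact h8
    have h10 : u * φ 0 x ≤ (2 * C) ^ r * (N : ℝ) ^ (r * θ) := by
      have h11 := pow_le_pow_left₀ (by positivity) h9.le r
      rw [mul_pow] at h11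
      have e1 : ((u * φ 0 x) ^ (1 / (r : ℝ))) ^ r = u * φ 0 x := by
        rw [← Real.rpow_natCast, ← Real.rpow_mul huφ.le]
        have : (1 / (r : ℝ)) * r = 1 := by field_simp
        rw [this, Real.rpow_one]
      have e2 : ((N : ℝ) ^ θ) ^ r = (N : ℝ) ^ (r * θ) := by
        rw [← Real.rpow_natCast, ← Real.rpow_mul hN0.le, mul_comm]
      rw [e1, e2] at h11
      exact h11
    rw [hδ, le_div_iff₀ hN0]
    have h12 : u * (N : ℝ) = u * (N : ℝ) ^ (1 - θ) * (N : ℝ) ^ θ := by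
      rw [mul_assoc, ← Real.rpow_add hN0]
      have : (1 : ℝ) - θ + θ = 1 := by ring
      rw [this, Real.rpow_one]
    rw [h12]
    calc u * (N : ℝ) ^ (1 - θ) * (N : ℝ) ^ θ ≤ u * φ 0 x * (N : ℝ) ^ θ := by
          apply mul_le_mul_of_nonneg_right _ (by positivity)
          exact mul_le_mul_of_nonneg_left hx h0.le
      _ ≤ (2 * C) ^ r * (N : ℝ) ^ (r * θ) * (N : ℝ) ^ θ := mul_le_mul_of_nonneg_right h10 (by positivity)
      _ = _ := by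
          rw [mul_assoc, ← Real.rpow_add hN0]
          congr 2
          ring
  have hcount := sep_count κ hκ N (by omega) δ hδ0 S hnear hsep
  refine hcount.trans ?_
  have e1 : (N : ℝ) * δ = (2 * C) ^ r * (N : ℝ) ^ ((r + 1) * θ) := by
    rw [hδ]
    field_simp
  rw [e1]
  have h1 : 1 ≤ (N : ℝ) ^ (((r : ℝ) + 1) * θ) := Real.one_le_rpow hN1 (by positivity)
  have hCr : 0 ≤ (2 * C) ^ r := by positivity
  calc (2 * |(κ : ℝ)| + 3) * (2 * ((2 * C) ^ r * (N : ℝ) ^ ((r + 1) * θ)) + 3)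
      ≤ (2 * |(κ : ℝ)| + 3) * ((2 * (2 * C) ^ r + 3) * (N : ℝ) ^ ((r + 1) * θ)) := by
        apply mul_le_mul_of_nonneg_left _ (by positivity)
        nlinarith
    _ = ((2 * |(κ : ℝ)| + 3) * (2 * (2 * C) ^ r + 3)) * (N : ℝ) ^ ((r + 1) * θ) := by ring
    _ ≤ (N : ℝ) ^ θ * (N : ℝ) ^ ((r + 1) * θ) := mul_le_mul_of_nonneg_right (hN₄ N (by omega)) (by positivity)
    _ = (N : ℝ) ^ ((r + 2) * θ) := by
        rw [← Real.rpow_add hN0]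
        congr 1
        ring
    _ ≤ (N : ℝ) ^ κ₁ := by
        apply Real.rpow_le_rpow_of_exponent_le hN1
        rw [le_div_iff₀ (by linarith)] at hθ3
        linarith

end Pool.Agent.N193.PS
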