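import Pool.Agent.N193.PS.En
import Pool.Agent.N193.PS.Def
import Pool.Agent.N193.PS.Few

set_option autoImplicit false

/-!
Families of values of smoothly varying functions of a non-integral index: sizes and energy.
-/

namespace Pool.Agent.N193.PS

open Finset Filter Topology
open Pool.Agent.H373R2.T7 (energy ev_L')
open Pool.Agent.TH823.Fam (energy_translate)

/-- the hypotheses of the theorems on families of nearly minimal energy -/
theorem sv_family (c : ℝ) (f : ℝ → ℝ) (hc : 0 < c) (hn : ∀ m : ℕ, c ≠ m) (hf : SmoothlyVarying c f) (κ : ℤ) (hκ : κ ≠ 0)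
    (B C : ℕ) : ∃ p B' : ℕ, 1 ≤ p ∧ B ≤ B' ∧ ∃ N₀ : ℕ, ∀ N : ℕ, N₀ ≤ N → ∀ x : ℕ, f x ≤ B * N → (N : ℝ) ≤ Real.log N ^ C * f x →
    ∀ c₀ : ℤ, |c₀| ≤ B * N →
    1 ≤ x ∧ (∀ m ∈ Icc 1 x, |c₀ + κ * ⌊f m⌋| ≤ B' * N) ∧
    (energy p x (fun m => c₀ + κ * ⌊f m⌋) : ℝ) * N ≤ Real.log N ^ (C + 1) * (x : ℝ) ^ (2 * p) := by
  have h := sv_of c hc hn f hf
  obtain ⟨p, hp, C₁, hC₁, X₀, hE⟩ := h.energy_low
  obtain ⟨t₁, ht₁, hlow⟩ := h.low (c / 2) (by linarith)
  simp only [iteratedDeriv_zero] at hE hlow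
  obtain ⟨T, hT⟩ : ∃ T, T = X₀ + ⌈t₁⌉₊ + 1 := ⟨_, rfl⟩
  obtain ⟨D, hD⟩ : ∃ D : ℝ, D = 1 + ∑ y ∈ range T, |f y| := ⟨_, rfl⟩
  have hsmall : ∀ y : ℕ, y < T → |f y| ≤ D := by
    intro y hy
    have := single_le_sum (f := fun y : ℕ => |f y|) (fun _ _ => abs_nonneg _) (mem_range.2 hy)
    rw [hD]
    linarith
  have hD0 : 1 ≤ D := by
    rw [hD]
    have : 0 ≤ ∑ y ∈ range T, |f y| := sum_nonneg fun _ _ => abs_nonneg _
    linarith
  obtain ⟨N1, h1⟩ := ev_L' (C₁ + 1)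
  -- log ^ C N * D < N
  obtain ⟨N2, h2⟩ := Pool.Agent.H373R2.T7.ev_log' C D
  refine ⟨p, B + κ.natAbs * (B + 2), hp, by omega, N1 + N2 + ⌈D⌉₊ + 3, fun N hN x hx1 hx2 c₀ hc₀ => ?_⟩
  have hL := h1 N (by omega)
  have hL2 := h2 N (by omega)
  have hN3 : (3 : ℝ) ≤ N := by exact_mod_cast (by omega : 3 ≤ N)
  have hN0 : (0 : ℝ) < N := by linarith
  have hDN : D ≤ N := by
    refine (Nat.le_ceil D).trans ?_
    exact_mod_cast (by omega : ⌈D⌉₊ ≤ N)
  have hL0 : 0 < Real.log N := by linarith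
  have hLC : 0 < Real.log N ^ C := by positivity
  -- the size of x
  have hxT : T ≤ x := by
    by_contra hcon
    push Not at hcon
    have h3 := (le_abs_self _).trans (hsmall x hcon)
    have h4 : (N : ℝ) ≤ √N := by
      calc (N : ℝ) ≤ Real.log N ^ C * f x := hx2
        _ ≤ Real.log N ^ C * D := mul_le_mul_of_nonneg_left h3 hLC.le
        _ = D * Real.log N ^ C := by ring
        _ ≤ √N := hL2
    have h5 := Real.sq_sqrt hN0.le
    nlinarith
  have hxt : t₁ ≤ x := by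
    refine (Nat.le_ceil t₁).trans ?_
    exact_mod_cast (by omega : ⌈t₁⌉₊ ≤ x)
  have hfx : 0 < f x := (hlow x x hxt le_rfl).1
  refine ⟨by omega, fun m hm => ?_, ?_⟩
  · rw [mem_Icc] at hm
    have hfm : |f m| ≤ (B + 1) * N := by
      rcases lt_or_ge m T with h3 | h3
      · refine (hsmall m h3).trans (hDN.trans ?_)
        have : (0 : ℝ) ≤ B := Nat.cast_nonneg _
        nlinarith
      · have hmt : t₁ ≤ m := by
          refine (Nat.le_ceil t₁).trans ?_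
          exact_mod_cast (by omega : ⌈t₁⌉₊ ≤ m)
        have hmx : (m : ℝ) ≤ x := by exact_mod_cast hm.2
        obtain ⟨g1, g2⟩ := hlow m x hmt hmx
        have hm0 : (0 : ℝ) < m := by linarith
        have g3 : 1 ≤ ((x : ℝ) / m) ^ (c - c / 2) := by
          apply Real.one_le_rpow
          · rw [le_div_iff₀ hm0]; linarith
          · linarith
        rw [abs_of_pos g1]
        have g4 : f m ≤ f x := by nlinarith
        nlinarith
    have h4 : |((⌊f m⌋ : ℤ) : ℝ)| ≤ (B + 2) * N := by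
      have g1 := Int.floor_le (f m)
      have g2 := Int.lt_floor_add_one (f m)
      obtain ⟨g3, g4⟩ := abs_le.1 hfm
      rw [abs_le]
      constructor <;> nlinarith
    have h5 : |⌊f m⌋| ≤ ((B + 2 : ℕ) : ℤ) * N := by
      have : ((|⌊f m⌋| : ℤ) : ℝ) ≤ ((((B + 2 : ℕ) : ℤ) * N : ℤ) : ℝ) := by
        push_cast
        exact h4
      exact_mod_cast this
    calc |c₀ + κ * ⌊f m⌋| ≤ |c₀| + |κ * ⌊f m⌋| := abs_add_le _ _
      _ = |c₀| + |κ| * |⌊f m⌋| := by rw [abs_mul]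
      _ ≤ B * N + |κ| * (((B + 2 : ℕ) : ℤ) * N) := add_le_add hc₀ (mul_le_mul_of_nonneg_left h5 (abs_nonneg _))
      _ = _ := by
        rw [Int.abs_eq_natAbs]
        push_cast
        ring
  · rw [energy_translate p x (fun m => κ * ⌊f m⌋) c₀, energy_mul p x (fun m => ⌊f m⌋) κ hκ]
    have h3 := hE x (by omega)
    have h4 : (0 : ℝ) ≤ (energy p x (fun m => ⌊f m⌋) : ℝ) := Nat.cast_nonneg _
    calc (energy p x (fun m => ⌊f m⌋) : ℝ) * N ≤ (energy p x (fun m => ⌊f m⌋) : ℝ) * (Real.log N ^ C * f x) :=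
          mul_le_mul_of_nonneg_left hx2 h4
      _ = Real.log N ^ C * ((energy p x (fun m => ⌊f m⌋) : ℝ) * f x) := by ring
      _ ≤ Real.log N ^ C * (C₁ * (x : ℝ) ^ (2 * p)) := mul_le_mul_of_nonneg_left h3 hLC.le
      _ ≤ Real.log N ^ C * (Real.log N * (x : ℝ) ^ (2 * p)) := by
          apply mul_le_mul_of_nonneg_left _ hLC.le
          apply mul_le_mul_of_nonneg_right _ (by positivity)
          linarith
      _ = _ := by ring

end Pool.Agent.N193.PS
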