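import Pool.Agent.N193.PS.Dec2
import Pool.Agent.N193.PS.Gp
import Pool.Agent.R459.Tw1

set_option autoImplicit false

/-!
Sums over primes of functions of the residues of `c₀ + κ ⌊f n⌋`, for almost all `n`.
-/

namespace Pool.Agent.N193.PS

open Finset Filter Topology
open Pool.Agent.R459.Eq (Decays Sysb Few Sys2 Av Vs pri mean cntR dens dens2 indR)

open Classical in
/-- the property `P` of `c₀ + κ ⌊f n⌋` holds for all `n ≤ M` up to a proportion of at most `τ` -/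
def AlmostV (f : ℝ → ℝ) (M : ℕ) (κ c₀ : ℤ) (τ : ℝ) (P : ℤ → Prop) : Prop :=
  (((Icc 1 M).filter (fun n : ℕ => ¬ P (c₀ + κ * (⌊f n⌋₊ : ℕ)))).card : ℝ) ≤ τ * M

lemma AlmostV.mono {f : ℝ → ℝ} {M : ℕ} {κ c₀ : ℤ} {τ : ℝ} {P Q : ℤ → Prop} (h : AlmostV f M κ c₀ τ P)
    (hPQ : ∀ n, P n → Q n) : AlmostV f M κ c₀ τ Q := by
  classical
  unfold AlmostV at h ⊢
  refine le_trans (Nat.cast_le.2 (card_le_card fun n hn => ?_)) h
  rw [mem_filter] at hn ⊢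
  exact ⟨hn.1, fun hcon => hn.2 (hPQ _ hcon)⟩

lemma card_or {τ : Type} (A : Finset τ) (E E₁ E₂ : τ → Prop) [DecidablePred E] [DecidablePred E₁] [DecidablePred E₂]
    (h : ∀ x ∈ A, E x → E₁ x ∨ E₂ x) : ((A.filter E).card : ℝ) ≤ (A.filter E₁).card + (A.filter E₂).card := by
  classical
  have h1 : A.filter E ⊆ A.filter E₁ ∪ A.filter E₂ := by
    intro x hx
    rw [mem_filter] at hx
    rw [mem_union, mem_filter, mem_filter]
    rcases h x hx.1 hx.2 with h2 | h2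
    · exact Or.inl ⟨hx.1, h2⟩
    · exact Or.inr ⟨hx.1, h2⟩
  exact_mod_cast (card_le_card h1).trans (card_union_le _ _)

lemma AlmostV.and {f : ℝ → ℝ} {M : ℕ} {κ c₀ : ℤ} {τ τ' : ℝ} {P Q : ℤ → Prop} (h : AlmostV f M κ c₀ τ P)
    (h' : AlmostV f M κ c₀ τ' Q) : AlmostV f M κ c₀ (τ + τ') (fun n => P n ∧ Q n) := by
  unfold AlmostV at h h' ⊢
  rw [add_mul]
  refine (@card_or _ _ _ _ _ (fun _ => @instDecidableNot _ (Classical.propDecidable _))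
    (fun _ => @instDecidableNot _ (Classical.propDecidable _))
    (fun _ => @instDecidableNot _ (Classical.propDecidable _)) fun n _ hn => ?_).trans (add_le_add h h')
  by_cases h1 : P (c₀ + κ * (⌊f n⌋₊ : ℕ))
  · exact Or.inr fun h2 => hn ⟨h1, h2⟩
  · exact Or.inl h1

lemma val_iter'' (f : ℝ → ℝ) (n : ℕ) : val (fun m => iteratedDeriv m f) n = ⌊f n⌋₊ := by
  unfold val
  simp only [iteratedDeriv_zero]

/-- from the decay of the characteristic function to almost all the values -/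
theorem sv_pass (c : ℝ) (f : ℝ → ℝ) (hc : 0 < c) (hn : ∀ m : ℕ, c ≠ m) (hf : SmoothlyVarying c f) :
    ∃ A X₁ : ℕ, ∀ W X : ℕ, X₁ ≤ X → ∀ (M : ℕ) (κ c₀ : ℤ) (Q : ℕ → ℤ → Prop) (τ : ℝ), 0 ≤ τ →
    (∀ (k : ℕ) (ι : Type) (Ω : Finset ι) (w : ι → ℝ) (v : ι → ℤ), Decays 2 1 A k (1 / 2) κ Ω w v →
      ∀ E : Finset ι, E ⊆ Ω → (∀ i ∈ E, ¬ ∀ x : ℕ, X ≤ x → x ^ W ≤ 2 ^ k → Q x (v i)) → ∑ i ∈ E, w i ≤ τ) →
    AlmostV f M κ c₀ τ (fun n => ∀ x : ℕ, X ≤ x → (x : ℝ) ^ (W + 1) ≤ f M → Q x n) := by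
  classical
  have hsv := sv_of c hc hn f hf
  obtain ⟨A, M₀, hdec⟩ := hsv.decays
  obtain ⟨X₁, hX₁⟩ := exists_nat_ge (∑ M ∈ range M₀, |f M|)
  refine ⟨A, X₁ + 2, fun W X hX M κ c₀ Q τ hτ H => ?_⟩
  unfold AlmostV
  have hM0 : (0 : ℝ) ≤ M := Nat.cast_nonneg _
  by_cases hne : ∃ x : ℕ, X ≤ x ∧ (x : ℝ) ^ (W + 1) ≤ f M
  swap
  · have : (Icc 1 M).filter (fun n : ℕ => ¬ ∀ x : ℕ, X ≤ x → (x : ℝ) ^ (W + 1) ≤ f M → Q x (c₀ + κ * (⌊f n⌋₊ : ℕ))) = ∅ := by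
      apply filter_false_of_mem
      intro n _ hcon
      exact hcon fun x hx hxW => absurd ⟨x, hx, hxW⟩ hne
    rw [this, card_empty, Nat.cast_zero]
    positivity
  obtain ⟨x₀, hx₀, hx₀W⟩ := hne
  have hx₀1 : (1 : ℝ) ≤ x₀ := by exact_mod_cast (by omega : 1 ≤ x₀)
  have hfx₀ : (x₀ : ℝ) ≤ f M := (le_self_pow₀ hx₀1 (by omega)).trans hx₀W
  have hMM : M₀ ≤ M := by
    by_contra hcon
    push Not at hcon
    have h1 : |f M| ≤ ∑ M ∈ range M₀, |f M| :=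
      single_le_sum (f := fun M : ℕ => |f M|) (fun _ _ => abs_nonneg _) (mem_range.2 hcon)
    have h2 := le_abs_self (f M)
    have h3 : (X₁ : ℝ) + 2 ≤ x₀ := by exact_mod_cast hX.trans hx₀
    linarith
  obtain ⟨k, hk⟩ : ∃ k, k = Nat.log 2 ⌊f M⌋₊ := ⟨_, rfl⟩
  have hfl : 1 ≤ ⌊f M⌋₊ := by
    rw [Nat.one_le_floor_iff]
    linarith
  have hf0 : 0 ≤ f M := by linarith
  have hk1 : (2 : ℝ) ^ k ≤ f M := by
    have h1 : 2 ^ k ≤ ⌊f M⌋₊ := by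
      rw [hk]
      exact Nat.pow_log_le_self 2 (by omega)
    calc (2 : ℝ) ^ k ≤ (⌊f M⌋₊ : ℝ) := by exact_mod_cast h1
      _ ≤ f M := Nat.floor_le hf0
  have hk2 : f M < 2 ^ (k + 1) := by
    have h1 : ⌊f M⌋₊ < 2 ^ (k + 1) := by
      rw [hk]
      exact Nat.lt_pow_succ_log_self (by norm_num) _
    have h2 : f M < (⌊f M⌋₊ : ℝ) + 1 := Nat.lt_floor_add_one _
    have h3 : (⌊f M⌋₊ : ℝ) + 1 ≤ 2 ^ (k + 1) := by exact_mod_cast h1
    linarith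
  have hd := hdec M hMM k (by simpa only [iteratedDeriv_zero] using hk1) c₀ κ
  have hM1 : 1 ≤ M := by
    by_contra hcon
    have hM : M = 0 := by omega
    have hs := hd.sum
    rw [hM] at hs
    simp at hs
  have hM1' : (0 : ℝ) < M := by exact_mod_cast hM1
  have h1 := H k ℕ (Icc 1 M) (fun _ => 1 / (M : ℝ)) _ hd
    ((Icc 1 M).filter (fun n : ℕ => ¬ ∀ x : ℕ, X ≤ x → (x : ℝ) ^ (W + 1) ≤ f M → Q x (c₀ + κ * (⌊f n⌋₊ : ℕ))))
    (filter_subset _ _) (fun n hn hcon => by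
      rw [mem_filter] at hn
      apply hn.2
      intro x hx hxW
      have h2 := hcon x hx (by
        have hx2 : (2 : ℝ) ≤ x := by exact_mod_cast (by omega : 2 ≤ x)
        have h3 : (x : ℝ) ^ W * 2 < 2 ^ k * 2 := by
          calc (x : ℝ) ^ W * 2 ≤ (x : ℝ) ^ W * x := mul_le_mul_of_nonneg_left hx2 (by positivity)
            _ = (x : ℝ) ^ (W + 1) := (pow_succ _ _).symm
            _ ≤ f M := hxW
            _ < 2 ^ (k + 1) := hk2
            _ = 2 ^ k * 2 := pow_succ _ _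
        have h4 : (x : ℝ) ^ W ≤ 2 ^ k := by linarith
        exact_mod_cast h4)
      rw [val_iter''] at h2
      exact h2)
  rw [sum_const, nsmul_eq_mul, mul_one_div, div_le_iff₀ hM1'] at h1
  exact h1

end Pool.Agent.N193.PS
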