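import Pool.Agent.N193.PS.Eqs

set_option autoImplicit false

/-!
Sums over primes of functions of the residues of `c₀ + κ ⌊f n⌋`: many systems, two parameters, twisted counts (adapted
from `Pool.Agent.R459.Eq16`, `Eq17`, `Eq18`, `Tw1`).
-/

namespace Pool.Agent.N193.PS

open Finset Filter Topology
open Pool.Agent.R459.Eq
open Pool.Agent.R459.Tw (jac_per jac_mean log_small recip_sum)

/-- many systems, for almost all the values -/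
theorem sv_fine (c : ℝ) (f : ℝ → ℝ) (hc : 0 < c) (hn : ∀ m : ℕ, c ≠ m) (hf : SmoothlyVarying c f)
    (δ : ℝ) (hδ : 0 < δ) (hδ1 : δ ≤ 1 / 2) : ∃ W : ℕ, 1 ≤ W ∧
    ∀ κ : ℤ, κ ≠ 0 → ∃ X₀ : ℕ, ∀ X : ℕ, X₀ ≤ X → ∀ M : ℕ, ∀ c₀ : ℤ, ∀ g : ℕ → ℕ → ℤ → ℝ, (∀ j, Sysb (g j)) → Few g →
    AlmostV f M κ c₀ (2 * (X : ℝ) ^ (-(δ / 2))) (fun n => ∀ x : ℕ, X ≤ x → (x : ℝ) ^ W ≤ f M →
      (∀ j : ℕ, j ≤ x → |∑ p ∈ pri x, (g j p n - mean p (g j p))| ≤ (x : ℝ) ^ (1 / 2 + δ)) ∧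
      (∀ j : ℕ, (j : ℝ) ≤ (x : ℝ) ^ (δ / 2) →
        |∑ p ∈ pri x, (g j p n - mean p (g j p))| ≤ √(max 1 (Vs (g j) (2 * x))) * (x : ℝ) ^ δ)) := by
  classical
  obtain ⟨A, X₁, hpass⟩ := sv_pass c f hc hn hf
  obtain ⟨W, hW, K⟩ := fine_all 2 le_rfl A (1 / 2) (by norm_num) (by norm_num) δ hδ hδ1
  refine ⟨W + 1, by omega, fun κ hκ => ?_⟩
  obtain ⟨X₂, J⟩ := K 1 κ le_rfl hκ
  refine ⟨X₁ + X₂ + 1, fun X hX M c₀ g hg hfew => ?_⟩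
  refine hpass W X (by omega) M κ c₀ (fun x n => (∀ j : ℕ, j ≤ x → |∑ p ∈ pri x, (g j p n - mean p (g j p))| ≤ (x : ℝ) ^ (1 / 2 + δ)) ∧
      (∀ j : ℕ, (j : ℝ) ≤ (x : ℝ) ^ (δ / 2) →
        |∑ p ∈ pri x, (g j p n - mean p (g j p))| ≤ √(max 1 (Vs (g j) (2 * x))) * (x : ℝ) ^ δ)) _ (by positivity)
    fun k ι Ω w v hdec E hE hbad => ?_
  obtain ⟨E₁, hE₁⟩ : ∃ E₁ : Finset ι, E₁ = E.filter (fun i => ∃ x : ℕ, X ≤ x ∧ x ^ W ≤ 2 ^ k ∧ ∃ j : ℕ, j ≤ x ∧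
        (x : ℝ) ^ (1 / 2 + δ) < |∑ p ∈ pri x, (g j p (v i) - mean p (g j p))|) := ⟨_, rfl⟩
  obtain ⟨E₂, hE₂⟩ : ∃ E₂ : Finset ι, E₂ = E.filter (fun i => ∃ x : ℕ, X ≤ x ∧ x ^ W ≤ 2 ^ k ∧ ∃ j : ℕ, (j : ℝ) ≤ (x : ℝ) ^ (δ / 2) ∧
        √(max 1 (Vs (g j) (2 * x))) * (x : ℝ) ^ δ < |∑ p ∈ pri x, (g j p (v i) - mean p (g j p))|) := ⟨_, rfl⟩
  have hsplit : E ⊆ E₁ ∪ E₂ := by
    intro i hi
    have h5 := hbad i hi
    push Not at h5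
    obtain ⟨x, hXx, hxW, hu⟩ := h5
    rw [mem_union, hE₁, hE₂, mem_filter, mem_filter]
    by_cases h6 : ∃ j : ℕ, j ≤ x ∧ (x : ℝ) ^ (1 / 2 + δ) < |∑ p ∈ pri x, (g j p (v i) - mean p (g j p))|
    · left
      exact ⟨hi, x, hXx, hxW, h6⟩
    · right
      push Not at h6
      exact ⟨hi, x, hXx, hxW, hu h6⟩
  have hE₁' : E₁ ⊆ Ω := by
    rw [hE₁]
    exact (filter_subset _ _).trans hE
  have hE₂' : E₂ ⊆ Ω := by
    rw [hE₂]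
    exact (filter_subset _ _).trans hE
  have hsum : ∑ i ∈ E, w i ≤ ∑ i ∈ E₁, w i + ∑ i ∈ E₂, w i := by
    calc ∑ i ∈ E, w i ≤ ∑ i ∈ E₁ ∪ E₂, w i :=
          sum_le_sum_of_subset_of_nonneg hsplit fun i hi _ => hdec.nonneg i ((union_subset hE₁' hE₂') hi)
      _ ≤ ∑ i ∈ E₁ ∪ E₂, w i + ∑ i ∈ E₁ ∩ E₂, w i := by
          have : 0 ≤ ∑ i ∈ E₁ ∩ E₂, w i := sum_nonneg fun i hi => hdec.nonneg i (hE₁' (mem_inter.1 hi).1)
          linarith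
      _ = _ := sum_union_inter
  have hb1 : ∀ i ∈ E₁, ∃ x : ℕ, X ≤ x ∧ x ^ W ≤ 2 ^ k ∧ ∃ j : ℕ, j ≤ x ∧
        (x : ℝ) ^ (1 / 2 + δ) < |∑ p ∈ pri x, (g j p (v i) - mean p (g j p))| := by
    intro i hi
    rw [hE₁, mem_filter] at hi
    exact hi.2
  have hb2 : ∀ i ∈ E₂, ∃ x : ℕ, X ≤ x ∧ x ^ W ≤ 2 ^ k ∧ ∃ j : ℕ, (j : ℝ) ≤ (x : ℝ) ^ (δ / 2) ∧
        √(max 1 (Vs (g j) (2 * x))) * (x : ℝ) ^ δ < |∑ p ∈ pri x, (g j p (v i) - mean p (g j p))| := by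
    intro i hi
    rw [hE₂, mem_filter] at hi
    exact hi.2
  have k1 := J X (by omega) k ι Ω w v hdec g hg hfew E₁ hE₁' (Or.inl hb1)
  have k2 := J X (by omega) k ι Ω w v hdec g hg hfew E₂ hE₂' (Or.inr hb2)
  linarith

/-- both parameters -/
theorem sv_two_param (c : ℝ) (f : ℝ → ℝ) (hc : 0 < c) (hn : ∀ m : ℕ, c ≠ m) (hf : SmoothlyVarying c f)
    (δ : ℝ) (hδ : 0 < δ) (hδ1 : δ ≤ 1 / 2) : ∃ W : ℕ, 1 ≤ W ∧
    ∀ κ : ℤ, κ ≠ 0 → ∃ X₀ : ℕ, ∀ X : ℕ, X₀ ≤ X → ∀ M : ℕ, ∀ c₀ : ℤ, ∀ g : ℕ → ℕ → ℤ → ℤ → ℝ, (∀ j, Sys2 (g j)) →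
    (∀ a, Few (fun j p n => g j p a n)) →
    (∀ a : ℤ, AlmostV f M κ c₀ (2 * (X : ℝ) ^ (-(δ / 2))) (fun n => ∀ x : ℕ, X ≤ x → (x : ℝ) ^ W ≤ f M →
      (∀ j : ℕ, j ≤ x → |∑ p ∈ pri x, g j p a n - ∑ p ∈ pri x, Av (g j) p a| ≤ (x : ℝ) ^ (1 / 2 + δ)) ∧
      (∀ j : ℕ, (j : ℝ) ≤ (x : ℝ) ^ (δ / 2) → |∑ p ∈ pri x, g j p a n - ∑ p ∈ pri x, Av (g j) p a| ≤
        √(max 1 (∑ p ∈ pri (2 * x), Av (g j) p a)) * (x : ℝ) ^ δ))) ∧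
    AlmostV f M κ c₀ (2 * (X : ℝ) ^ (-(δ / 2))) (fun a => ∀ x : ℕ, X ≤ x → (x : ℝ) ^ W ≤ f M →
      (∀ j : ℕ, j ≤ x → |∑ p ∈ pri x, Av (g j) p a - ∑ p ∈ pri x, mean p (Av (g j) p)| ≤ (x : ℝ) ^ (1 / 2 + δ)) ∧
      (∀ j : ℕ, (j : ℝ) ≤ (x : ℝ) ^ (δ / 2) → |∑ p ∈ pri x, Av (g j) p a - ∑ p ∈ pri x, mean p (Av (g j) p)| ≤
        √(max 1 (∑ p ∈ pri (2 * x), mean p (Av (g j) p))) * (x : ℝ) ^ δ)) := by
  obtain ⟨W, hW, H⟩ := sv_fine c f hc hn hf δ hδ hδ1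
  refine ⟨W, hW, fun κ hκ => ?_⟩
  obtain ⟨X₀, J⟩ := H κ hκ
  refine ⟨X₀, fun X hX M c₀ g hg hfew => ⟨fun a => ?_, ?_⟩⟩
  · have h1 := J X hX M c₀ (fun j p n => g j p a n) (fun j => sys2_fst (g j) (hg j) a) (hfew a)
    refine AlmostV.mono h1 ?_
    intro n hn x hXx hxW
    obtain ⟨h2, h3⟩ := hn x hXx hxW
    constructor
    · intro j hj
      rw [← sum_sub_distrib]
      exact h2 j hj
    · intro j hj
      rw [← sum_sub_distrib]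
      refine (h3 j hj).trans ?_
      apply mul_le_mul_of_nonneg_right _ (by positivity)
      apply Real.sqrt_le_sqrt
      apply max_le_max le_rfl
      exact Vs_le (fun p n => g j p a n) (fun p hp n => (hg j).2 p hp a n) (2 * x)
  · have h1 := J X hX M c₀ (fun j => Av (g j)) (fun j => Av_sysb (g j) (hg j)) (Av_few g hfew)
    refine AlmostV.mono h1 ?_
    intro a hn x hXx hxW
    obtain ⟨h2, h3⟩ := hn x hXx hxW
    constructor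
    · intro j hj
      rw [← sum_sub_distrib]
      exact h2 j hj
    · intro j hj
      rw [← sum_sub_distrib]
      refine (h3 j hj).trans ?_
      apply mul_le_mul_of_nonneg_right _ (by positivity)
      apply Real.sqrt_le_sqrt
      apply max_le_max le_rfl
      exact Vs_le (Av (g j)) (fun p hp n => Av_mem (g j) (hg j) p hp n) (2 * x)

/-- **two parameters** -/
theorem sv_two_count (c : ℝ) (f : ℝ → ℝ) (hc : 0 < c) (hn : ∀ m : ℕ, c ≠ m) (hf : SmoothlyVarying c f)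
    (δ : ℝ) (hδ : 0 < δ) (hδ1 : δ ≤ 1 / 2) : ∃ W : ℕ, 1 ≤ W ∧
    ∀ κ : ℤ, κ ≠ 0 → ∃ X₀ : ℕ, ∀ X : ℕ, X₀ ≤ X → ∀ M : ℕ, ∀ c₀ : ℤ, ∀ R : ℕ → ℕ → ℤ → ℤ → Prop,
    (∀ j p : ℕ, p.Prime → ∀ a a' n n' : ℤ, (p : ℤ) ∣ a - a' → (p : ℤ) ∣ n - n' → (R j p a n ↔ R j p a' n')) →
    (∀ p : ℕ, p.Prime → ∀ (a n : ℤ) (Q : Finset ℕ), (∀ j ∈ Q, R j p a n) → Q.card ≤ Nat.log 2 p + 3) →
    (∀ a : ℤ, AlmostV f M κ c₀ (2 * (X : ℝ) ^ (-(δ / 2))) (fun n => ∀ x : ℕ, X ≤ x → (x : ℝ) ^ W ≤ f M →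
      (∀ j : ℕ, j ≤ x → |(cntR (R j) a n x : ℝ) - ∑ p ∈ pri x, dens (R j) a p| ≤ (x : ℝ) ^ (1 / 2 + δ)) ∧
      (∀ j : ℕ, (j : ℝ) ≤ (x : ℝ) ^ (δ / 2) → |(cntR (R j) a n x : ℝ) - ∑ p ∈ pri x, dens (R j) a p| ≤
        √(max 1 (∑ p ∈ pri (2 * x), dens (R j) a p)) * (x : ℝ) ^ δ))) ∧
    AlmostV f M κ c₀ (2 * (X : ℝ) ^ (-(δ / 2))) (fun a => ∀ x : ℕ, X ≤ x → (x : ℝ) ^ W ≤ f M →
      (∀ j : ℕ, j ≤ x → |∑ p ∈ pri x, dens (R j) a p - ∑ p ∈ pri x, dens2 (R j) p| ≤ (x : ℝ) ^ (1 / 2 + δ)) ∧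
      (∀ j : ℕ, (j : ℝ) ≤ (x : ℝ) ^ (δ / 2) → |∑ p ∈ pri x, dens (R j) a p - ∑ p ∈ pri x, dens2 (R j) p| ≤
        √(max 1 (∑ p ∈ pri (2 * x), dens2 (R j) p)) * (x : ℝ) ^ δ)) := by
  classical
  obtain ⟨W, hW, H⟩ := sv_two_param c f hc hn hf δ hδ hδ1
  refine ⟨W, hW, fun κ hκ => ?_⟩
  obtain ⟨X₀, J⟩ := H κ hκ
  refine ⟨X₀, fun X hX M c₀ R hper hfew => ?_⟩
  have h1 := J X hX M c₀ (fun j => indR (R j)) (by
    intro j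
    constructor
    · intro p hp a a' n n' h h'
      unfold indR
      simp only [hper j p hp a a' n n' h h']
    · intro p _ a n
      unfold indR
      split_ifs <;> norm_num) (by
    intro a p hp n M
    have e : ∀ j, (indR (R j) p a n) ^ 2 = if R j p a n then 1 else 0 := by
      intro j
      unfold indR
      split_ifs <;> norm_num
    simp only [e]
    rw [sum_boole]
    have h2 := hfew p hp a n ((range M).filter (fun j => R j p a n)) (by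
      intro j hj
      exact (mem_filter.1 hj).2)
    exact_mod_cast h2)
  simp only [ind_sum, ind_av, ind_av2] at h1
  exact h1

open Classical in
/-- **twisted counts**: the numbers of the primes `p ≤ x`, `p ≠ 2`, `p ∈ T j`, with a given sign `ε p = ± 1` of the character of `n` -/
theorem sv_twist_count (c : ℝ) (f : ℝ → ℝ) (hc : 0 < c) (hn : ∀ m : ℕ, c ≠ m) (hf : SmoothlyVarying c f)
    (δ : ℝ) (hδ : 0 < δ) (hδ1 : δ ≤ 1 / 2) : ∃ W : ℕ, 1 ≤ W ∧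
    ∀ κ : ℤ, κ ≠ 0 → ∃ X₀ : ℕ, ∀ X : ℕ, X₀ ≤ X → ∀ M : ℕ, ∀ c₀ : ℤ, ∀ (T : ℕ → Set ℕ) (ε : ℕ → ℤ), (∀ p, ε p = 1 ∨ ε p = -1) →
    (∀ p j j', p ∈ T j → p ∈ T j' → j = j') →
    AlmostV f M κ c₀ (2 * (X : ℝ) ^ (-(δ / 2))) (fun n => ∀ x : ℕ, X ≤ x → (x : ℝ) ^ W ≤ f M → ∀ j : ℕ, (j : ℝ) ≤ (x : ℝ) ^ (δ / 2) →
      |(((pri x).filter (fun p => p ≠ 2 ∧ p ∈ T j ∧ jacobiSym n p = ε p)).card : ℝ) -
        1 / 2 * ((pri x).filter (fun p => p ≠ 2 ∧ p ∈ T j)).card| ≤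
        2 * √(max 1 ((((pri (2 * x)).filter (fun p => p ≠ 2 ∧ p ∈ T j)).card : ℝ))) * (x : ℝ) ^ δ) := by
  obtain ⟨W, hW, H⟩ := sv_fine c f hc hn hf δ hδ hδ1
  refine ⟨W, hW, fun κ hκ => ?_⟩
  obtain ⟨X₀, J⟩ := H κ hκ
  obtain ⟨X₁, hX₁⟩ := log_small δ hδ
  refine ⟨X₀ + X₁ + 1, fun X hX M c₀ T ε hε hT => ?_⟩
  obtain ⟨g, hg⟩ : ∃ g : ℕ → ℕ → ℤ → ℝ, g = fun j p n => if p ≠ 2 ∧ p ∈ T j ∧ jacobiSym n p = ε p then 1 else 0 := ⟨_, rfl⟩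
  have h1 := J X (by omega) M c₀ g (by
    intro j
    constructor
    · intro p hp m n h
      rw [hg]
      simp only
      rw [jac_per hp h]
    · intro p _ n
      rw [hg]
      simp only
      split_ifs <;> norm_num) (by
    intro p hp n M
    have h2 : ∑ j ∈ range M, (g j p n) ^ 2 ≤ 1 := by
      have e : ∀ j, (g j p n) ^ 2 = if p ≠ 2 ∧ p ∈ T j ∧ jacobiSym n p = ε p then 1 else 0 := by
        intro j
        rw [hg]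
        simp only
        split_ifs <;> norm_num
      simp only [e]
      rw [sum_boole]
      have h3 : ((range M).filter (fun j => p ≠ 2 ∧ p ∈ T j ∧ jacobiSym n p = ε p)).card ≤ 1 := by
        rw [card_le_one]
        intro j hj j' hj'
        exact hT p j j' (mem_filter.1 hj).2.2.1 (mem_filter.1 hj').2.2.1
      exact_mod_cast h3
    have h3 : (0 : ℝ) ≤ Nat.log 2 p := Nat.cast_nonneg _
    linarith)
  have hmean : ∀ j p, p.Prime → mean p (g j p) = if p ≠ 2 ∧ p ∈ T j then 1 / 2 - 1 / (2 * (p : ℝ)) else 0 := by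
    intro j p hp
    by_cases h : p ≠ 2 ∧ p ∈ T j
    · rw [if_pos h, ← jac_mean hp h.1 (ε p) (hε p)]
      congr 1
      funext n
      rw [hg]
      simp only
      by_cases h4 : jacobiSym n p = ε p
      · rw [if_pos h4, if_pos ⟨h.1, h.2, h4⟩]
      · rw [if_neg h4, if_neg (fun h5 => h4 h5.2.2)]
    · rw [if_neg h]
      have : g j p = fun _ => 0 := by
        funext n
        rw [hg]
        simp only
        rw [if_neg (fun h5 => h ⟨h5.1, h5.2.1⟩)]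
      rw [this]
      unfold mean
      simp
  refine AlmostV.mono h1 ?_
  intro n hn x hXx hxW j hj
  have hx1 : 1 ≤ x := by omega
  have h2 := (hn x hXx hxW).2 j hj
  obtain ⟨V, hV⟩ : ∃ V : ℝ, V = ((((pri (2 * x)).filter (fun p => p ≠ 2 ∧ p ∈ T j)).card : ℝ)) := ⟨_, rfl⟩
  have hVs : Vs (g j) (2 * x) ≤ V := by
    rw [hV, card_filter]
    push_cast
    unfold Vs
    apply sum_le_sum
    intro p hp
    have hpp := (mem_pri.1 hp).2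
    have hp0 : (0 : ℝ) < p := by exact_mod_cast hpp.pos
    unfold mean
    rw [div_le_iff₀ hp0]
    refine (sum_le_card_nsmul (range p) (fun t : ℕ => (g j p (t : ℤ)) ^ 2) (if p ≠ 2 ∧ p ∈ T j then 1 else 0) fun t _ => ?_).trans ?_
    · rw [hg]
      simp only
      by_cases h : p ≠ 2 ∧ p ∈ T j
      · rw [if_pos h]
        split_ifs <;> norm_num
      · rw [if_neg h, if_neg (fun h5 => h ⟨h5.1, h5.2.1⟩)]
        norm_num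
    · rw [card_range, nsmul_eq_mul, mul_comm]
  rw [sum_sub_distrib] at h2
  have e1 : ∑ p ∈ pri x, g j p n = (((pri x).filter (fun p => p ≠ 2 ∧ p ∈ T j ∧ jacobiSym n p = ε p)).card : ℝ) := by
    rw [hg]
    simp only
    rw [sum_boole]
  have e2 : |∑ p ∈ pri x, mean p (g j p) - 1 / 2 * ((pri x).filter (fun p => p ≠ 2 ∧ p ∈ T j)).card| ≤ (x : ℝ) ^ δ := by
    have e3 : 1 / 2 * (((pri x).filter (fun p => p ≠ 2 ∧ p ∈ T j)).card : ℝ) = ∑ p ∈ pri x, if p ≠ 2 ∧ p ∈ T j then (1 / 2 : ℝ) else 0 := by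
      rw [card_filter]
      push_cast
      rw [mul_sum]
      apply sum_congr rfl
      intro p _
      split_ifs <;> norm_num
    rw [e3, sum_congr rfl fun p hp => hmean j p (mem_pri.1 hp).2, ← sum_sub_distrib]
    refine (abs_sum_le_sum_abs _ _).trans ?_
    have h3 : ∀ p ∈ pri x, |(if p ≠ 2 ∧ p ∈ T j then 1 / 2 - 1 / (2 * (p : ℝ)) else 0) - (if p ≠ 2 ∧ p ∈ T j then (1 / 2 : ℝ) else 0)| ≤ 1 / (p : ℝ) := by
      intro p hp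
      have hp0 : (0 : ℝ) < p := by exact_mod_cast (mem_pri.1 hp).2.pos
      split_ifs
      · have : (1 / 2 - 1 / (2 * (p : ℝ)) - 1 / 2) = -(1 / (2 * (p : ℝ))) := by ring
        rw [this, abs_neg, abs_of_pos (by positivity)]
        apply div_le_div_of_nonneg_left (by norm_num) hp0
        linarith
      · rw [sub_zero, abs_zero]
        positivity
    refine (sum_le_sum h3).trans ((recip_sum x).trans (hX₁ x (by omega)))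
  rw [e1] at h2
  rw [← hV]
  have h4 : √(max 1 (Vs (g j) (2 * x))) ≤ √(max 1 V) := Real.sqrt_le_sqrt (max_le_max le_rfl hVs)
  have h5 : 1 ≤ √(max 1 V) := by
    rw [Real.one_le_sqrt]
    exact le_max_left _ _
  have hx0 : (0 : ℝ) ≤ (x : ℝ) ^ δ := by positivity
  have h6 : √(max 1 (Vs (g j) (2 * x))) * (x : ℝ) ^ δ ≤ √(max 1 V) * (x : ℝ) ^ δ := mul_le_mul_of_nonneg_right h4 hx0
  have h7 : (x : ℝ) ^ δ ≤ √(max 1 V) * (x : ℝ) ^ δ := le_mul_of_one_le_left hx0 h5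
  rw [abs_le] at h2 e2 ⊢
  constructor <;> linarith [h2.1, h2.2, e2.1, e2.2]

end Pool.Agent.N193.PS
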