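import Pool.Agent.N193.PS.Conv
import Pool.Agent.N625.DY.I

set_option autoImplicit false

/-!
Goldbach windows near the values.
-/

namespace Pool.Agent.N193.PS

open Finset Filter

open Classical in
/-- the windows of Goldbach representations for all the even integers near almost all the values -/
theorem sv_gold (c : ℝ) (f : ℝ → ℝ) (hc : 0 < c) (hn : ∀ m : ℕ, c ≠ m) (hf : SmoothlyVarying c f) (κ : ℤ) (hκ : κ ≠ 0)
    (B A W U a m₀ : ℕ) (ε : ℝ) (hε : 0 < ε) (P : ℕ → Prop)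
    (hP : ∀ m : ℕ, m₀ ≤ m → 2 ∣ m → Pool.Agent.W93.PG.WinP ε A m → P m) :
    ∃ N₀ : ℕ, ∀ N : ℕ, N₀ ≤ N → ∀ x : ℕ, (∀ n ∈ Icc 1 x, f n ≤ N) → (N : ℝ) ≤ Real.log N ^ a * f x →
      ∀ c₀ : ℤ, |c₀| ≤ B * N →
        (((Icc 1 x).filter fun n : ℕ => ¬ ∀ m : ℤ, ((|m - (c₀ + κ * (⌊f n⌋₊ : ℕ))| : ℤ) : ℝ) ≤ Real.log N ^ W →
          0 < m → Even m → P m.toNat).card : ℝ) ≤ x / Real.log N ^ U := by
  have hsv := sv_of c hc hn f hf
  obtain ⟨Q, hQ⟩ : ∃ Q : ℤ → Prop, Q = fun m => (0 < m → Even m → P m.toNat) := ⟨_, rfl⟩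
  obtain ⟨k₀, h0⟩ := Pool.Agent.N625.DY.cls_gold (hsv.clsV (a + 1) κ hκ).toCls B A W (U + 1) m₀ ε hε P hP Q (fun y hy => by
      rw [hQ] at hy
      push Not at hy
      exact ⟨hy.1, hy.2.1, hy.2.2⟩)
  refine ⟨2 ^ k₀ + 4, fun N hN x hup hlow c₀ hc₀ => ?_⟩
  rcases Nat.eq_zero_or_pos x with rfl | hx
  · simp
  have hk2 : 0 < 2 ^ k₀ := by positivity
  have hN4 : 4 ≤ N := by omega
  have hNk : N ≤ 2 ^ dg N := (lt_dg N).le
  obtain ⟨hval, hsize⟩ := conv (fun m => iteratedDeriv m f) a N x hN4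
    (by simpa only [iteratedDeriv_zero] using hup) (by simpa only [iteratedDeriv_zero] using hlow)
  have h1 := count_of (a + 1) (dg N) x hx hval hsize
    (fun v => ∀ y : ℤ, |y - (c₀ + κ * (v : ℕ))| ≤ ((dg N : ℕ) : ℤ) ^ W → Q y) (1 / (dg N : ℝ) ^ (U + 1))
    (fun p hp => h0 (dg N) (dg_large k₀ N (by omega)) p hp c₀ (by
        refine hc₀.trans (mul_le_mul_of_nonneg_left ?_ (Nat.cast_nonneg _))
        exact_mod_cast hNk))
  refine le_trans ?_ (h1.trans (scale_x N U x hN4))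
  apply Nat.cast_le.2
  apply card_le_card
  intro n hn'
  rw [mem_filter] at hn' ⊢
  refine ⟨hn'.1, fun hcon => hn'.2 ?_⟩
  intro m hm
  have h2 : |m - (c₀ + κ * (⌊f n⌋₊ : ℕ))| ≤ ((dg N : ℕ) : ℤ) ^ W := by
    have h3 : ((|m - (c₀ + κ * (⌊f n⌋₊ : ℕ))| : ℤ) : ℝ) ≤ ((((dg N : ℕ) : ℤ) ^ W : ℤ) : ℝ) := by
      refine hm.trans ?_
      push_cast
      exact pow_le_pow_left₀ (Real.log_natCast_nonneg N) (log_le_dg N (by omega)) W
    exact_mod_cast h3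
  rw [val_iter] at hcon
  have h4 := hcon m h2
  rw [hQ] at h4
  exact h4

end Pool.Agent.N193.PS
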