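import Pool.Agent.N193.PS.Tl2
import Pool.Agent.N193.PS.Gold

set_option autoImplicit false

/-!
Goldbach windows for the multiples of the integers near the values.
-/

namespace Pool.Agent.N193.PS

open Finset Filter

open Classical in
/-- Goldbach windows for the integers near the multiples of almost all the values -/
theorem sv_mult (c : ℝ) (f : ℝ → ℝ) (hc : 0 < c) (hn : ∀ m : ℕ, c ≠ m) (hf : SmoothlyVarying c f) (κ : ℤ) (hκ : κ ≠ 0)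
    (B J A W U a m₀ : ℕ) (ε : ℝ) (hε : 0 < ε) (P : ℕ → Prop)
    (hP : ∀ m : ℕ, m₀ ≤ m → 2 ∣ m → Pool.Agent.W93.PG.WinP ε A m → P m) :
    ∃ N₀ : ℕ, ∀ N : ℕ, N₀ ≤ N → ∀ x : ℕ, (∀ n ∈ Icc 1 x, f n ≤ N) → (N : ℝ) ≤ Real.log N ^ a * f x →
      ∀ c₀ : ℤ, |c₀| ≤ B * N →
        (((Icc 1 x).filter fun n : ℕ => ¬ ∀ h : ℕ, 1 ≤ h → (h : ℝ) ≤ Real.log N ^ J →
          ∀ m : ℤ, ((|m - (c₀ + κ * (⌊f n⌋₊ : ℕ))| : ℤ) : ℝ) ≤ Real.log N ^ W →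
          0 < (h : ℤ) * m → 2 ∣ (h : ℤ) * m → P ((h : ℤ) * m).toNat).card : ℝ) ≤ x / Real.log N ^ U := by
  have hsv := sv_of c hc hn f hf
  obtain ⟨k₀, h0⟩ := Pool.Agent.N625.PT.t_windows (hsv.tcls (a + 1) κ hκ) B J W A (U + 1) m₀ ε hε P hP
  refine ⟨2 ^ k₀ + 4, fun N hN x hup hlow c₀ hc₀ => ?_⟩
  rcases Nat.eq_zero_or_pos x with rfl | hx
  · simp
  have hk2 : 0 < 2 ^ k₀ := by positivity
  have hN4 : 4 ≤ N := by omega
  have hNk : N ≤ 2 ^ dg N := (lt_dg N).le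
  obtain ⟨hval, hsize⟩ := conv (fun m => iteratedDeriv m f) a N x hN4
    (by simpa only [iteratedDeriv_zero] using hup) (by simpa only [iteratedDeriv_zero] using hlow)
  have hpow : ∀ j : ℕ, Real.log N ^ j ≤ (dg N : ℝ) ^ j := fun j =>
    pow_le_pow_left₀ (Real.log_natCast_nonneg N) (log_le_dg N (by omega)) j
  obtain ⟨Q, hQ⟩ : ∃ Q : ℕ → Prop, Q = fun v => ∀ h : ℕ, 1 ≤ h → h ≤ dg N ^ J → ∀ s : ℤ, |s| ≤ ((dg N : ℕ) : ℤ) ^ W →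
      0 < (h : ℤ) * (c₀ + s + κ * (v : ℕ)) → 2 ∣ (h : ℤ) * (c₀ + s + κ * (v : ℕ)) →
      P ((h : ℤ) * (c₀ + s + κ * (v : ℕ))).toNat := ⟨_, rfl⟩
  have h1 := count_of (a + 1) (dg N) x hx hval hsize Q (1 / (dg N : ℝ) ^ (U + 1))
    (fun p hp => h0 (dg N) (dg_large k₀ N (by omega)) p hp c₀ (by
        refine hc₀.trans (mul_le_mul_of_nonneg_left ?_ (Nat.cast_nonneg _))
        exact_mod_cast hNk) _ (fun v hv => by
          rw [hQ] at hv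
          push Not at hv
          obtain ⟨h, q1, q2, s, q3, q4, q5, q6⟩ := hv
          exact ⟨h, q1, q2, s, q3, q4, q5, q6⟩))
  refine le_trans ?_ (h1.trans (scale_x N U x hN4))
  apply Nat.cast_le.2
  apply card_le_card
  intro n hn'
  rw [mem_filter] at hn' ⊢
  refine ⟨hn'.1, fun hcon => hn'.2 ?_⟩
  intro h hh1 hh2 m hm hm0 hm2
  rw [val_iter, hQ] at hcon
  have e : c₀ + (m - (c₀ + κ * (⌊f n⌋₊ : ℕ))) + κ * (⌊f n⌋₊ : ℕ) = m := by ring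
  have h3 := hcon h hh1 (by
    have : (h : ℝ) ≤ ((dg N ^ J : ℕ) : ℝ) := by
      push_cast
      exact hh2.trans (hpow J)
    exact_mod_cast this) (m - (c₀ + κ * (⌊f n⌋₊ : ℕ))) (by
    have h3 : ((|m - (c₀ + κ * (⌊f n⌋₊ : ℕ))| : ℤ) : ℝ) ≤ ((((dg N : ℕ) : ℤ) ^ W : ℤ) : ℝ) := by
      refine hm.trans ?_
      push_cast
      exact hpow W
    exact_mod_cast h3)
  rw [e] at h3
  exact h3 hm0 hm2

end Pool.Agent.N193.PS
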