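import Pool.Agent.N193.PS.EnV
import Pool.Agent.N193.PS.Ens
import Pool.Agent.N193.PS.Conv
import Pool.Agent.Results.MP_e0aac0_nt.AlmostAllShifts
import Pool.Agent.Results.MP_e0aac0_nt.LocalLaw

set_option autoImplicit false

/-!
Independence of the values of `Ω` at the integers near the values of smoothly varying functions.
-/

namespace Pool.Agent.N193.PS

open Finset Filter Topology
open Pool.Agent.H373R2.T7 (energy)
open ArithmeticFunction (cardFactors)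
open Pool.Agent.Results.MP_e0aac0_nt

/-- the families are spread -/
lemma sv_good_fam (c : ℝ) (f : ℝ → ℝ) (hc : 0 < c) (hn : ∀ m : ℕ, c ≠ m) (hf : SmoothlyVarying c f) (κ : ℕ) (hκ : 1 ≤ κ) (B : ℕ) :
    ∃ p : ℕ, ∃ C : ℝ, 0 < C ∧ ∃ N₀ : ℕ, ∀ N : ℕ, N₀ ≤ N → ∀ x : ℕ, (∀ n ∈ Icc 1 x, f n ≤ N) → (N : ℝ) ≤ B * f x →
      ∀ c₀ r : ℕ, c₀ ≤ B * N → r ≤ N →
      (∀ m ∈ Icc 1 x, c₀ + κ * ⌊f m⌋₊ + r ≤ (B + κ + 1) * N) ∧
      (energy p x (fun m => ((c₀ + κ * ⌊f m⌋₊ + r : ℕ) : ℤ)) : ℝ) * N ≤ C * (x : ℝ) ^ (2 * p) := by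
  have h := sv_of c hc hn f hf
  obtain ⟨p, hp, C₁, hC₁, X₀, hE⟩ := h.energy_val
  simp only [iteratedDeriv_zero] at hE
  obtain ⟨D, hD⟩ : ∃ D : ℝ, D = 1 + ∑ y ∈ range X₀, |f y| := ⟨_, rfl⟩
  have hsmall : ∀ y : ℕ, y < X₀ → |f y| ≤ D := by
    intro y hy
    have := single_le_sum (f := fun y : ℕ => |f y|) (fun _ _ => abs_nonneg _) (mem_range.2 hy)
    rw [hD]
    linarith
  refine ⟨p, B * C₁ + 1, by positivity, ⌈B * D⌉₊ + 1, fun N hN x hup hlow c₀ r hc₀ hr => ⟨fun m hm => ?_, ?_⟩⟩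
  · have h1 : ⌊f m⌋₊ ≤ N := by
      rcases le_or_gt 0 (f m) with h2 | h2
      · have := (Nat.floor_le h2).trans (hup m hm)
        exact_mod_cast this
      · rw [Nat.floor_of_nonpos h2.le]
        exact Nat.zero_le _
    nlinarith [Nat.mul_le_mul_left κ h1]
  · have hN0 : (0 : ℝ) < N := by exact_mod_cast (by omega : 0 < N)
    have hx : X₀ ≤ x := by
      by_contra hcon
      push Not at hcon
      have h3 := (le_abs_self _).trans (hsmall x hcon)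
      have h4 : (N : ℝ) ≤ B * D := hlow.trans (mul_le_mul_of_nonneg_left h3 (Nat.cast_nonneg _))
      have h5 : (N : ℝ) ≤ ⌈B * D⌉₊ := h4.trans (Nat.le_ceil _)
      have h6 : N ≤ ⌈B * D⌉₊ := by exact_mod_cast h5
      omega
    have h1 : energy p x (fun m => ((c₀ + κ * ⌊f m⌋₊ + r : ℕ) : ℤ)) =
        energy p x (fun n => ((val (fun m => iteratedDeriv m f) n : ℕ) : ℤ)) := by
      have e1 : (fun m : ℕ => ((c₀ + κ * ⌊f m⌋₊ + r : ℕ) : ℤ)) =
          (fun m => ((c₀ + r : ℕ) : ℤ) + (κ : ℤ) * ((val (fun m => iteratedDeriv m f) m : ℕ) : ℤ)) := by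
        funext m
        rw [val_iter]
        push_cast
        ring
      rw [e1, Pool.Agent.TH823.Fam.energy_translate p x (fun m => (κ : ℤ) * ((val (fun m => iteratedDeriv m f) m : ℕ) : ℤ)),
        energy_mul p x (fun m => ((val (fun m => iteratedDeriv m f) m : ℕ) : ℤ)) κ (by exact_mod_cast (by omega : κ ≠ 0))]
    rw [h1]
    have h3 := hE x hx
    have h4 : (0 : ℝ) ≤ (energy p x (fun n => ((val (fun m => iteratedDeriv m f) n : ℕ) : ℤ)) : ℝ) := Nat.cast_nonneg _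
    have h5 : (0 : ℝ) ≤ (x : ℝ) ^ (2 * p) := by positivity
    calc (energy p x (fun n => ((val (fun m => iteratedDeriv m f) n : ℕ) : ℤ)) : ℝ) * N ≤
          (energy p x (fun n => ((val (fun m => iteratedDeriv m f) n : ℕ) : ℤ)) : ℝ) * (B * f x) := mul_le_mul_of_nonneg_left hlow h4
      _ = B * ((energy p x (fun n => ((val (fun m => iteratedDeriv m f) n : ℕ) : ℤ)) : ℝ) * f x) := by ring
      _ ≤ B * (C₁ * (x : ℝ) ^ (2 * p)) := mul_le_mul_of_nonneg_left h3 (Nat.cast_nonneg _)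
      _ ≤ (B * C₁ + 1) * (x : ℝ) ^ (2 * p) := by nlinarith

open Classical in
/-- the theorem on the values of `Ω` near the values of the functions -/
theorem sv_omega (k : ℕ) (b : Fin k → ℝ) (g : Fin k → ℝ → ℝ) (hb : ∀ i, 0 < b i) (hnb : ∀ i, ∀ m : ℕ, b i ≠ m)
    (hg : ∀ i, SmoothlyVarying (b i) (g i)) (κ : Fin k → ℕ) (hκ : ∀ i, 1 ≤ κ i) (j B A : ℕ) :
    ∃ θ : ℝ, 0 < θ ∧ ∃ C : ℝ, 0 < C ∧ ∃ N₀ : ℕ, ∀ N : ℕ, N₀ ≤ N →
      ∀ f : ℕ → ℕ, (∀ n, (f n : ℝ) ≤ Real.log N ^ θ) → ∀ t : Fin j → ℕ, (∀ i, t i ≤ B * N) →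
      ∀ x : Fin k → ℕ, (∀ i, ∀ n ∈ Icc 1 (x i), g i n ≤ N) → (∀ i, (N : ℝ) ≤ B * g i (x i)) →
      ∀ c : Fin k → ℕ, (∀ i, c i ≤ B * N) →
      ∃ E ⊆ Fintype.piFinset (fun i => Icc 1 (x i)), (E.card : ℝ) ≤ (∏ i, (x i : ℝ)) * Real.log N ^ (-θ) ∧
        ∀ m ∈ Fintype.piFinset (fun i => Icc 1 (x i)), m ∉ E →
        ∀ h : Fin k → ℕ, (∀ i, c i + κ i * ⌊g i (m i)⌋₊ ≤ h i ∧ (h i : ℝ) ≤ c i + κ i * (⌊g i (m i)⌋₊ : ℕ) + Real.log N ^ θ) →
        (∀ a : ℕ → (Fin j → ℕ) → (Fin k → ℕ) → ℂ, (∀ c u l, ‖a c u l‖ ≤ 1) →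
          ‖(1 / (N : ℂ)) * ∑ n ∈ Icc 1 N, a (f n) (fun i => cardFactors (n + t i)) (fun i => cardFactors (n + h i)) -
            (1 / (N : ℂ)) * ∑ n ∈ Icc 1 N, AlmostAllShifts.mean N k (a (f n) (fun i => cardFactors (n + t i)))‖ ≤
              C * AlmostAllShifts.rate N) ∧
        (∀ w : ℕ → (Fin j → ℕ) → ℝ, (∀ c u, 0 ≤ w c u ∧ w c u ≤ 1) → ∀ G : ℕ → (Fin j → ℕ) → Fin k → ℕ,
          |(1 / (N : ℝ)) * ∑ n ∈ Icc 1 N, w (f n) (fun i => cardFactors (n + t i)) *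
              ((if ∀ i, cardFactors (n + h i) = G (f n) (fun i => cardFactors (n + t i)) i then (1 : ℝ) else 0) -
                ∏ i, LocalLaw.dens N (G (f n) (fun i => cardFactors (n + t i)) i))| ≤
            C * (Real.log (LocalLaw.ll N) / √(LocalLaw.ll N) ^ (k + 1)) *
              ((1 / (N : ℝ)) * ∑ n ∈ Icc 1 N, w (f n) (fun i => cardFactors (n + t i))) + C / LocalLaw.ll N ^ A) := by
  choose p C₁ hC₁ N₁ hfam using fun i => sv_good_fam (b i) (g i) (hb i) (hnb i) (hg i) (κ i) (hκ i) B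
  obtain ⟨P, hP⟩ : ∃ P, P = ∑ i, p i := ⟨_, rfl⟩
  obtain ⟨B', hB'⟩ : ∃ B', B' = B + (∑ i, κ i) + 1 := ⟨_, rfl⟩
  obtain ⟨D, hD⟩ : ∃ D, D = ∑ i, C₁ i := ⟨_, rfl⟩
  obtain ⟨Nt, hNt⟩ : ∃ Nt, Nt = ∑ i, N₁ i := ⟨_, rfl⟩
  have hPi : ∀ i, p i ≤ P := fun i => by rw [hP]; exact single_le_sum (fun _ _ => Nat.zero_le _) (mem_univ i)
  have hκi : ∀ i, κ i ≤ ∑ i, κ i := fun i => single_le_sum (fun _ _ => Nat.zero_le _) (mem_univ i)
  have hNi : ∀ i, N₁ i ≤ Nt := fun i => by rw [hNt]; exact single_le_sum (fun _ _ => Nat.zero_le _) (mem_univ i)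
  have hDi : ∀ i, C₁ i ≤ D := fun i => by rw [hD]; exact single_le_sum (fun i _ => (hC₁ i).le) (mem_univ i)
  obtain ⟨κ₁, hκ₁, C₂, hC₂, M₁, hm1⟩ := AlmostAllShifts.main j k P B' D
  obtain ⟨κ₂, hκ₂, C₃, hC₃, M₂, hm2⟩ := LocalLaw.main j k P B' A D
  obtain ⟨κ₀, hκ₀⟩ : ∃ κ₀, κ₀ = min κ₁ κ₂ := ⟨_, rfl⟩
  have hκ₀0 : 0 < κ₀ := by rw [hκ₀]; exact lt_min hκ₁ hκ₂
  obtain ⟨θ, hθ⟩ : ∃ θ : ℝ, θ = κ₀ / (2 * (k + 1)) := ⟨_, rfl⟩
  have hθ0 : 0 < θ := by rw [hθ]; positivity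
  have hθκ : θ * (k + 1) = κ₀ / 2 := by rw [hθ]; field_simp
  have hθle : θ ≤ κ₀ := by
    have : θ ≤ θ * (k + 1) := le_mul_of_one_le_right hθ0.le (by
      have : (0 : ℝ) ≤ k := Nat.cast_nonneg _
      linarith)
    linarith
  have hev : ∀ᶠ N : ℕ in atTop, (2 : ℝ) ^ (k + 1) ≤ Real.log N ^ (κ₀ / 2) ∧ 1 ≤ Real.log N ∧ Real.log N ^ θ ≤ N ∧
      1 ≤ LocalLaw.ll N := by
    have e1 : Tendsto (fun N : ℕ => Real.log N) atTop atTop := Real.tendsto_log_atTop.comp (tendsto_natCast_atTop_atTop (R := ℝ))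
    have e2 := ((tendsto_rpow_atTop (show 0 < κ₀ / 2 by positivity)).comp e1).eventually_ge_atTop ((2 : ℝ) ^ (k + 1))
    have e3 := (isLittleO_log_rpow_rpow_atTop θ (show (0 : ℝ) < 1 by norm_num)).bound one_pos
    have e4 := (tendsto_natCast_atTop_atTop (R := ℝ)).eventually e3
    have e5 := (Real.tendsto_log_atTop.comp e1).eventually_ge_atTop 1
    filter_upwards [e2, e1.eventually_ge_atTop 1, e4, e5] with N f1 f2 f3 f4
    refine ⟨f1, f2, ?_, f4⟩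
    rw [Real.norm_of_nonneg (by positivity), Real.norm_of_nonneg (by positivity), one_mul, Real.rpow_one] at f3
    exact f3
  obtain ⟨M₃, hM₃⟩ := eventually_atTop.1 hev
  refine ⟨θ, hθ0, max C₂ C₃, lt_max_of_lt_left hC₂, Nt + M₁ + M₂ + M₃ + 3, fun N hN f hf t ht x hup hlow c hc => ?_⟩
  obtain ⟨q1, q2, q3, q4⟩ := hM₃ N (by omega)
  have hL0 : 0 < Real.log N := by linarith
  obtain ⟨R, hR⟩ : ∃ R : ℕ, R = ⌊Real.log N ^ θ⌋₊ := ⟨_, rfl⟩
  have hR1 : (R : ℝ) ≤ Real.log N ^ θ := by rw [hR]; exact Nat.floor_le (by positivity)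
  have hRN : R ≤ N := by
    have : (R : ℝ) ≤ N := hR1.trans q3
    exact_mod_cast this
  have hBB : B * N ≤ B' * N := Nat.mul_le_mul_right _ (by rw [hB']; omega)
  have hlab1 : ∀ n, (f n : ℝ) ≤ Real.log N ^ κ₁ := fun n => (hf n).trans
    (Real.rpow_le_rpow_of_exponent_le q2 (hθle.trans (by rw [hκ₀]; exact min_le_left _ _)))
  have hlab2 : ∀ n, (f n : ℝ) ≤ Real.log N ^ κ₂ := fun n => (hf n).trans
    (Real.rpow_le_rpow_of_exponent_le q2 (hθle.trans (by rw [hκ₀]; exact min_le_right _ _)))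
  -- the families are spread
  have hsp : ∀ r : Fin k → ℕ, (∀ i, r i ≤ R) → ∀ i, ∃ p' ≤ P, (∀ m ∈ Icc 1 (x i), c i + κ i * ⌊g i m⌋₊ + r i ≤ B' * N) ∧
      (energy p' (x i) (fun m => ((c i + κ i * ⌊g i m⌋₊ + r i : ℕ) : ℤ)) : ℝ) * N ≤ D * (x i : ℝ) ^ (2 * p') := by
    intro r hr i
    obtain ⟨u1, u2⟩ := hfam i N (by have := hNi i; omega) (x i) (hup i) (hlow i) (c i) (r i) (hc i) ((hr i).trans hRN)
    refine ⟨p i, hPi i, fun m hm => (u1 m hm).trans (Nat.mul_le_mul_right _ ?_), u2.trans ?_⟩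
    · rw [hB']
      have := hκi i
      omega
    · exact mul_le_mul_of_nonneg_right (hDi i) (by positivity)
  have hexr : ∀ r : Fin k → ℕ, ∃ E ⊆ Fintype.piFinset (fun i => Icc 1 (x i)),
      (E.card : ℝ) ≤ 2 * ((∏ i, (x i : ℝ)) * Real.log N ^ (-κ₀)) ∧ ((∀ i, r i ≤ R) →
        ∀ m ∈ Fintype.piFinset (fun i => Icc 1 (x i)), m ∉ E →
        (∀ a : ℕ → (Fin j → ℕ) → (Fin k → ℕ) → ℂ, (∀ c u l, ‖a c u l‖ ≤ 1) →
          ‖(1 / (N : ℂ)) * ∑ n ∈ Icc 1 N, a (f n) (fun i => cardFactors (n + t i)) (fun i => cardFactors (n + (c i + κ i * ⌊g i (m i)⌋₊ + r i))) -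
            (1 / (N : ℂ)) * ∑ n ∈ Icc 1 N, AlmostAllShifts.mean N k (a (f n) (fun i => cardFactors (n + t i)))‖ ≤
              C₂ * AlmostAllShifts.rate N) ∧
        (∀ w : ℕ → (Fin j → ℕ) → ℝ, (∀ c u, 0 ≤ w c u ∧ w c u ≤ 1) → ∀ G : ℕ → (Fin j → ℕ) → Fin k → ℕ,
          |(1 / (N : ℝ)) * ∑ n ∈ Icc 1 N, w (f n) (fun i => cardFactors (n + t i)) *
              ((if ∀ i, cardFactors (n + (c i + κ i * ⌊g i (m i)⌋₊ + r i)) = G (f n) (fun i => cardFactors (n + t i)) i then (1 : ℝ) else 0) -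
                ∏ i, LocalLaw.dens N (G (f n) (fun i => cardFactors (n + t i)) i))| ≤
            C₃ * (Real.log (LocalLaw.ll N) / √(LocalLaw.ll N) ^ (k + 1)) *
              ((1 / (N : ℝ)) * ∑ n ∈ Icc 1 N, w (f n) (fun i => cardFactors (n + t i))) + C₃ / LocalLaw.ll N ^ A)) := by
    intro r
    have hpos : 0 ≤ (∏ i, (x i : ℝ)) * Real.log N ^ (-κ₀) := by positivity
    by_cases hr : ∀ i, r i ≤ R
    · obtain ⟨E₁, s1, s2, s3⟩ := hm1 N (by omega) f hlab1 t (fun i => (ht i).trans hBB) x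
        (fun i m => c i + κ i * ⌊g i m⌋₊ + r i) (fun i => by
          obtain ⟨p', v1, v2, v3⟩ := hsp r hr i
          refine ⟨v2, p', v1, ?_⟩
          rw [AlmostAllShifts.energy_eq]
          exact v3)
      obtain ⟨E₂, t1, t2, t3⟩ := hm2 N (by omega) f hlab2 t (fun i => (ht i).trans hBB) x
        (fun i m => c i + κ i * ⌊g i m⌋₊ + r i) (fun i => by
          obtain ⟨p', v1, v2, v3⟩ := hsp r hr i
          refine ⟨v2, p', v1, ?_⟩
          rw [LocalLaw.energy_eq]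
          exact v3)
      refine ⟨E₁ ∪ E₂, union_subset s1 t1, ?_, fun _ m hm hmE => ?_⟩
      · have e1 : ((E₁ ∪ E₂).card : ℝ) ≤ E₁.card + E₂.card := by exact_mod_cast card_union_le _ _
        have e2 : Real.log (N : ℝ) ^ (-κ₁) ≤ Real.log N ^ (-κ₀) :=
          Real.rpow_le_rpow_of_exponent_le q2 (neg_le_neg (by rw [hκ₀]; exact min_le_left _ _))
        have e3 : Real.log (N : ℝ) ^ (-κ₂) ≤ Real.log N ^ (-κ₀) :=
          Real.rpow_le_rpow_of_exponent_le q2 (neg_le_neg (by rw [hκ₀]; exact min_le_right _ _))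
        have e4 : (0 : ℝ) ≤ ∏ i, (x i : ℝ) := prod_nonneg fun _ _ => Nat.cast_nonneg _
        have e5 := mul_le_mul_of_nonneg_left e2 e4
        have e6 := mul_le_mul_of_nonneg_left e3 e4
        linarith
      · rw [mem_union, not_or] at hmE
        exact ⟨s3 m hm hmE.1, t3 m hm hmE.2⟩
    · exact ⟨∅, empty_subset _, by simp; positivity, fun h => absurd h hr⟩
  choose E hE1 hE2 hE3 using hexr
  refine ⟨(Fintype.piFinset fun _ : Fin k => range (R + 1)).biUnion E, biUnion_subset.2 fun r _ => hE1 r, ?_,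
    fun m hm hmE h hh => ?_⟩
  · have e1 : (((Fintype.piFinset fun _ : Fin k => range (R + 1)).biUnion E).card : ℝ) ≤
        ∑ r ∈ Fintype.piFinset (fun _ : Fin k => range (R + 1)), ((E r).card : ℝ) := by exact_mod_cast card_biUnion_le
    refine e1.trans ((sum_le_sum fun r _ => hE2 r).trans ?_)
    rw [sum_const, Fintype.card_piFinset, prod_const, card_range, card_univ, Fintype.card_fin, nsmul_eq_mul]
    have e2 : (((R + 1) ^ k : ℕ) : ℝ) ≤ 2 ^ k * Real.log N ^ (θ * k) := by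
      push_cast
      have e3 : (R : ℝ) + 1 ≤ 2 * Real.log N ^ θ := by
        have : (1 : ℝ) ≤ Real.log N ^ θ := Real.one_le_rpow q2 hθ0.le
        linarith
      calc ((R : ℝ) + 1) ^ k ≤ (2 * Real.log N ^ θ) ^ k := pow_le_pow_left₀ (by positivity) e3 _
        _ = 2 ^ k * (Real.log N ^ θ) ^ k := mul_pow _ _ _
        _ = 2 ^ k * Real.log N ^ (θ * k) := by rw [← Real.rpow_natCast (Real.log N ^ θ) k, ← Real.rpow_mul hL0.le]
    have e4 : (0 : ℝ) ≤ ∏ i, (x i : ℝ) := prod_nonneg fun _ _ => Nat.cast_nonneg _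
    have e5 : (2 : ℝ) ^ k * Real.log N ^ (θ * k) * (2 * Real.log N ^ (-κ₀)) ≤ Real.log N ^ (-θ) := by
      have f1 : (2 : ℝ) ^ k * Real.log N ^ (θ * k) * (2 * Real.log N ^ (-κ₀)) =
          2 ^ (k + 1) * (Real.log N ^ (θ * k) * Real.log N ^ (-κ₀)) := by ring
      rw [f1]
      calc (2 : ℝ) ^ (k + 1) * (Real.log N ^ (θ * k) * Real.log N ^ (-κ₀)) ≤
            Real.log N ^ (κ₀ / 2) * (Real.log N ^ (θ * k) * Real.log N ^ (-κ₀)) := mul_le_mul_of_nonneg_right q1 (by positivity)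
        _ = Real.log N ^ (-θ) := by
            rw [← Real.rpow_add hL0, ← Real.rpow_add hL0]
            congr 1
            have : θ * k + θ = κ₀ / 2 := by rw [← hθκ]; ring
            linarith
    calc (((R + 1) ^ k : ℕ) : ℝ) * (2 * ((∏ i, (x i : ℝ)) * Real.log N ^ (-κ₀))) ≤
          (2 ^ k * Real.log N ^ (θ * k)) * (2 * ((∏ i, (x i : ℝ)) * Real.log N ^ (-κ₀))) :=
            mul_le_mul_of_nonneg_right e2 (by positivity)
      _ = (∏ i, (x i : ℝ)) * (2 ^ k * Real.log N ^ (θ * k) * (2 * Real.log N ^ (-κ₀))) := by ring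
      _ ≤ _ := mul_le_mul_of_nonneg_left e5 e4
  · obtain ⟨r, hr⟩ : ∃ r : Fin k → ℕ, r = fun i => h i - (c i + κ i * ⌊g i (m i)⌋₊) := ⟨_, rfl⟩
    have hrh : ∀ i, c i + κ i * ⌊g i (m i)⌋₊ + r i = h i := by
      intro i
      have := (hh i).1
      rw [hr]
      simp only
      omega
    have hrR : ∀ i, r i ≤ R := by
      intro i
      rw [hR]
      apply Nat.le_floor
      have e1 := (hh i).2
      have e2 : (h i : ℝ) = c i + κ i * (⌊g i (m i)⌋₊ : ℕ) + r i := by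
        have := hrh i
        exact_mod_cast this.symm
      linarith
    have hmEr : m ∉ E r := by
      intro hcon
      apply hmE
      rw [mem_biUnion]
      refine ⟨r, ?_, hcon⟩
      rw [Fintype.mem_piFinset]
      intro i
      rw [mem_range]
      have := hrR i
      omega
    obtain ⟨w1, w2⟩ := hE3 r hrR m hm hmEr
    simp only [hrh] at w1 w2
    have hrate : 0 ≤ AlmostAllShifts.rate N := by
      have := (norm_nonneg _).trans (w1 (fun _ _ _ => 0) (by intro c u l; simp))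
      by_contra hcon
      push Not at hcon
      have : C₂ * AlmostAllShifts.rate N < 0 := mul_neg_of_pos_of_neg hC₂ hcon
      linarith
    refine ⟨fun a ha => (w1 a ha).trans (mul_le_mul_of_nonneg_right (le_max_left _ _) hrate), fun w hw G => (w2 w hw G).trans ?_⟩
    have g1 : 0 ≤ Real.log (LocalLaw.ll N) / √(LocalLaw.ll N) ^ (k + 1) := div_nonneg (Real.log_nonneg q4) (by positivity)
    have g2 : 0 ≤ (1 / (N : ℝ)) * ∑ n ∈ Icc 1 N, w (f n) (fun i => cardFactors (n + t i)) :=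
      mul_nonneg (by positivity) (sum_nonneg fun n _ => (hw _ _).1)
    have g3 : 0 < LocalLaw.ll N ^ A := by
      have : 0 < LocalLaw.ll N := by linarith
      positivity
    have g4 := le_max_right C₂ C₃
    exact add_le_add (mul_le_mul_of_nonneg_right (mul_le_mul_of_nonneg_right g4 g1) g2) (div_le_div_of_nonneg_right g4 g3.le)

end Pool.Agent.N193.PS
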