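import Pool.Agent.N193.PS.Near
import Pool.Agent.N193.PS.Conv
import Pool.Agent.N469.TL.Pair1

set_option autoImplicit false

/-!
Prime pairs whose difference is an integer near a value, at the scale of the values.
-/

namespace Pool.Agent.N193.PS

open Finset Filter Topology
open Pool.Agent.W93.TD (HLs)

open Classical in
/-- prime pairs, one shift -/
theorem sv_pair1 (c : ℝ) (f : ℝ → ℝ) (hc : 0 < c) (hn : ∀ m : ℕ, c ≠ m) (hf : SmoothlyVarying c f) (κ : ℤ) (hκ : κ ≠ 0)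
    (B Bm U a : ℕ) (ε : ℝ) (hε : 0 < ε) :
    ∃ N₀ : ℕ, ∀ N : ℕ, N₀ ≤ N → ∀ x : ℕ, (∀ n ∈ Icc 1 x, f n ≤ N) → (N : ℝ) ≤ Real.log N ^ a * f x →
      ∀ M : ℕ, M ≤ N → N ≤ Bm * M → ∀ c₀ : ℤ, |c₀| ≤ B * N →
        (((Icc 1 x).filter fun n : ℕ => ¬ (0 < c₀ + κ * (⌊f n⌋₊ : ℕ) →
          HLs ε (U + 1) M (fun _ : Fin 1 => (c₀ + κ * (⌊f n⌋₊ : ℕ)).toNat))).card : ℝ) ≤ x / Real.log N ^ U := by
  have hsv := sv_of c hc hn f hf
  obtain ⟨C₀, m₀, htl⟩ := hsv.tlaw (a + 1) κ hκ 1 (2 * (2 * (U + 1) + 5 + 1 + 2) + 6)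
  obtain ⟨e, he⟩ : ∃ e, e = B + κ.natAbs + 2 := ⟨_, rfl⟩
  obtain ⟨K₀, h3⟩ := Pool.Agent.Y885.tl_tuples 1 2 3 C₀ (2 ^ (e + 1) * Bm) (U + 1) le_rfl le_rfl (by norm_num) ε hε
  refine ⟨2 ^ (m₀ + K₀ + 2 ^ e) + 4, fun N hN x hup hlow M hMN hNM c₀ hc₀ => ?_⟩
  rcases Nat.eq_zero_or_pos x with rfl | hx
  · simp
  have hk2 : 0 < 2 ^ (m₀ + K₀ + 2 ^ e) := by positivity
  have hN4 : 4 ≤ N := by omega
  obtain ⟨m, hm⟩ : ∃ m, m = dg N := ⟨_, rfl⟩
  have hmk : m₀ + K₀ + 2 ^ e ≤ m := by rw [hm]; exact dg_large _ N (by omega)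
  have hNk : N < 2 ^ m := by rw [hm]; exact lt_dg N
  have hkN : 2 ^ m ≤ 2 * N := by rw [hm]; exact dg_le N (by omega)
  obtain ⟨hval, hsize⟩ := conv (fun m => iteratedDeriv m f) a N x hN4
    (by simpa only [iteratedDeriv_zero] using hup) (by simpa only [iteratedDeriv_zero] using hlow)
  rw [← hm] at hval hsize
  obtain ⟨Q, hQ⟩ : ∃ Q : ℕ → Prop, Q = fun v => (0 < c₀ + κ * (v : ℕ) →
          HLs ε (U + 1) M (fun _ : Fin 1 => (c₀ + κ * (v : ℕ)).toNat)) := ⟨_, rfl⟩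
  have hme : 2 ^ e ≤ m := le_trans (Nat.le_add_left _ _) hmk
  have hmm : m₀ ≤ m := le_trans ((Nat.le_add_right _ _).trans (Nat.le_add_right _ _)) hmk
  have hKm : K₀ ≤ m := le_trans ((Nat.le_add_left _ _).trans (Nat.le_add_right _ _)) hmk
  have hm1 : 1 ≤ m := le_trans Nat.one_le_two_pow hme
  have hm0 : (0 : ℝ) < m := by exact_mod_cast hm1
  have h1 := count_of (a + 1) m x hx hval hsize Q (1 / (m : ℝ) ^ (U + 1)) (fun p hp => by
    have l1 := htl m hmm p hp e 1 (by rw [pow_one]; exact hme) le_rfl (by rw [pow_one]; exact hm1) c₀ (m + e) rfl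
    have hNm : (N : ℤ) ≤ (2 : ℤ) ^ m := by exact_mod_cast hNk.le
    have hMm : (M : ℤ) ≤ (2 : ℤ) ^ m := by
      have : (M : ℤ) ≤ N := by exact_mod_cast hMN
      linarith
    have hpos : (0 : ℤ) < (2 : ℤ) ^ m := by positivity
    have hsz : ∀ v ∈ range (2 ^ m), |((1 : ℕ) : ℤ) * (c₀ + κ * (v : ℕ))| ≤ (B + κ.natAbs) * (2 : ℤ) ^ m := by
      intro v hv
      rw [mem_range] at hv
      rw [Nat.cast_one, one_mul]
      calc |c₀ + κ * (v : ℕ)| ≤ |c₀| + |κ * (v : ℕ)| := abs_add_le _ _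
        _ ≤ B * (2 : ℤ) ^ m + κ.natAbs * (2 : ℤ) ^ m := by
            apply add_le_add
            · exact hc₀.trans (mul_le_mul_of_nonneg_left hNm (Nat.cast_nonneg _))
            · rw [abs_mul, Int.abs_eq_natAbs κ, Nat.abs_cast]
              apply mul_le_mul_of_nonneg_left _ (Nat.cast_nonneg _)
              exact_mod_cast hv.le
        _ = _ := by ring
    have hbig : ((B : ℤ) + κ.natAbs) * (2 : ℤ) ^ m + 2 * (2 : ℤ) ^ m ≤ (2 : ℤ) ^ (m + e) := by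
      have h5 : ((e : ℕ) : ℤ) ≤ (2 : ℤ) ^ e := by exact_mod_cast (Nat.lt_two_pow_self).le
      rw [pow_add, mul_comm ((2 : ℤ) ^ m)]
      have h6 : ((e : ℕ) : ℤ) * (2 : ℤ) ^ m ≤ (2 : ℤ) ^ e * (2 : ℤ) ^ m := mul_le_mul_of_nonneg_right h5 hpos.le
      have h7 : ((e : ℕ) : ℤ) = (B : ℤ) + κ.natAbs + 2 := by rw [he]; push_cast; ring
      rw [h7] at h6
      linarith
    have key := h3 (m + e) (hKm.trans (Nat.le_add_right _ _)) ℕ inferInstance (fun _ => range (2 ^ m)) (fun _ => p)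
      (fun _ v => ((1 : ℕ) : ℤ) * (c₀ + κ * (v : ℕ))) (fun _ => l1) (fun _ => FC_sum (a + 1) m p hp) M
      (by
        calc 2 ^ (m + e) = 2 ^ m * 2 ^ e := pow_add _ _ _
          _ ≤ (2 * (Bm * M)) * 2 ^ e := Nat.mul_le_mul_right _ (hkN.trans (Nat.mul_le_mul_left _ hNM))
          _ = 2 ^ (e + 1) * Bm * M := by rw [pow_succ]; ring)
      (by
        have : (M : ℤ) ≤ (2 : ℤ) ^ (m + e) := by
          have h0 : (0 : ℤ) ≤ ((B : ℤ) + κ.natAbs) * (2 : ℤ) ^ m := by positivity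
          linarith
        exact_mod_cast this)
      (fun _ v hv => by
        have b1 := hsz v hv
        rw [abs_le] at b1
        push_cast at b1 hbig ⊢
        constructor
        · linarith [b1.1]
        · linarith [b1.2])
      (fun ω => ¬ Q (ω 0)) (Classical.decPred _) (fun ω _ hω => by
        rw [hQ] at hω
        push Not at hω
        refine ⟨fun i => ?_, fun hcon => hω.2 ?_⟩
        · have : i = 0 := Subsingleton.elim _ _
          rw [this, Nat.cast_one, one_mul]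
          exact hω.1.le
        · have e0 : (fun i : Fin 1 => (((1 : ℕ) : ℤ) * (c₀ + κ * (ω i : ℕ))).toNat) = (fun _ : Fin 1 => (c₀ + κ * (ω 0 : ℕ)).toNat) := by
            funext i
            have : i = 0 := Subsingleton.elim _ _
            rw [this, Nat.cast_one, one_mul]
          rw [← e0]
          exact hcon)
    refine le_trans (le_of_eq ?_) (key.trans ?_)
    · rw [← Pool.Agent.N469.TL.pi_one (range (2 ^ m)) (fun v : ℕ => if Q v then 0 else p v)]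
      apply sum_congr rfl
      intro ω _
      rw [Fin.prod_univ_one]
      by_cases hq : Q (ω 0)
      · rw [if_pos hq, if_neg (not_not.2 hq)]
      · rw [if_neg hq, if_pos hq]
    · apply one_div_le_one_div_of_le (by positivity)
      apply pow_le_pow_left₀ hm0.le
      push_cast
      linarith)
  have h2 := scale_x N U x hN4
  rw [← hm] at h2
  refine le_trans ?_ (h1.trans h2)
  apply Nat.cast_le.2
  apply card_le_card
  intro n hn'
  rw [mem_filter] at hn' ⊢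
  refine ⟨hn'.1, fun hcon => hn'.2 ?_⟩
  rw [hQ, val_iter] at hcon
  exact hcon

open Classical in
/-- prime pairs, all the integers near almost all the values -/
theorem sv_pair (c : ℝ) (f : ℝ → ℝ) (hc : 0 < c) (hn : ∀ m : ℕ, c ≠ m) (hf : SmoothlyVarying c f) (κ : ℤ) (hκ : κ ≠ 0)
    (B Bm U W a : ℕ) (ε : ℝ) (hε : 0 < ε) :
    ∃ N₀ : ℕ, ∀ N : ℕ, N₀ ≤ N → ∀ x : ℕ, (∀ n ∈ Icc 1 x, f n ≤ N) → (N : ℝ) ≤ Real.log N ^ a * f x →
      ∀ M : ℕ, M ≤ N → N ≤ Bm * M → ∀ c₀ : ℤ, |c₀| ≤ B * N →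
        (((Icc 1 x).filter fun n : ℕ => ¬ ∀ y : ℤ, ((|y - (c₀ + κ * (⌊f n⌋₊ : ℕ))| : ℤ) : ℝ) ≤ Real.log N ^ W →
          0 < y → HLs ε (U + W + 2) M (fun _ : Fin 1 => y.toNat)).card : ℝ) ≤ x / Real.log N ^ U := by
  obtain ⟨N₁, h1⟩ := sv_pair1 c f hc hn hf κ hκ (B + 1) Bm (U + W + 1) a ε hε
  obtain ⟨N₂, h2⟩ := ev_near W
  refine ⟨N₁ + N₂, fun N hN x hup hlow M hMN hNM c₀ hc₀ => ?_⟩
  obtain ⟨g1, g2⟩ := h2 N (by omega)
  obtain ⟨R, hR⟩ : ∃ R : ℤ → Prop, R = fun y => (0 < y → HLs ε (U + W + 2) M (fun _ : Fin 1 => y.toNat)) := ⟨_, rfl⟩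
  have key := near_of N W U x g1 g2 (fun n => c₀ + κ * (⌊f n⌋₊ : ℕ)) R (fun t ht => by
    have h3 := h1 N (by omega) x hup hlow M hMN hNM (c₀ + t) (by
      push_cast
      calc |c₀ + t| ≤ |c₀| + |t| := abs_add_le _ _
        _ ≤ B * N + N := add_le_add hc₀ ht
        _ = (B + 1) * N := by ring)
    refine le_trans (Nat.cast_le.2 (card_le_card fun n hn => ?_)) h3
    rw [mem_filter] at hn ⊢
    refine ⟨hn.1, fun hcon => hn.2 ?_⟩
    rw [hR, show c₀ + κ * (⌊f n⌋₊ : ℤ) + t = c₀ + t + κ * (⌊f n⌋₊ : ℤ) by ring]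
    exact hcon)
  refine le_trans (Nat.cast_le.2 (card_le_card fun n hn => ?_)) key
  rw [mem_filter] at hn ⊢
  refine ⟨hn.1, fun hcon => hn.2 ?_⟩
  rw [hR] at hcon
  exact hcon

end Pool.Agent.N193.PS
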