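import Pool.Agent.N193.PS.Dec2
import Pool.Agent.TH869.SQ.Cs
import Pool.Agent.R459.Eq2

set_option autoImplicit false

/-!
Sequences with a power-saving uniform distribution in residue classes: even moments of sums of functions with coprime
periods (adapted from `Pool.Agent.TH869.SQ.Mo`).
-/

namespace Pool.Agent.N193.PS

open Finset Pool.Agent.TH869.EVF Pool.Agent.TH869.SQ

/-- power-saving uniform distribution in residue classes of a sequence `v` -/
structure PED (v : ℕ → ℕ) (ρ σ C : ℝ) : Prop where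
  ρ0 : 0 < ρ
  ρ1 : ρ ≤ 1
  σ0 : 0 < σ
  σ1 : σ ≤ 1
  C1 : 1 ≤ C
  est : ∀ N : ℕ, 1 ≤ N → ∀ M : ℕ, 1 ≤ M → (M : ℝ) ≤ (N : ℝ) ^ ρ → ∀ F : ℕ → ℝ, Per F M → (∀ n, |F n| ≤ 1) →
    ∑ t ∈ range M, F t = 0 → |∑ n ∈ range (N + 1), F (v n)| ≤ M * (C * (N : ℝ) ^ (1 - σ))

/-- **even moments** -/
theorem moment2 {v : ℕ → ℕ} {ρ σ C : ℝ} (hv : PED v ρ σ C) {ι : Type*} [DecidableEq ι] (P : Finset ι) (q : ι → ℕ) (φ : ι → ℕ → ℝ) (Y : ℕ)
    (hq : ∀ i ∈ P, 0 < q i ∧ q i ≤ Y) (hY : 1 ≤ Y)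
    (hcop : ∀ i ∈ P, ∀ j ∈ P, i ≠ j → Nat.Coprime (q i) (q j))
    (hper : ∀ i ∈ P, Per (φ i) (q i)) (hle : ∀ i n, |φ i n| ≤ 1)
    (hsum : ∀ i ∈ P, ∑ n ∈ range (q i), φ i n = 0) (N m : ℕ) (hN : 1 ≤ N) (hm : m ≤ P.card)
    (hYN : (Y : ℝ) ^ (2 * m) ≤ (N : ℝ) ^ ρ) :
    ∑ n ∈ range (N + 1), (∑ i ∈ P, φ i (v n)) ^ (2 * m) ≤
      ((N : ℝ) + 1) * (Real.exp 1 * m * P.card) ^ m + ((P.card : ℝ) * Y) ^ (2 * m) * (C * (N : ℝ) ^ (1 - σ)) := by
  classical
  have hCN : 0 ≤ C * (N : ℝ) ^ (1 - σ) := mul_nonneg (by linarith [hv.C1]) (by positivity)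
  set T := Fintype.piFinset (fun _ : Fin (2 * m) => P) with hT
  set T2 := TT P m with hT2
  have hexp : ∀ n, (∑ i ∈ P, φ i n) ^ (2 * m) = ∑ t ∈ T, ∏ j, φ (t j) n := by
    intro n
    have h1 := (prod_univ_sum (fun _ : Fin (2 * m) => P) (fun _ i => φ i n)).symm
    rw [prod_const, card_univ, Fintype.card_fin] at h1
    exact h1.symm
  have hYr : (1 : ℝ) ≤ Y := by exact_mod_cast hY
  have hprod1 : ∀ (t : Fin (2 * m) → ι) n, |∏ j, φ (t j) n| ≤ 1 := by
    intro t n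
    rw [abs_prod]
    exact prod_le_one (fun _ _ => abs_nonneg _) fun j _ => hle _ _
  have hterm : ∀ t ∈ T, |∑ n ∈ range (N + 1), ∏ j, φ (t j) (v n)| ≤
      (if t ∈ T2 then (N : ℝ) + 1 else 0) + (Y : ℝ) ^ (2 * m) * (C * (N : ℝ) ^ (1 - σ)) := by
    intro t ht
    by_cases hc : t ∈ T2
    · rw [if_pos hc]
      have h1 : |∑ n ∈ range (N + 1), ∏ j, φ (t j) (v n)| ≤ (N : ℝ) + 1 := by
        refine (abs_sum_le_sum_abs _ _).trans ?_
        calc ∑ n ∈ range (N + 1), |∏ j, φ (t j) (v n)| ≤ ∑ n ∈ range (N + 1), (1 : ℝ) :=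
              sum_le_sum fun n _ => hprod1 t (v n)
          _ = (N : ℝ) + 1 := by simp
      have : (0 : ℝ) ≤ (Y : ℝ) ^ (2 * m) * (C * (N : ℝ) ^ (1 - σ)) := mul_nonneg (by positivity) hCN
      linarith
    · rw [if_neg hc, zero_add]
      have ht' := ht
      rw [hT, Fintype.mem_piFinset] at ht'
      have hc' : ∃ j0, ∀ j', j' ≠ j0 → t j' ≠ t j0 := by
        by_contra h
        push Not at h
        exact hc (mem_TT.mpr ⟨ht, h⟩)
      obtain ⟨j0, hj0⟩ := hc'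
      set i0 := t j0 with hi0def
      have hi0 : i0 ∈ univ.image t := mem_image_of_mem t (mem_univ j0)
      set I := univ.image t with hI
      have himg : ∀ i ∈ I, i ∈ P := by
        intro i hi
        rw [hI, mem_image] at hi
        obtain ⟨j, _, rfl⟩ := hi
        exact ht' j
      set F : ι → ℕ → ℝ := fun i n => φ i n ^ (univ.filter (fun j => t j = i)).card with hF
      have he : ∀ n, ∏ j, φ (t j) n = ∏ i ∈ I, F i n := by
        intro n
        rw [hF, hI]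
        exact prod_comp (fun i => φ i n) t
      have hFper : ∀ i ∈ I, Per (F i) (q i) := by
        intro i hi n
        rw [hF]
        simp only
        rw [hper i (himg i hi) n]
      obtain ⟨g1, g2⟩ := sum_prod_per q F I (fun i hi => (hq i (himg i hi)).1)
        (fun i hi j hj => hcop i (himg i hi) j (himg j hj)) hFper
      have hc1 : (univ.filter (fun j => t j = i0)).card = 1 := by
        rw [card_eq_one]
        refine ⟨j0, ?_⟩
        ext j
        rw [mem_filter, mem_singleton]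
        constructor
        · intro h
          by_contra hne
          exact hj0 j hne h.2
        · rintro rfl
          exact ⟨mem_univ _, rfl⟩
      have hz : ∏ i ∈ I, ∑ n ∈ range (q i), F i n = 0 := by
        apply prod_eq_zero hi0
        rw [hF]
        simp only [hc1, pow_one]
        exact hsum i0 (himg i0 hi0)
      have hMpos : 0 < ∏ i ∈ I, q i := prod_pos fun i hi => (hq i (himg i hi)).1
      have h4 : ((∏ i ∈ I, q i : ℕ) : ℝ) ≤ (Y : ℝ) ^ (2 * m) := by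
        have h5 : ∏ i ∈ I, q i ≤ Y ^ I.card :=
          prod_le_pow_card _ _ _ fun i hi => (hq i (himg i hi)).2
        have h6 : I.card ≤ 2 * m := by
          have := card_image_le (s := (univ : Finset (Fin (2 * m)))) (f := t)
          rwa [card_univ, Fintype.card_fin] at this
        have h7 : Y ^ I.card ≤ Y ^ (2 * m) := Nat.pow_le_pow_right hY h6
        exact_mod_cast h5.trans h7
      have h3 := hv.est N hN (∏ i ∈ I, q i) hMpos (h4.trans hYN) _ g1 (fun n => by rw [← he n]; exact hprod1 t n)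
        (by rw [g2, hz])
      simp only [he]
      exact h3.trans (mul_le_mul_of_nonneg_right h4 hCN)
  have hTc : (T.card : ℝ) = (P.card : ℝ) ^ (2 * m) := by
    rw [hT, Fintype.card_piFinset]
    simp
  calc ∑ n ∈ range (N + 1), (∑ i ∈ P, φ i (v n)) ^ (2 * m)
      = ∑ t ∈ T, ∑ n ∈ range (N + 1), ∏ j, φ (t j) (v n) := by
        rw [sum_comm]
        exact sum_congr rfl fun n _ => hexp (v n)
    _ ≤ ∑ t ∈ T, |∑ n ∈ range (N + 1), ∏ j, φ (t j) (v n)| := sum_le_sum fun t _ => le_abs_self _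
    _ ≤ ∑ t ∈ T, ((if t ∈ T2 then (N : ℝ) + 1 else 0) + (Y : ℝ) ^ (2 * m) * (C * (N : ℝ) ^ (1 - σ))) := sum_le_sum hterm
    _ = T2.card * ((N : ℝ) + 1) + T.card * ((Y : ℝ) ^ (2 * m) * (C * (N : ℝ) ^ (1 - σ))) := by
        rw [sum_add_distrib, sum_const, nsmul_eq_mul, ← sum_filter]
        have : T.filter (fun t => t ∈ T2) = T2 := by
          ext t
          rw [mem_filter]
          constructor
          · exact fun h => h.2
          · intro h
            refine ⟨?_, h⟩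
            rw [hT2, mem_TT] at h
            exact h.1
        rw [this, sum_const, nsmul_eq_mul]
    _ ≤ (Real.exp 1 * m * P.card) ^ m * ((N : ℝ) + 1) + (P.card : ℝ) ^ (2 * m) * ((Y : ℝ) ^ (2 * m) * (C * (N : ℝ) ^ (1 - σ))) := by
        rw [hTc]
        have := count_pairs P m hm
        gcongr
    _ = _ := by rw [mul_pow (P.card : ℝ) (Y : ℝ)]; ring

/-- few arguments have a large sum -/
theorem bad_card2 {v : ℕ → ℕ} {ρ σ C : ℝ} (hv : PED v ρ σ C) {ι : Type*} [DecidableEq ι] (P : Finset ι) (q : ι → ℕ) (φ : ι → ℕ → ℝ) (Y : ℕ)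
    (hq : ∀ i ∈ P, 0 < q i ∧ q i ≤ Y) (hY : 1 ≤ Y)
    (hcop : ∀ i ∈ P, ∀ j ∈ P, i ≠ j → Nat.Coprime (q i) (q j))
    (hper : ∀ i ∈ P, Per (φ i) (q i)) (hle : ∀ i n, |φ i n| ≤ 1)
    (hsum : ∀ i ∈ P, ∑ n ∈ range (q i), φ i n = 0) (N m : ℕ) (hN : 1 ≤ N) (hm : m ≤ P.card)
    (hYN : (Y : ℝ) ^ (2 * m) ≤ (N : ℝ) ^ ρ) (b : ℝ) (hb : 0 < b) :
    (((range (N + 1)).filter (fun n => b < |∑ i ∈ P, φ i (v n)|)).card : ℝ) ≤
      ((N : ℝ) + 1) * (Real.exp 1 * m * P.card / b ^ 2) ^ m + ((P.card : ℝ) * Y / b) ^ (2 * m) * (C * (N : ℝ) ^ (1 - σ)) := by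
  have h := moment2 hv P q φ Y hq hY hcop hper hle hsum N m hN hm hYN
  set Bd := (range (N + 1)).filter (fun n => b < |∑ i ∈ P, φ i (v n)|) with hBd
  have h1 : (Bd.card : ℝ) * b ^ (2 * m) ≤ ∑ n ∈ range (N + 1), (∑ i ∈ P, φ i (v n)) ^ (2 * m) := by
    calc (Bd.card : ℝ) * b ^ (2 * m) = ∑ n ∈ Bd, b ^ (2 * m) := by rw [sum_const, nsmul_eq_mul]
      _ ≤ ∑ n ∈ Bd, (∑ i ∈ P, φ i (v n)) ^ (2 * m) := by
          refine sum_le_sum fun n hn => ?_
          rw [hBd, mem_filter] at hn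
          rw [← (even_two_mul m).pow_abs (∑ i ∈ P, φ i (v n))]
          exact pow_le_pow_left₀ hb.le hn.2.le _
      _ ≤ _ := sum_le_sum_of_subset_of_nonneg (filter_subset _ _) fun n _ _ =>
          (even_two_mul m).pow_nonneg _
  have hb2 : 0 < b ^ (2 * m) := by positivity
  rw [← mul_le_mul_iff_of_pos_right hb2]
  refine (h1.trans h).trans (le_of_eq ?_)
  rw [add_mul, div_pow, div_pow]
  have e : (b ^ 2) ^ m = b ^ (2 * m) := (pow_mul b 2 m).symm
  rw [e]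
  field_simp

end Pool.Agent.N193.PS
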