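import Pool.Agent.N193.PS.Pe1

set_option autoImplicit false

/-!
Sequences with a power-saving uniform distribution in residue classes: square root cancellation for almost all members
(adapted from `Pool.Agent.TH869.SQ.Gd`, `Ge`, `Bx`, `Cs`).
-/

namespace Pool.Agent.N193.PS

open Finset Pool.Agent.TH869.EVF Pool.Agent.TH869.SQ

/-- one block -/
theorem one_block2 {v : ℕ → ℕ} {ρ σ C : ℝ} (hv : PED v ρ σ C) (s B D : ℕ) (δ : ℝ) (hδ : 0 < δ) :
    ∃ (Z0 : ℕ) (κ : ℝ), 1 ≤ Z0 ∧ 0 < κ ∧ κ ≤ 1 ∧ ∀ (q : ℕ → ℕ),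
      (∀ k, 0 < q k ∧ q k ≤ D * (k + 1) ^ B) →
      (∀ j k, j + s ≤ k → Nat.Coprime (q j) (q k)) → ∀ φ : ℕ → ℕ → ℝ, (∀ k, Per (φ k) (q k)) →
      (∀ k n, |φ k n| ≤ 1) → (∀ k, ∑ n ∈ range (q k), φ k n = 0) →
      ∀ N z j : ℕ, 1 ≤ N → Z0 ≤ z → (z : ℝ) ≤ (N : ℝ) ^ κ →
      (((range (N + 1)).filter (fun n => lam δ N z < |∑ k ∈ Wz s z j, φ k (v n)|)).card : ℝ) ≤
        (2 + C) * (N : ℝ) ^ (1 - 2 * κ) := by
  have hρ0 := hv.ρ0
  have hρ1 := hv.ρ1
  have hσ0 := hv.σ0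
  have hσ1 := hv.σ1
  have hC1 := hv.C1
  obtain ⟨ρ', hρ'⟩ : ∃ ρ', ρ' = min ρ σ := ⟨_, rfl⟩
  have hρ'0 : 0 < ρ' := by rw [hρ']; exact lt_min hρ0 hσ0
  have hρ'ρ : ρ' ≤ ρ := by rw [hρ']; exact min_le_left _ _
  have hρ'σ : ρ' ≤ σ := by rw [hρ']; exact min_le_right _ _
  set b0 : ℝ := 4 * (B + 2) / ρ' with hb0
  have hB0 : (0 : ℝ) ≤ B := Nat.cast_nonneg B
  have hb08 : 8 ≤ b0 := by rw [hb0, le_div_iff₀ hρ'0]; nlinarith
  set κ : ℝ := min (1 / (2 * b0)) (min (δ / (2 * b0)) (min (σ / 4) (1 / 4))) with hκ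
  have hκ0 : 0 < κ := by
    rw [hκ]
    refine lt_min (by positivity) (lt_min (by positivity) (lt_min (by positivity) (by norm_num)))
  have hκ1 : κ ≤ 1 / (2 * b0) := min_le_left _ _
  have hκ2 : κ ≤ δ / (2 * b0) := (min_le_right _ _).trans (min_le_left _ _)
  have hκσ : κ ≤ σ / 4 := (min_le_right _ _).trans ((min_le_right _ _).trans (min_le_left _ _))
  have hκ3 : κ ≤ 1 / 4 := (min_le_right _ _).trans ((min_le_right _ _).trans (min_le_right _ _))
  refine ⟨max D 3, κ, by omega, hκ0, by linarith, ?_⟩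
  intro q hq hcop φ hper hle hsum N z j hN hz hzN
  have hNr1 : (1 : ℝ) ≤ N := by exact_mod_cast hN
  have hN0 : (0 : ℝ) < N := by linarith
  have hz3 : 3 ≤ z := le_trans (le_max_right _ _) hz
  have hzD : D ≤ z := le_trans (le_max_left _ _) hz
  have hz3r : (3 : ℝ) ≤ z := by exact_mod_cast hz3
  have hz0 : (0 : ℝ) < z := by linarith
  set L : ℝ := Real.log N with hL
  set lz : ℝ := Real.log z with hlz
  have hL0 : 0 ≤ L := Real.log_nonneg hNr1
  have hlz1 : 1 ≤ lz := by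
    rw [hlz, Real.le_log_iff_exp_le hz0]
    have := Real.exp_one_lt_d9
    linarith
  have hlzL : 2 * b0 * lz ≤ L := by
    have h1 : lz ≤ Real.log ((N : ℝ) ^ κ) := Real.log_le_log hz0 hzN
    rw [Real.log_rpow hN0] at h1
    have h2 : κ * L ≤ 1 / (2 * b0) * L := mul_le_mul_of_nonneg_right hκ1 hL0
    have h3 : lz ≤ 1 / (2 * b0) * L := h1.trans h2
    calc 2 * b0 * lz ≤ 2 * b0 * (1 / (2 * b0) * L) := by gcongr
      _ = L := by field_simp
  set m : ℕ := ⌊L / (b0 * lz)⌋₊ with hm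
  have hm1 : (m : ℝ) ≤ L / (b0 * lz) := Nat.floor_le (by positivity)
  have hm2 : L / (2 * b0 * lz) ≤ m := by
    have h1 : L / (b0 * lz) < m + 1 := Nat.lt_floor_add_one _
    have h2 : 1 ≤ L / (2 * b0 * lz) := by rw [le_div_iff₀ (by positivity)]; linarith
    have h3 : L / (b0 * lz) = L / (2 * b0 * lz) + L / (2 * b0 * lz) := by field_simp; ring
    linarith
  have hN2 : 0 ≤ (N : ℝ) ^ (1 - 2 * κ) := Real.rpow_nonneg hN0.le _
  set b : ℝ := lam δ N z with hb
  have hzδ : 1 ≤ (z : ℝ) ^ δ := Real.one_le_rpow (by linarith) hδ.le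
  have hzh : (z : ℝ) ^ (1 / 2 + δ) = √z * (z : ℝ) ^ δ := by
    rw [Real.rpow_add hz0, ← Real.sqrt_eq_rpow]
  have hs1 : 1 ≤ √(1 + L) := Real.one_le_sqrt.mpr (by linarith)
  have hsz : 0 < √(z : ℝ) := Real.sqrt_pos.mpr hz0
  have hsz1 : 1 ≤ √(z : ℝ) := Real.one_le_sqrt.mpr (by linarith)
  have hb1 : √(z : ℝ) * √(1 + L) ≤ b := by
    rw [hb, lam, hzh]
    calc √(z : ℝ) * √(1 + L) = √z * 1 * √(1 + L) := by ring
      _ ≤ √z * (z : ℝ) ^ δ * √(1 + L) := by gcongr
  have hbpos : 0 < b := lt_of_lt_of_le (by positivity) hb1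
  have hbone : 1 ≤ b := le_trans (one_le_mul_of_one_le_of_one_le hsz1 hs1) hb1
  have hmL : (m : ℝ) ≤ L := hm1.trans (div_le_self hL0 (by nlinarith))
  by_cases hmP : m ≤ (Wz s z j).card
  · have hmem : ∀ k ∈ Wz s z j, k < z ∧ k % s = j := by
      intro k hk
      rw [Wz, mem_filter, mem_Ico] at hk
      exact ⟨hk.1.2, hk.2⟩
    have hYz : ((D * z ^ B + 1 : ℕ) : ℝ) ≤ (z : ℝ) ^ ((B : ℝ) + 2) := by
      push_cast
      have hDz : (D : ℝ) ≤ z := by exact_mod_cast hzD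
      have h2 : (z : ℝ) ^ ((B : ℝ) + 2) = z * (z : ℝ) ^ B * z := by
        rw [show (B : ℝ) + 2 = 1 + B + 1 by ring, Real.rpow_add hz0, Real.rpow_add hz0, Real.rpow_one, Real.rpow_natCast]
      rw [h2]
      have h3 : (1 : ℝ) ≤ (z : ℝ) ^ B := one_le_pow₀ (by linarith)
      have h5 : (D : ℝ) * (z : ℝ) ^ B ≤ z * (z : ℝ) ^ B := by gcongr
      have h6 : (1 : ℝ) ≤ z * (z : ℝ) ^ B := one_le_mul_of_one_le_of_one_le (by linarith) h3
      have h7 : (z : ℝ) * (z : ℝ) ^ B * 2 ≤ z * (z : ℝ) ^ B * z := mul_le_mul_of_nonneg_left (by linarith) (by linarith)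
      linarith
    have hYN : (((D * z ^ B + 1 : ℕ) : ℝ)) ^ (2 * m) ≤ (N : ℝ) ^ (ρ' / 2) := by
      calc (((D * z ^ B + 1 : ℕ) : ℝ)) ^ (2 * m) ≤ ((z : ℝ) ^ ((B : ℝ) + 2)) ^ (2 * m) :=
            pow_le_pow_left₀ (by positivity) hYz _
        _ = Real.exp (2 * ((B : ℝ) + 2) * (lz * m)) := by
            rw [Real.rpow_def_of_pos hz0, ← Real.exp_nat_mul]; congr 1; push_cast; ring
        _ ≤ Real.exp (ρ' / 2 * L) := by
            apply Real.exp_le_exp.mpr
            have h1 : lz * m ≤ L / b0 := by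
              calc lz * m ≤ lz * (L / (b0 * lz)) := by gcongr
                _ = L / b0 := by field_simp
            have h2 : 2 * ((B : ℝ) + 2) * (lz * m) ≤ 2 * ((B : ℝ) + 2) * (L / b0) := by gcongr
            have h3 : 2 * ((B : ℝ) + 2) * (L / b0) = ρ' / 2 * L := by
              rw [hb0]; field_simp; ring
            linarith
        _ = _ := by rw [Real.rpow_def_of_pos hN0, hL]; ring_nf
    have h := bad_card2 hv (Wz s z j) q φ (D * z ^ B + 1) (by
        intro k hk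
        refine ⟨(hq k).1, ?_⟩
        have h1 := (hq k).2
        have h2 : (k + 1) ^ B ≤ z ^ B := Nat.pow_le_pow_left (hmem k hk).1 B
        have h3 : D * (k + 1) ^ B ≤ D * z ^ B := Nat.mul_le_mul_left D h2
        omega) (by omega) (by
        intro i hi k hk hik
        obtain ⟨_, hi2⟩ := hmem i hi
        obtain ⟨_, hk2⟩ := hmem k hk
        have hmod : i ≡ k [MOD s] := by rw [Nat.ModEq, hi2, hk2]
        rcases lt_or_gt_of_ne hik with hlt | hlt
        · apply hcop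
          obtain ⟨c, hc⟩ := (Nat.modEq_iff_dvd' hlt.le).mp hmod
          have hc0 : c ≠ 0 := by rintro rfl; omega
          have : s ≤ s * c := Nat.le_mul_of_pos_right s (Nat.pos_of_ne_zero hc0)
          omega
        · apply Nat.Coprime.symm
          apply hcop
          obtain ⟨c, hc⟩ := (Nat.modEq_iff_dvd' hlt.le).mp hmod.symm
          have hc0 : c ≠ 0 := by rintro rfl; omega
          have : s ≤ s * c := Nat.le_mul_of_pos_right s (Nat.pos_of_ne_zero hc0)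
          omega) (fun k _ => hper k) hle (fun k _ => hsum k) N m hN hmP
      (hYN.trans (Real.rpow_le_rpow_of_exponent_le hNr1 (by linarith))) b hbpos
    refine h.trans ?_
    have hPz : ((Wz s z j).card : ℝ) ≤ z := by exact_mod_cast card_Wz s z j
    have hNpow : ∀ a : ℝ, (N : ℝ) ^ a = Real.exp (a * L) := by
      intro a
      rw [Real.rpow_def_of_pos hN0, hL]; ring_nf
    have hzpow : ∀ a : ℝ, (z : ℝ) ^ a = Real.exp (a * lz) := by
      intro a
      rw [Real.rpow_def_of_pos hz0, hlz]; ring_nf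
    -- first term
    have hX : Real.exp 1 * m * (Wz s z j).card / b ^ 2 ≤ (z : ℝ) ^ (-(2 * δ)) := by
      have hb2 : b ^ 2 = (z : ℝ) * (z : ℝ) ^ (2 * δ) * (1 + L) := by
        rw [hb, lam, hzh, mul_pow, mul_pow, Real.sq_sqrt hz0.le, Real.sq_sqrt (by linarith),
          ← Real.rpow_natCast ((z : ℝ) ^ δ) 2, ← Real.rpow_mul hz0.le]
        congr 3
        push_cast; ring
      have hem : Real.exp 1 * m ≤ 1 + L := by
        have h1 : (m : ℝ) ≤ L / 8 := by
          refine hm1.trans ?_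
          apply div_le_div_of_nonneg_left hL0 (by norm_num)
          nlinarith
        have := Real.exp_one_lt_d9
        have h0 : (0 : ℝ) ≤ m := Nat.cast_nonneg m
        nlinarith
      rw [hb2, Real.rpow_neg hz0.le, div_le_iff₀ (by positivity)]
      have hzp : 0 < (z : ℝ) ^ (2 * δ) := Real.rpow_pos_of_pos hz0 _
      calc Real.exp 1 * m * (Wz s z j).card ≤ (1 + L) * z := by gcongr
        _ = _ := by field_simp
    have hXm : (Real.exp 1 * m * (Wz s z j).card / b ^ 2) ^ m ≤ (N : ℝ) ^ (-(2 * κ)) := by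
      calc _ ≤ ((z : ℝ) ^ (-(2 * δ))) ^ m := pow_le_pow_left₀ (by positivity) hX m
        _ = Real.exp (-(2 * δ) * (lz * m)) := by
            rw [hzpow, ← Real.exp_nat_mul]; congr 1; ring
        _ ≤ Real.exp (-(2 * κ) * L) := by
            apply Real.exp_le_exp.mpr
            have h1 : L / (2 * b0) ≤ lz * m := by
              calc L / (2 * b0) = lz * (L / (2 * b0 * lz)) := by field_simp
                _ ≤ lz * m := by gcongr
            have h2 : κ * L ≤ δ * (lz * m) := by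
              calc κ * L ≤ δ / (2 * b0) * L := mul_le_mul_of_nonneg_right hκ2 hL0
                _ = δ * (L / (2 * b0)) := by ring
                _ ≤ δ * (lz * m) := mul_le_mul_of_nonneg_left h1 hδ.le
            linarith
        _ = _ := (hNpow _).symm
    -- second term
    have hY : ((Wz s z j).card : ℝ) * ((D * z ^ B + 1 : ℕ) : ℝ) / b ≤ (z : ℝ) ^ ((B : ℝ) + 2) := by
      rw [div_le_iff₀ hbpos]
      have h1 : ((D * z ^ B + 1 : ℕ) : ℝ) ≤ (z : ℝ) ^ ((B : ℝ) + 1) * √z := by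
        push_cast
        have hDz : (D : ℝ) ≤ z := by exact_mod_cast hzD
        have h2 : (z : ℝ) ^ ((B : ℝ) + 1) = z * (z : ℝ) ^ B := by
          rw [Real.rpow_add hz0, Real.rpow_one, Real.rpow_natCast]; ring
        rw [h2]
        have h3 : (1 : ℝ) ≤ (z : ℝ) ^ B := one_le_pow₀ (by linarith)
        have h4 : (4 / 3 : ℝ) ≤ √z := by
          apply Real.le_sqrt_of_sq_le
          norm_num
          linarith
        have h5 : (D : ℝ) * (z : ℝ) ^ B ≤ z * (z : ℝ) ^ B := by gcongr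
        have h6 : (1 : ℝ) ≤ z * (z : ℝ) ^ B * (1 / 3) := by nlinarith
        calc (D : ℝ) * (z : ℝ) ^ B + 1 ≤ z * (z : ℝ) ^ B * (4 / 3) := by linarith
          _ ≤ z * (z : ℝ) ^ B * √z := by gcongr
      have h7 : √(z : ℝ) ≤ b := by
        refine le_trans ?_ hb1
        exact le_mul_of_one_le_right hsz.le hs1
      calc ((Wz s z j).card : ℝ) * ((D * z ^ B + 1 : ℕ) : ℝ)
          ≤ z * ((z : ℝ) ^ ((B : ℝ) + 1) * b) := by
            refine mul_le_mul hPz (h1.trans ?_) (by positivity) hz0.le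
            exact mul_le_mul_of_nonneg_left h7 (Real.rpow_nonneg hz0.le _)
        _ = (z : ℝ) ^ ((B : ℝ) + 2) * b := by
            rw [show (B : ℝ) + 2 = 1 + ((B : ℝ) + 1) by ring, Real.rpow_add hz0 1, Real.rpow_one]
            ring
    have hYm : (((Wz s z j).card : ℝ) * ((D * z ^ B + 1 : ℕ) : ℝ) / b) ^ (2 * m) * (C * (N : ℝ) ^ (1 - σ)) ≤
        C * (N : ℝ) ^ (1 - 2 * κ) := by
      have h5 : (((Wz s z j).card : ℝ) * ((D * z ^ B + 1 : ℕ) : ℝ) / b) ^ (2 * m) ≤ (N : ℝ) ^ (ρ' / 2) := by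
        calc _ ≤ ((z : ℝ) ^ ((B : ℝ) + 2)) ^ (2 * m) := pow_le_pow_left₀ (by positivity) hY _
          _ = Real.exp (2 * ((B : ℝ) + 2) * (lz * m)) := by
              rw [hzpow, ← Real.exp_nat_mul]; congr 1; push_cast; ring
          _ ≤ Real.exp (ρ' / 2 * L) := by
              apply Real.exp_le_exp.mpr
              have h1 : lz * m ≤ L / b0 := by
                calc lz * m ≤ lz * (L / (b0 * lz)) := by gcongr
                  _ = L / b0 := by field_simp
              have h2 : 2 * ((B : ℝ) + 2) * (lz * m) ≤ 2 * ((B : ℝ) + 2) * (L / b0) := by gcongr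
              have h3 : 2 * ((B : ℝ) + 2) * (L / b0) = ρ' / 2 * L := by
                rw [hb0]; field_simp; ring
              linarith
          _ = _ := (hNpow _).symm
      calc _ ≤ (N : ℝ) ^ (ρ' / 2) * (C * (N : ℝ) ^ (1 - σ)) := mul_le_mul_of_nonneg_right h5 (by positivity)
        _ = C * (N : ℝ) ^ (ρ' / 2 + (1 - σ)) := by rw [Real.rpow_add hN0]; ring
        _ ≤ _ := by
            apply mul_le_mul_of_nonneg_left _ (by linarith)
            apply Real.rpow_le_rpow_of_exponent_le hNr1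
            linarith
    have hN1 : (N : ℝ) + 1 ≤ 2 * N := by linarith
    have hNN : (N : ℝ) * (N : ℝ) ^ (-(2 * κ)) = (N : ℝ) ^ (1 - 2 * κ) := by
      rw [← Real.rpow_one_add' hN0.le (by linarith)]
      congr 1
    calc ((N : ℝ) + 1) * (Real.exp 1 * m * (Wz s z j).card / b ^ 2) ^ m +
          (((Wz s z j).card : ℝ) * ((D * z ^ B + 1 : ℕ) : ℝ) / b) ^ (2 * m) * (C * (N : ℝ) ^ (1 - σ))
        ≤ (2 * N) * (N : ℝ) ^ (-(2 * κ)) + C * (N : ℝ) ^ (1 - 2 * κ) :=
          add_le_add (mul_le_mul hN1 hXm (by positivity) (by positivity)) hYm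
      _ = (2 + C) * (N : ℝ) ^ (1 - 2 * κ) := by rw [mul_assoc, hNN]; ring
  · -- few indices: the trivial bound
    push Not at hmP
    have hempty : (range (N + 1)).filter (fun n => b < |∑ k ∈ Wz s z j, φ k (v n)|) = ∅ := by
      rw [filter_eq_empty_iff]
      intro n _ hlt
      have h1 : |∑ k ∈ Wz s z j, φ k (v n)| ≤ (Wz s z j).card := by
        refine (abs_sum_le_sum_abs _ _).trans ?_
        calc ∑ k ∈ Wz s z j, |φ k (v n)| ≤ ∑ k ∈ Wz s z j, (1 : ℝ) := sum_le_sum fun k _ => hle k (v n)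
          _ = (Wz s z j).card := by simp
      set w : ℝ := ((Wz s z j).card : ℝ) with hw
      have hw0 : 0 ≤ w := Nat.cast_nonneg _
      have hwz : w ≤ z := by rw [hw]; exact_mod_cast card_Wz s z j
      have hwm : w ≤ m := by rw [hw]; exact_mod_cast hmP.le
      have h2 : w ≤ √(z : ℝ) * √(1 + L) := by
        rw [← Real.sqrt_mul hz0.le]
        apply Real.le_sqrt_of_sq_le
        rw [sq]
        exact mul_le_mul hwz (by linarith) hw0 hz0.le
      linarith
    rw [hempty, card_empty, Nat.cast_zero]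
    positivity

/-- **square root cancellation for almost all arguments** -/
theorem good2 {v : ℕ → ℕ} {ρ σ C₀ : ℝ} (hv : PED v ρ σ C₀) (s B D : ℕ) (hs : 1 ≤ s) (δ : ℝ) (hδ : 0 < δ) :
    ∃ κ C : ℝ, 0 < κ ∧ κ ≤ 1 ∧ 1 ≤ C ∧ ∀ (q : ℕ → ℕ),
      (∀ k, 0 < q k ∧ q k ≤ D * (k + 1) ^ B) →
      (∀ j k, j + s ≤ k → Nat.Coprime (q j) (q k)) → ∀ φ : ℕ → ℕ → ℝ, (∀ k, Per (φ k) (q k)) →
      (∀ k n, |φ k n| ≤ 1) → (∀ k, ∑ n ∈ range (q k), φ k n = 0) →
      ∀ N : ℕ, 1 ≤ N → ∃ E : Finset ℕ, (E.card : ℝ) ≤ C * (N : ℝ) ^ (1 - κ) ∧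
        ∀ n : ℕ, n ≤ N → n ∉ E → ∀ K : ℕ, (K : ℝ) ≤ (N : ℝ) ^ κ →
          |∑ k ∈ range K, φ k (v n)| ≤ C * lam δ N K := by
  obtain ⟨Z0, κ, hZ0, hκ0, hκ1, H⟩ := one_block2 hv s B D δ hδ
  have hsr : (1 : ℝ) ≤ s := by exact_mod_cast hs
  have hZr : (1 : ℝ) ≤ Z0 := by exact_mod_cast hZ0
  have hC₀ := hv.C1
  refine ⟨κ, 4 * s * Z0 * C₀, hκ0, hκ1, by
    have h1 : (1 : ℝ) ≤ 4 * s * Z0 := by nlinarith
    nlinarith, ?_⟩
  intro q hq hcop φ hper hle hsum N hN
  have hNr1 : (1 : ℝ) ≤ N := by exact_mod_cast hN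
  have hN0 : (0 : ℝ) < N := by linarith
  set V := (Icc 1 ⌊(N : ℝ) ^ κ⌋₊).filter (fun z : ℕ => Z0 ≤ z) with hV
  set Bd : ℕ → ℕ → Finset ℕ := fun z j => (range (N + 1)).filter
    (fun n => lam δ N z < |∑ k ∈ Wz s z j, φ k (v n)|) with hBd
  refine ⟨V.biUnion (fun z => (range s).biUnion (Bd z)), ?_, ?_⟩
  · have h1 : ∀ z ∈ V, ∀ j, ((Bd z j).card : ℝ) ≤ (2 + C₀) * (N : ℝ) ^ (1 - 2 * κ) := by
      intro z hz j
      rw [hV, mem_filter, mem_Icc] at hz
      have hzκ : (z : ℝ) ≤ (N : ℝ) ^ κ :=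
        (Nat.cast_le.mpr hz.1.2).trans (Nat.floor_le (Real.rpow_nonneg hN0.le _))
      exact H q hq hcop φ hper hle hsum N z j hN hz.2 hzκ
    have h2 : ((V.biUnion (fun z => (range s).biUnion (Bd z))).card : ℝ) ≤
        ∑ z ∈ V, ∑ j ∈ range s, ((Bd z j).card : ℝ) := by
      have h3 : (V.biUnion (fun z => (range s).biUnion (Bd z))).card ≤
          ∑ z ∈ V, ∑ j ∈ range s, (Bd z j).card :=
        card_biUnion_le.trans (sum_le_sum fun z _ => card_biUnion_le)
      exact_mod_cast h3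
    have h3 : (V.card : ℝ) ≤ (N : ℝ) ^ κ := by
      have h4 : V.card ≤ ⌊(N : ℝ) ^ κ⌋₊ := by
        calc V.card ≤ (Icc 1 ⌊(N : ℝ) ^ κ⌋₊).card := card_filter_le _ _
          _ = _ := by rw [Nat.card_Icc, Nat.add_sub_cancel]
      exact (Nat.cast_le.mpr h4).trans (Nat.floor_le (Real.rpow_nonneg hN0.le _))
    have hNp : 0 ≤ (N : ℝ) ^ (1 - 2 * κ) := Real.rpow_nonneg hN0.le _
    calc _ ≤ ∑ z ∈ V, ∑ j ∈ range s, ((Bd z j).card : ℝ) := h2
      _ ≤ ∑ z ∈ V, ∑ j ∈ range s, (2 + C₀) * (N : ℝ) ^ (1 - 2 * κ) :=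
          sum_le_sum fun z hz => sum_le_sum fun j _ => h1 z hz j
      _ = V.card * (s * ((2 + C₀) * (N : ℝ) ^ (1 - 2 * κ))) := by
          rw [sum_const, sum_const, card_range, nsmul_eq_mul, nsmul_eq_mul]
      _ ≤ (N : ℝ) ^ κ * (s * ((2 + C₀) * (N : ℝ) ^ (1 - 2 * κ))) := by gcongr
      _ = (2 + C₀) * s * ((N : ℝ) ^ κ * (N : ℝ) ^ (1 - 2 * κ)) := by ring
      _ = (2 + C₀) * s * (N : ℝ) ^ (1 - κ) := by
          rw [← Real.rpow_add hN0]
          congr 2
          ring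
      _ ≤ 4 * s * Z0 * C₀ * (N : ℝ) ^ (1 - κ) := by
          have := Real.rpow_nonneg hN0.le (1 - κ)
          apply mul_le_mul_of_nonneg_right _ this
          have h6 : (2 + C₀) * (s : ℝ) ≤ (4 * C₀) * s := mul_le_mul_of_nonneg_right (by linarith) (by linarith)
          have h7 : (4 * C₀) * (s : ℝ) * 1 ≤ (4 * C₀) * s * Z0 := mul_le_mul_of_nonneg_left hZr (by positivity)
          linarith
  · intro n hn hnE K hK
    have key : ∀ z : ℕ, (z : ℝ) ≤ (N : ℝ) ^ κ →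
        |∑ k ∈ Ico (z / 2) z, φ k (v n)| ≤ (s * Z0) * lam δ N z := by
      intro z hz
      have hlam := lam_nonneg δ N z
      by_cases hzZ : Z0 ≤ z
      · have hzV : z ∈ V := by
          rw [hV, mem_filter, mem_Icc]
          exact ⟨⟨by omega, Nat.le_floor hz⟩, hzZ⟩
        rw [sum_Wz s z hs]
        refine (abs_sum_le_sum_abs _ _).trans ?_
        calc ∑ j ∈ range s, |∑ k ∈ Wz s z j, φ k (v n)| ≤ ∑ j ∈ range s, lam δ N z := by
              refine sum_le_sum fun j hj => ?_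
              by_contra hlt
              push Not at hlt
              apply hnE
              rw [mem_biUnion]
              refine ⟨z, hzV, ?_⟩
              rw [mem_biUnion]
              refine ⟨j, hj, ?_⟩
              rw [hBd, mem_filter, mem_range]
              exact ⟨by omega, hlt⟩
          _ = s * lam δ N z := by rw [sum_const, card_range, nsmul_eq_mul]
          _ ≤ (s * Z0) * lam δ N z := by
              have : (s : ℝ) ≤ s * Z0 := by nlinarith
              gcongr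
      · push Not at hzZ
        rcases Nat.eq_zero_or_pos z with rfl | hz0
        · simp only [Nat.zero_div, Ico_self, sum_empty, abs_zero]
          positivity
        · have hz1 : (1 : ℝ) ≤ z := by exact_mod_cast hz0
          have hl1 : 1 ≤ lam δ N z := by
            unfold lam
            have h1 : 1 ≤ (z : ℝ) ^ (1 / 2 + δ) := Real.one_le_rpow hz1 (by linarith)
            have h2 : 1 ≤ √(1 + Real.log N) :=
              Real.one_le_sqrt.mpr (by have := Real.log_nonneg hNr1; linarith)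
            exact one_le_mul_of_one_le_of_one_le h1 h2
          have h1 : |∑ k ∈ Ico (z / 2) z, φ k (v n)| ≤ z := by
            refine (abs_sum_le_sum_abs _ _).trans ?_
            calc ∑ k ∈ Ico (z / 2) z, |φ k (v n)| ≤ ∑ k ∈ Ico (z / 2) z, (1 : ℝ) :=
                  sum_le_sum fun k _ => hle k (v n)
              _ = ((z - z / 2 : ℕ) : ℝ) := by simp
              _ ≤ z := by exact_mod_cast Nat.sub_le _ _
          have h2 : (z : ℝ) ≤ Z0 := by exact_mod_cast hzZ.le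
          have h3 : (Z0 : ℝ) ≤ s * Z0 := by nlinarith
          calc |∑ k ∈ Ico (z / 2) z, φ k (v n)| ≤ (s * Z0) * 1 := by linarith
            _ ≤ _ := by gcongr
    have h := add_blocks (fun k => φ k (v n)) δ hδ.le N (s * Z0) ((N : ℝ) ^ κ) (by positivity) key K hK
    calc _ ≤ 4 * ((s : ℝ) * Z0) * lam δ N K := h
      _ ≤ 4 * ((s : ℝ) * Z0) * lam δ N K * C₀ := le_mul_of_one_le_right (mul_nonneg (by positivity) (lam_nonneg δ N K)) hC₀
      _ = _ := by ring

/-- **boxes** -/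
theorem boxes2 {v : ℕ → ℕ} {ρ σ C₀ : ℝ} (hv : PED v ρ σ C₀) (s B D m : ℕ) (hs : 1 ≤ s) (δ : ℝ) (hδ : 0 < δ) :
    ∃ κ C : ℝ, 0 < κ ∧ κ ≤ 1 ∧ 1 ≤ C ∧ ∀ (q : ℕ → ℕ),
      (∀ k, 0 < q k ∧ q k ≤ D * (k + 1) ^ B) →
      (∀ j k, j + s ≤ k → Nat.Coprime (q j) (q k)) → ∀ x : ℕ → ℕ → Fin m → ℝ,
      (∀ k n, x k (n + q k) = x k n) →
      ∀ N : ℕ, 1 ≤ N → ∃ E : Finset ℕ, (E.card : ℝ) ≤ C * (N : ℝ) ^ (1 - κ) ∧
        ∀ n : ℕ, n ≤ N → n ∉ E → ∀ K : ℕ, (K : ℝ) ≤ (N : ℝ) ^ κ →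
          ∀ I : Fin m → Set ℝ, (∀ i, (I i).OrdConnected) →
          |∑ k ∈ range K, (ind I (x k (v n)) - mean (q k) (fun t => ind I (x k t)))| ≤
            C * lam δ N K := by
  classical
  obtain ⟨κ1, C1, hκ10, hκ11, hC1, H⟩ := good2 hv s B D hs δ hδ
  set w : ℝ := 2 * m * (B + 1) with hw
  have hw0 : 0 ≤ w := by positivity
  set κ : ℝ := κ1 / (2 * (w + 1)) with hκ
  have hκ0 : 0 < κ := by positivity
  have hκ2 : κ * (2 * (w + 1)) = κ1 := by rw [hκ]; field_simp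
  have hκw : κ * w ≤ κ1 / 2 := by nlinarith
  have hκh : κ ≤ κ1 / 2 := by nlinarith
  have hD1 : (1 : ℝ) ≤ ((D : ℝ) + 1) ^ (2 * m) := one_le_pow₀ (by
    have : (0 : ℝ) ≤ D := Nat.cast_nonneg D
    linarith)
  refine ⟨κ, ((D : ℝ) + 1) ^ (2 * m) * C1, hκ0, by linarith,
    one_le_mul_of_one_le_of_one_le hD1 hC1, ?_⟩
  intro q hq hcop x hx N hN
  have hNr1 : (1 : ℝ) ≤ N := by exact_mod_cast hN
  have hN0 : (0 : ℝ) < N := by linarith
  set Y := ⌊(N : ℝ) ^ κ⌋₊ with hY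
  have hYr : (Y : ℝ) ≤ (N : ℝ) ^ κ := Nat.floor_le (Real.rpow_nonneg hN0.le _)
  set Θ : Fin m → Finset ℝ := fun i =>
    (range Y).biUnion (fun k => (range (q k)).image (fun t => x k t i)) with hΘ
  have hΘc : ∀ i, ((Θ i).card : ℝ) ≤ ((D : ℝ) + 1) * (N : ℝ) ^ (κ * (B + 1)) := by
    intro i
    have h1 : (Θ i).card ≤ ∑ k ∈ range Y, D * Y ^ B := by
      refine card_biUnion_le.trans (sum_le_sum fun k hk => ?_)
      refine card_image_le.trans ?_
      rw [card_range]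
      refine (hq k).2.trans (Nat.mul_le_mul_left D (Nat.pow_le_pow_left ?_ B))
      exact mem_range.mp hk
    rw [sum_const, card_range, smul_eq_mul] at h1
    have h2 : ((Θ i).card : ℝ) ≤ Y * (D * (Y : ℝ) ^ B) := by exact_mod_cast h1
    have h3 : (Y : ℝ) ^ (B + 1) ≤ (N : ℝ) ^ (κ * (B + 1)) := by
      calc (Y : ℝ) ^ (B + 1) ≤ ((N : ℝ) ^ κ) ^ (B + 1) := pow_le_pow_left₀ (by positivity) hYr _
        _ = _ := by
          rw [← Real.rpow_natCast, ← Real.rpow_mul hN0.le]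
          push_cast
          rfl
    calc ((Θ i).card : ℝ) ≤ Y * (D * (Y : ℝ) ^ B) := h2
      _ = D * (Y : ℝ) ^ (B + 1) := by rw [pow_succ]; ring
      _ ≤ ((D : ℝ) + 1) * (N : ℝ) ^ (κ * (B + 1)) := by
          have : (D : ℝ) ≤ D + 1 := by linarith
          gcongr
  set J : (Fin m → ℝ) → (Fin m → ℝ) → Fin m → Set ℝ := fun a b i => Set.Icc (a i) (b i) with hJ
  have hEx : ∀ a b : Fin m → ℝ, ∃ E : Finset ℕ, (E.card : ℝ) ≤ C1 * (N : ℝ) ^ (1 - κ1) ∧
      ∀ n : ℕ, n ≤ N → n ∉ E → ∀ K : ℕ, (K : ℝ) ≤ (N : ℝ) ^ κ1 →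
        |∑ k ∈ range K, (ind (J a b) (x k (v n)) - mean (q k) (fun t => ind (J a b) (x k t)))| ≤
          C1 * lam δ N K := by
    intro a b
    refine H q hq hcop
      (fun k n => ind (J a b) (x k n) - mean (q k) (fun t => ind (J a b) (x k t))) ?_ ?_ ?_ N hN
    · intro k n
      show ind (J a b) (x k (n + q k)) - _ = ind (J a b) (x k n) - _
      rw [hx k n]
    · intro k n
      have h1 := ind_nonneg (J a b) (x k n)
      have h2 := ind_le (J a b) (x k n)
      obtain ⟨h3, h4⟩ := mean_mem (q := q k) (f := fun t => ind (J a b) (x k t))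
        (fun t => ind_nonneg _ _) (fun t => ind_le _ _)
      rw [abs_le]
      constructor <;> linarith
    · intro k
      exact sum_sub_mean (hq k).1 _
  choose Ex hEx1 hEx2 using hEx
  refine ⟨(Fintype.piFinset Θ).biUnion (fun a => (Fintype.piFinset Θ).biUnion (fun b => Ex a b)),
    ?_, ?_⟩
  · have hpi : ((Fintype.piFinset Θ).card : ℝ) ≤ (((D : ℝ) + 1) * (N : ℝ) ^ (κ * (B + 1))) ^ m := by
      rw [Fintype.card_piFinset]
      push_cast
      calc ∏ i, ((Θ i).card : ℝ) ≤ ∏ _i : Fin m, (((D : ℝ) + 1) * (N : ℝ) ^ (κ * (B + 1))) :=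
            prod_le_prod (fun i _ => Nat.cast_nonneg _) fun i _ => hΘc i
        _ = _ := by rw [prod_const, card_univ, Fintype.card_fin]
    set R : ℝ := (((D : ℝ) + 1) * (N : ℝ) ^ (κ * (B + 1))) ^ m with hR
    have hR0 : 0 ≤ R := by positivity
    have hNp : 0 ≤ (N : ℝ) ^ (1 - κ1) := Real.rpow_nonneg hN0.le _
    have h1 : (((Fintype.piFinset Θ).biUnion
        (fun a => (Fintype.piFinset Θ).biUnion (fun b => Ex a b))).card : ℝ) ≤
        ∑ a ∈ Fintype.piFinset Θ, ∑ b ∈ Fintype.piFinset Θ, ((Ex a b).card : ℝ) := by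
      have h3 : ((Fintype.piFinset Θ).biUnion
          (fun a => (Fintype.piFinset Θ).biUnion (fun b => Ex a b))).card ≤
          ∑ a ∈ Fintype.piFinset Θ, ∑ b ∈ Fintype.piFinset Θ, (Ex a b).card :=
        card_biUnion_le.trans (sum_le_sum fun z _ => card_biUnion_le)
      exact_mod_cast h3
    have hRR : R * R = ((D : ℝ) + 1) ^ (2 * m) * (N : ℝ) ^ (κ * w) := by
      have e1 : ((N : ℝ) ^ (κ * (B + 1))) ^ (2 * m) = (N : ℝ) ^ (κ * w) := by
        rw [← Real.rpow_natCast, ← Real.rpow_mul hN0.le]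
        congr 1
        rw [hw]; push_cast; ring
      rw [hR, ← pow_add, ← two_mul, mul_pow, e1]
    calc _ ≤ ∑ a ∈ Fintype.piFinset Θ, ∑ b ∈ Fintype.piFinset Θ, ((Ex a b).card : ℝ) := h1
      _ ≤ ∑ a ∈ Fintype.piFinset Θ, ∑ b ∈ Fintype.piFinset Θ, C1 * (N : ℝ) ^ (1 - κ1) :=
          sum_le_sum fun a _ => sum_le_sum fun b _ => hEx1 a b
      _ = (Fintype.piFinset Θ).card * ((Fintype.piFinset Θ).card * (C1 * (N : ℝ) ^ (1 - κ1))) := by
          rw [sum_const, sum_const, nsmul_eq_mul, nsmul_eq_mul]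
      _ ≤ R * (R * (C1 * (N : ℝ) ^ (1 - κ1))) := by gcongr
      _ = ((D : ℝ) + 1) ^ (2 * m) * C1 * ((N : ℝ) ^ (κ * w) * (N : ℝ) ^ (1 - κ1)) := by
          rw [← mul_assoc, hRR]; ring
      _ ≤ ((D : ℝ) + 1) ^ (2 * m) * C1 * (N : ℝ) ^ (1 - κ) := by
          rw [← Real.rpow_add hN0]
          have h4 : (N : ℝ) ^ (κ * w + (1 - κ1)) ≤ (N : ℝ) ^ (1 - κ) :=
            Real.rpow_le_rpow_of_exponent_le hNr1 (by linarith)
          gcongr
  · intro n hn hnE K hK I hI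
    have hKY : K ≤ Y := Nat.le_floor hK
    have hC : C1 ≤ ((D : ℝ) + 1) ^ (2 * m) * C1 := by nlinarith
    have hlam := lam_nonneg δ N K
    have hres : ∀ k n, x k n = x k (n % q k) := fun k n => (per_mod (hx k) n).symm
    by_cases hne : ∃ i, ∀ θ ∈ Θ i, θ ∉ I i
    · obtain ⟨i, hi⟩ := hne
      have h0 : ∀ k, k < K → ∀ t, ind I (x k t) = 0 := by
        intro k hk t
        unfold ind
        rw [if_neg]
        intro hall
        have hmem : x k (t % q k) i ∈ Θ i := by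
          rw [hΘ]
          simp only [mem_biUnion, mem_image, mem_range]
          exact ⟨k, by omega, t % q k, Nat.mod_lt _ (hq k).1, rfl⟩
        apply hi _ hmem
        rw [← hres]
        exact hall i
      have h1 : ∑ k ∈ range K, (ind I (x k (v n)) - mean (q k) (fun t => ind I (x k t))) = 0 := by
        refine sum_eq_zero fun k hk => ?_
        rw [mem_range] at hk
        rw [h0 k hk (v n), mean]
        simp [h0 k hk]
      rw [h1, abs_zero]
      positivity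
    · push Not at hne
      have hnon : ∀ i, ((Θ i).filter (fun θ => θ ∈ I i)).Nonempty := by
        intro i
        obtain ⟨θ, h1, h2⟩ := hne i
        exact ⟨θ, mem_filter.mpr ⟨h1, h2⟩⟩
      set a : Fin m → ℝ := fun i => ((Θ i).filter (fun θ => θ ∈ I i)).min' (hnon i) with ha
      set b : Fin m → ℝ := fun i => ((Θ i).filter (fun θ => θ ∈ I i)).max' (hnon i) with hb
      have haΘ : ∀ i, a i ∈ Θ i ∧ a i ∈ I i := fun i =>
        mem_filter.mp (min'_mem ((Θ i).filter (fun θ => θ ∈ I i)) (hnon i))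
      have hbΘ : ∀ i, b i ∈ Θ i ∧ b i ∈ I i := fun i =>
        mem_filter.mp (max'_mem ((Θ i).filter (fun θ => θ ∈ I i)) (hnon i))
      have hiff : ∀ i, ∀ θ ∈ Θ i, (θ ∈ I i ↔ θ ∈ J a b i) := by
        intro i θ hθ
        rw [hJ, Set.mem_Icc]
        constructor
        · intro h
          have hm : θ ∈ (Θ i).filter (fun θ => θ ∈ I i) := mem_filter.mpr ⟨hθ, h⟩
          exact ⟨min'_le _ _ hm, le_max' _ _ hm⟩
        · intro h
          exact (hI i).out (haΘ i).2 (hbΘ i).2 h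
      have heq : ∀ k, k < K → ∀ t, ind I (x k t) = ind (J a b) (x k t) := by
        intro k hk t
        apply ind_congr
        rw [hres k t]
        refine forall_congr' fun i => hiff i _ ?_
        rw [hΘ]
        simp only [mem_biUnion, mem_image, mem_range]
        exact ⟨k, by omega, t % q k, Nat.mod_lt _ (hq k).1, rfl⟩
      have hnab : n ∉ Ex a b := by
        intro h
        apply hnE
        rw [mem_biUnion]
        refine ⟨a, Fintype.mem_piFinset.mpr fun i => (haΘ i).1, ?_⟩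
        rw [mem_biUnion]
        exact ⟨b, Fintype.mem_piFinset.mpr fun i => (hbΘ i).1, h⟩
      have hKκ1 : (K : ℝ) ≤ (N : ℝ) ^ κ1 :=
        hK.trans (Real.rpow_le_rpow_of_exponent_le hNr1 (by linarith))
      have h1 := hEx2 a b n hn hnab K hKκ1
      have h2 : ∑ k ∈ range K, (ind I (x k (v n)) - mean (q k) (fun t => ind I (x k t))) =
          ∑ k ∈ range K, (ind (J a b) (x k (v n)) - mean (q k) (fun t => ind (J a b) (x k t))) := by
        refine sum_congr rfl fun k hk => ?_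
        rw [mem_range] at hk
        rw [heq k hk (v n)]
        congr 2
        funext t
        exact heq k hk t
      rw [h2]
      calc _ ≤ C1 * lam δ N K := h1
        _ ≤ _ := mul_le_mul_of_nonneg_right hC hlam

/-- **boxes at consecutive primes** -/
theorem consecutive2 {v : ℕ → ℕ} {ρ σ C₀ : ℝ} (hv : PED v ρ σ C₀) (s : ℕ) (hs : 1 ≤ s) (δ : ℝ) (hδ : 0 < δ) :
    ∃ κ C : ℝ, 0 < κ ∧ κ ≤ 1 ∧ 1 ≤ C ∧ ∀ x : ℕ → ℕ → ℝ, (∀ p n, x p (n + p) = x p n) →
      ∀ N : ℕ, 1 ≤ N → ∃ E : Finset ℕ, (E.card : ℝ) ≤ C * (N : ℝ) ^ (1 - κ) ∧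
        ∀ n : ℕ, n ≤ N → n ∉ E → ∀ K : ℕ, (K : ℝ) ≤ (N : ℝ) ^ κ →
          ∀ I : Fin s → Set ℝ, (∀ i, (I i).OrdConnected) →
          |∑ k ∈ range K, (ind I (fun i => x (pr (k + i)) (v n)) -
            ∏ i : Fin s, mean (pr (k + i)) (fun t => ind1 (I i) (x (pr (k + i)) t)))| ≤
            C * lam δ N K := by
  obtain ⟨κ, C, h1, h2, h3, H⟩ := boxes2 hv s (2 * s) ((4 * s ^ 2) ^ s) s hs δ hδ
  refine ⟨κ, C, h1, h2, h3, ?_⟩
  intro x hx N hN
  obtain ⟨E, hE1, hE2⟩ := H (qs s) (qs_le s hs) (qs_coprime s)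
    (fun k n i => x (pr (k + i)) n) (by
      intro k n
      funext i
      have hd : pr (k + i) ∣ qs s k := dvd_prod_of_mem (fun i : Fin s => pr (k + i)) (mem_univ i)
      obtain ⟨c, hc⟩ := hd
      have h4 := per_mod (hx (pr (k + i))) (n + qs s k)
      have h5 := per_mod (hx (pr (k + i))) n
      rw [← h4, ← h5, hc, Nat.add_mul_mod_self_left]) N hN
  refine ⟨E, hE1, ?_⟩
  intro n hn hnE K hK I hI
  have h := hE2 n hn hnE K hK I hI
  have e : ∑ k ∈ range K, (ind I (fun i : Fin s => x (pr (k + i)) (v n)) -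
      ∏ i : Fin s, mean (pr (k + i)) (fun t => ind1 (I i) (x (pr (k + i)) t))) =
      ∑ k ∈ range K, (ind I (fun i : Fin s => x (pr (k + i)) (v n)) -
        mean (qs s k) (fun t => ind I (fun i : Fin s => x (pr (k + i)) t))) := by
    refine sum_congr rfl fun k _ => ?_
    rw [mean_prod s k x hx I]
  rw [e]
  exact h

end Pool.Agent.N193.PS
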