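import Pool.Agent.N193.PS.Pe2
import Pool.Agent.N193.PS.Gp

set_option autoImplicit false

/-!
The integer parts of the values of functions of non-integral index are uniformly distributed in residue classes with a
power saving.
-/

namespace Pool.Agent.N193.PS

open Finset Filter Topology
open Pool.Agent.H807R2.Dav (ee norm_ee ee_add)
open Pool.Agent.TH869.EVF (Per)
open Pool.Agent.TH869.SQ (per_mod ind ind1 mean pr lam)

variable {c : ℝ} {φ : ℕ → ℝ → ℝ}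

/-- a fraction is far from the integers -/
lemma frac_dist (a M : ℕ) (ha : a ∈ Ico 1 M) : 1 / (M : ℝ) ≤ |(a : ℝ) / M - round ((a : ℝ) / M)| := by
  rw [mem_Ico] at ha
  have hM : (0 : ℝ) < M := by exact_mod_cast (by omega : 0 < M)
  obtain ⟨k, hk⟩ : ∃ k : ℤ, k = round ((a : ℝ) / M) := ⟨_, rfl⟩
  rw [← hk]
  have e : (a : ℝ) / M - k = ((a - k * M : ℤ) : ℝ) / M := by
    push_cast
    field_simp
  rw [e, abs_div, abs_of_pos hM, ← Int.cast_abs]
  apply div_le_div_of_nonneg_right _ hM.le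
  have h1 : (a : ℤ) - k * M ≠ 0 := by
    intro h0
    have h2 : (M : ℤ) ∣ a := ⟨k, by linarith⟩
    have h3 := Int.le_of_dvd (by omega) h2
    omega
  exact_mod_cast Int.one_le_abs h1

/-- power-saving uniform distribution of the values in residue classes -/
theorem SV.ped (h : SV c φ) : ∃ ρ σ C : ℝ, PED (fun n => val φ n) ρ σ C := by
  classical
  obtain ⟨r, hr, σ₀, hσ₀, hσ₀', C₀, hC₀, hA⟩ := h.valsum'
  obtain ⟨X₀, hX₀⟩ := eventually_atTop.mp hA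
  have hcpos := h.pos
  obtain ⟨t₁, ht1, hlow⟩ := h.low (c / 2) (by positivity)
  have ht0 : 0 < t₁ := by linarith
  have hr0 : (1 : ℝ) ≤ r := by exact_mod_cast hr
  obtain ⟨B₁, hB₁⟩ : ∃ B₁ : ℝ, B₁ = φ 0 t₁ / t₁ ^ (c / 2) := ⟨_, rfl⟩
  have hφt := (hlow t₁ t₁ le_rfl le_rfl).1
  have hB₁0 : 0 < B₁ := by rw [hB₁]; positivity
  have hφlow : ∀ s : ℝ, t₁ ≤ s → B₁ * s ^ (c / 2) ≤ φ 0 s := by
    intro s hs
    have h1 := (hlow t₁ s le_rfl hs).2
    rw [Real.div_rpow (by linarith) ht0.le] at h1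
    have e : c - c / 2 = c / 2 := by ring
    rw [e] at h1
    refine le_trans (le_of_eq ?_) h1
    rw [hB₁]
    ring
  obtain ⟨ρ, hρ⟩ : ∃ ρ : ℝ, ρ = min (c / 4) 1 := ⟨_, rfl⟩
  have hρ0 : 0 < ρ := by rw [hρ]; positivity
  have hρ1 : ρ ≤ 1 := by rw [hρ]; exact min_le_right _ _
  have hρc : ρ ≤ c / 4 := by rw [hρ]; exact min_le_left _ _
  obtain ⟨σ, hσ⟩ : ∃ σ : ℝ, σ = min (c / (4 * r)) σ₀ := ⟨_, rfl⟩
  have hσ0 : 0 < σ := by rw [hσ]; positivity
  have hσσ : σ ≤ σ₀ := by rw [hσ]; exact min_le_right _ _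
  have hσc : σ ≤ c / (4 * r) := by rw [hσ]; exact min_le_left _ _
  obtain ⟨C₁, hC₁⟩ : ∃ C₁ : ℝ, C₁ = C₀ * (B₁ ^ (-(1 / (r : ℝ))) + 1) := ⟨_, rfl⟩
  have hC₁0 : 0 ≤ C₁ := by rw [hC₁]; positivity
  obtain ⟨N₀, hN₀⟩ : ∃ N₀ : ℕ, N₀ = X₀ + ⌈t₁⌉₊ + 1 := ⟨_, rfl⟩
  refine ⟨ρ, σ, C₁ + N₀ + 2, hρ0, hρ1, hσ0, by linarith, ?_, ?_⟩
  · have : (0 : ℝ) ≤ N₀ := Nat.cast_nonneg _
    linarith
  intro N hN M hM hMN F hF hF1 hsum
  have hN1 : (1 : ℝ) ≤ N := by exact_mod_cast hN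
  have hN0 : (0 : ℝ) < N := by linarith
  have hM1 : (1 : ℝ) ≤ M := by exact_mod_cast hM
  have hM0 : (0 : ℝ) < M := by linarith
  have hNσ : 1 ≤ (N : ℝ) ^ (1 - σ) := Real.one_le_rpow hN1 (by linarith)
  by_cases hNN : N < N₀
  · have h1 : |∑ n ∈ range (N + 1), F (val φ n)| ≤ (N : ℝ) + 1 := by
      refine (abs_sum_le_sum_abs _ _).trans ?_
      calc ∑ n ∈ range (N + 1), |F (val φ n)| ≤ ∑ n ∈ range (N + 1), (1 : ℝ) := sum_le_sum fun n _ => hF1 _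
        _ = (N : ℝ) + 1 := by simp
    have h2 : (N : ℝ) + 1 ≤ N₀ := by exact_mod_cast hNN
    have h3 : (N₀ : ℝ) ≤ C₁ + N₀ + 2 := by linarith
    have h4 : C₁ + N₀ + 2 ≤ (M : ℝ) * ((C₁ + N₀ + 2) * (N : ℝ) ^ (1 - σ)) := by
      have h5 : (C₁ + N₀ + 2) * 1 ≤ (C₁ + N₀ + 2) * (N : ℝ) ^ (1 - σ) := mul_le_mul_of_nonneg_left hNσ (by positivity)
      have h6 : 1 * ((C₁ + N₀ + 2) * (N : ℝ) ^ (1 - σ)) ≤ M * ((C₁ + N₀ + 2) * (N : ℝ) ^ (1 - σ)) :=
        mul_le_mul_of_nonneg_right hM1 (by positivity)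
      linarith
    linarith
  push Not at hNN
  -- the function on the integers
  obtain ⟨g, hg⟩ : ∃ g : ℤ → ℝ, g = fun z => F (z % (M : ℤ)).toNat := ⟨_, rfl⟩
  have hgper : Pool.Agent.R459.Eq.Per M g := by
    intro m n hmn
    rw [hg]
    simp only
    have : m % (M : ℤ) = n % (M : ℤ) := (Int.emod_emod_of_dvd m (dvd_refl _)).symm.trans (by
      rw [Int.emod_emod_of_dvd m (dvd_refl _)]
      exact Int.emod_eq_emod_iff_emod_sub_eq_zero.2 (Int.emod_eq_zero_of_dvd hmn))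
    rw [this]
  have hgF : ∀ v : ℕ, g (v : ℤ) = F v := by
    intro v
    rw [hg]
    simp only
    rw [← Int.natCast_mod, Int.toNat_natCast]
    exact per_mod hF v
  have hg1 : ∀ n, |g n| ≤ 1 := by
    intro n
    rw [hg]
    exact hF1 _
  have hmean : Pool.Agent.R459.Eq.mean M g = 0 := by
    unfold Pool.Agent.R459.Eq.mean
    have : ∑ t ∈ range M, g (t : ℤ) = 0 := by
      rw [← hsum]
      exact sum_congr rfl fun t _ => hgF t
    rw [this, zero_div]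
  -- the exponential sums
  have hexp : ∀ a ∈ Ico 1 M, ‖∑ n ∈ Icc 1 N, ee ((a : ℝ) * (((val φ n : ℕ) : ℤ) : ℝ) / M)‖ ≤ C₁ * (N : ℝ) ^ (1 - σ) := by
    intro a ha
    have hd := frac_dist a M ha
    have hd0 : 0 < |(a : ℝ) / M - round ((a : ℝ) / M)| := lt_of_lt_of_le (by positivity) hd
    have h1 := hX₀ N (by omega) ((a : ℝ) / M) hd0
    have e : ∑ n ∈ Icc 1 N, ee ((a : ℝ) * (((val φ n : ℕ) : ℤ) : ℝ) / M) = ∑ n ∈ Icc 1 N, ee ((a : ℝ) / M * (val φ n : ℕ)) := by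
      apply sum_congr rfl
      intro n _
      congr 1
      push_cast
      ring
    rw [e]
    refine h1.trans ?_
    have ht : t₁ ≤ (N : ℝ) := (Nat.le_ceil t₁).trans (by exact_mod_cast (by omega : ⌈t₁⌉₊ ≤ N))
    have h2 := hφlow N ht
    have h3 : B₁ * (N : ℝ) ^ (c / 4) ≤ |(a : ℝ) / M - round ((a : ℝ) / M)| * φ 0 N := by
      calc B₁ * (N : ℝ) ^ (c / 4) = (1 / (N : ℝ) ^ (c / 4)) * (B₁ * (N : ℝ) ^ (c / 2)) := by
            have e1 : (N : ℝ) ^ (c / 2) = (N : ℝ) ^ (c / 4) * (N : ℝ) ^ (c / 4) := by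
              rw [← Real.rpow_add hN0]
              congr 1
              ring
            rw [e1]
            field_simp
        _ ≤ (1 / (M : ℝ)) * (B₁ * (N : ℝ) ^ (c / 2)) := by
            apply mul_le_mul_of_nonneg_right _ (by positivity)
            apply one_div_le_one_div_of_le hM0
            exact hMN.trans (Real.rpow_le_rpow_of_exponent_le hN1 hρc)
        _ ≤ _ := mul_le_mul hd h2 (by positivity) (abs_nonneg _)
    have h4 : (|(a : ℝ) / M - round ((a : ℝ) / M)| * φ 0 N) ^ (-(1 / (r : ℝ))) ≤ B₁ ^ (-(1 / (r : ℝ))) * (N : ℝ) ^ (-σ) := by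
      calc _ ≤ (B₁ * (N : ℝ) ^ (c / 4)) ^ (-(1 / (r : ℝ))) :=
            Real.rpow_le_rpow_of_nonpos (by positivity) h3 (by
              have : 0 < 1 / (r : ℝ) := by positivity
              linarith)
        _ = B₁ ^ (-(1 / (r : ℝ))) * (N : ℝ) ^ (-(c / (4 * r))) := by
            rw [Real.mul_rpow hB₁0.le (by positivity), ← Real.rpow_mul hN0.le]
            congr 2
            field_simp
        _ ≤ _ := by
            apply mul_le_mul_of_nonneg_left _ (by positivity)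
            apply Real.rpow_le_rpow_of_exponent_le hN1
            linarith
    have e2 : (N : ℝ) * (N : ℝ) ^ (-σ) = (N : ℝ) ^ (1 - σ) := by
      rw [show (1 : ℝ) - σ = 1 + -σ by ring, Real.rpow_add hN0, Real.rpow_one]
    calc C₀ * (N * (|(a : ℝ) / M - round ((a : ℝ) / M)| * φ 0 N) ^ (-(1 / (r : ℝ))) + (N : ℝ) ^ (1 - σ₀))
        ≤ C₀ * (N * (B₁ ^ (-(1 / (r : ℝ))) * (N : ℝ) ^ (-σ)) + (N : ℝ) ^ (1 - σ)) := by
          apply mul_le_mul_of_nonneg_left _ hC₀.le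
          apply add_le_add
          · exact mul_le_mul_of_nonneg_left h4 hN0.le
          · exact Real.rpow_le_rpow_of_exponent_le hN1 (by linarith)
      _ = C₁ * (N : ℝ) ^ (1 - σ) := by
          rw [hC₁, ← e2]
          ring
  have hbody : |∑ n ∈ Icc 1 N, F (val φ n)| ≤ M * (C₁ * (N : ℝ) ^ (1 - σ)) := by
    have e1 : ((∑ n ∈ Icc 1 N, F (val φ n) : ℝ) : ℂ) =
        ∑ a ∈ Ico 1 M, Pool.Agent.R459.Eq.co M g a * ∑ n ∈ Icc 1 N, ee ((a : ℝ) * (((val φ n : ℕ) : ℤ) : ℝ) / M) := by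
      rw [Complex.ofReal_sum]
      have h1 : ∀ n ∈ Icc 1 N, ((F (val φ n) : ℝ) : ℂ) =
          ∑ a ∈ Ico 1 M, Pool.Agent.R459.Eq.co M g a * ee ((a : ℝ) * (((val φ n : ℕ) : ℤ) : ℝ) / M) := by
        intro n _
        have h2 := Pool.Agent.R459.Eq.centered M hM g hgper ((val φ n : ℕ) : ℤ)
        rw [hmean, sub_zero, hgF] at h2
        rw [h2]
        apply sum_congr rfl
        intro a _
        congr 2
        ring
      rw [sum_congr rfl h1, sum_comm]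
      apply sum_congr rfl
      intro a _
      rw [mul_sum]
    rw [← Real.norm_eq_abs, ← Complex.norm_real, e1]
    refine (norm_sum_le _ _).trans ?_
    calc ∑ a ∈ Ico 1 M, ‖Pool.Agent.R459.Eq.co M g a * ∑ n ∈ Icc 1 N, ee ((a : ℝ) * (((val φ n : ℕ) : ℤ) : ℝ) / M)‖
        ≤ ∑ a ∈ Ico 1 M, C₁ * (N : ℝ) ^ (1 - σ) := by
          apply sum_le_sum
          intro a ha
          rw [norm_mul]
          calc _ ≤ 1 * (C₁ * (N : ℝ) ^ (1 - σ)) :=
                mul_le_mul (Pool.Agent.R459.Eq.norm_co M hM g hg1 a) (hexp a ha) (norm_nonneg _) zero_le_one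
            _ = _ := one_mul _
      _ = ((M - 1 : ℕ) : ℝ) * (C₁ * (N : ℝ) ^ (1 - σ)) := by rw [sum_const, Nat.card_Ico, nsmul_eq_mul]
      _ ≤ _ := by
          apply mul_le_mul_of_nonneg_right _ (by positivity)
          exact_mod_cast Nat.sub_le _ _
  have hsplit : ∑ n ∈ range (N + 1), F (val φ n) = F (val φ 0) + ∑ n ∈ Icc 1 N, F (val φ n) := by
    have e : range (N + 1) = insert 0 (Icc 1 N) := by
      ext n
      rw [mem_range, mem_insert, mem_Icc]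
      omega
    rw [e, sum_insert (by simp)]
  rw [hsplit]
  refine (abs_add_le _ _).trans ?_
  have h1 := hF1 (val φ 0)
  have h2 : (1 : ℝ) ≤ M * (N : ℝ) ^ (1 - σ) := one_le_mul_of_one_le_of_one_le hM1 hNσ
  have h3 : (0 : ℝ) ≤ M * (N : ℝ) ^ (1 - σ) := by positivity
  have h4 : (0 : ℝ) ≤ N₀ := Nat.cast_nonneg _
  nlinarith

open Classical in
/-- functions at consecutive primes -/
theorem sv_consec (c : ℝ) (f : ℝ → ℝ) (hc : 0 < c) (hn : ∀ m : ℕ, c ≠ m) (hf : SmoothlyVarying c f)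
    (s : ℕ) (hs : 1 ≤ s) (δ : ℝ) (hδ : 0 < δ) :
    ∃ κ C : ℝ, 0 < κ ∧ κ ≤ 1 ∧ 1 ≤ C ∧ ∀ x : ℕ → ℕ → ℝ, (∀ p n, x p (n + p) = x p n) →
      ∀ N : ℕ, 1 ≤ N → (((Icc 1 N).filter (fun n : ℕ => ¬ ∀ K : ℕ, (K : ℝ) ≤ (N : ℝ) ^ κ →
          ∀ I : Fin s → Set ℝ, (∀ i, (I i).OrdConnected) →
          |∑ k ∈ range K, (ind I (fun i => x (pr (k + i)) ⌊f n⌋₊) -
            ∏ i : Fin s, mean (pr (k + i)) (fun t => ind1 (I i) (x (pr (k + i)) t)))| ≤
            C * lam δ N K)).card : ℝ) ≤ C * (N : ℝ) ^ (1 - κ) := by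
  have hsv := sv_of c hc hn f hf
  obtain ⟨ρ, σ, C₀, hped⟩ := hsv.ped
  obtain ⟨κ, C, h1, h2, h3, H⟩ := consecutive2 hped s hs δ hδ
  refine ⟨κ, C, h1, h2, h3, fun x hx N hN => ?_⟩
  obtain ⟨E, hE1, hE2⟩ := H x hx N hN
  refine le_trans (Nat.cast_le.2 (card_le_card fun n hn => ?_)) hE1
  rw [mem_filter, mem_Icc] at hn
  by_contra hnE
  apply hn.2
  intro K hK I hI
  have h4 := hE2 n hn.1.2 hnE K hK I hI
  have e : val (fun m => iteratedDeriv m f) n = ⌊f n⌋₊ := by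
    unfold val
    simp only [iteratedDeriv_zero]
  simp only [e] at h4
  exact h4

end Pool.Agent.N193.PS
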